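import Mathlib
import Pool.Agent.TH880.MK.M26

set_option autoImplicit false

/-!
# Second differences of the values of three incomparable words
-/

namespace Pool.Agent.N576.MK

open Pool.Agent.H499R2 Pool.Agent.TH880.MK

noncomputable section

lemma ell_add (X : Nd) (s t : ℤ × ℤ) : ell X (s + t) = ell X s + ell X t := by
  unfold ell cu cv; simp only [Prod.fst_add, Prod.snd_add]; push_cast; ring

lemma FF_mono {i l : List Bool} (h : i <+: l) : FF i ≤ FF l := by
  have h1 := FF_len h
  have h2 : (i.length : ℝ) ≤ l.length := by exact_mod_cast h.length_le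
  linarith

lemma exp_mono {i l : List Bool} (h : i <+: l) : Real.exp (-2 * FF l) ≤ Real.exp (-2 * FF i) :=
  Real.exp_le_exp.2 (by linarith [FF_mono h])

/-- the deficiency below a word -/
lemma dl_exp {i l : List Bool} (h : i <+: l) : dl (desc root l) ≤ 81 * Real.exp (-2 * FF i) := by
  have hi := valid_root.desc i
  have hl := valid_root.desc l
  have h1 := ab_prefix h
  have a1 : (1 : ℝ) ≤ (desc root i).a := hi.mt.ha
  have b1 : (1 : ℝ) ≤ (desc root i).b := hi.mt.hb
  have a2 : ((desc root i).a : ℝ) ≤ (desc root l).a := by exact_mod_cast h1.1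
  have b2 : ((desc root i).b : ℝ) ≤ (desc root l).b := by exact_mod_cast h1.2
  have h2 : dl (desc root l) ≤ dl (desc root i) := by
    unfold dl
    apply one_div_le_one_div_of_le (by positivity)
    exact mul_le_mul (pow_le_pow_left₀ (by linarith) a2 2) (pow_le_pow_left₀ (by linarith) b2 2)
      (by positivity) (by positivity)
  have h3 := dl_c hi
  obtain ⟨e1, -⟩ := exp_FF i
  have i3 : 1 / (9 * ((desc root i).c : ℝ) ^ 2) = 1 / 9 * (1 / ((desc root i).c : ℝ) ^ 2) := by ring
  have i4 : 9 / ((desc root i).c : ℝ) ^ 2 = 9 * (1 / ((desc root i).c : ℝ) ^ 2) := by ring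
  linarith

/-- a common prefix of two diverging words -/
lemma pre_meet {m s t T : List Bool} {b : Bool} (h1 : m ++ [b] <+: s) (h2 : m ++ [!b] <+: t)
    (g1 : T <+: s) (g2 : T <+: t) : T <+: m := by
  rcases le_or_gt T.length m.length with h | h
  · exact List.prefix_of_prefix_length_le g1 ((List.prefix_append _ _).trans h1) h
  · exfalso
    have k1 : m ++ [b] <+: T := List.prefix_of_prefix_length_le h1 g1 (by simp; omega)
    have k2 : m ++ [!b] <+: T := List.prefix_of_prefix_length_le h2 g2 (by simp; omega)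
    have k3 : m ++ [b] <+: m ++ [!b] := List.prefix_of_prefix_length_le k1 k2 (by simp)
    have k4 := k3.eq_of_length (by simp)
    have k5 := List.append_inj' k4 rfl
    have k6 : b = !b := by simpa using k5.2
    cases b <;> simp at k6

lemma pre_left {m s : List Bool} {b : Bool} (h : m ++ [b] <+: s) : m <+: s := (List.prefix_append _ _).trans h

/-- the second difference, `y` in the middle -/
theorem mid_bounds {H : ℕ} {x y z m1 m2 : List Bool} {b1 b2 : Bool}
    (h1x : m1 ++ [b1] <+: x) (h1y : m1 ++ [!b1] <+: y) (h2z : m2 ++ [b2] <+: z) (h2y : m2 ++ [!b2] <+: y)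
    (sx : sz x ≤ H) (sy : sz y ≤ H) (sz' : sz z ≤ H) {α β γ : ℤ} (hα : 1 ≤ α) (hβ : 1 ≤ β) (hγ : 1 ≤ γ)
    (bα : (α : ℝ) ≤ H ^ 2) (bβ : (β : ℝ) ≤ H ^ 2) (bγ : (γ : ℝ) ≤ H ^ 2)
    (hrel : α • zz x + γ • zz z = β • zz y) :
    Real.exp (-2 * FF m1) + Real.exp (-2 * FF m2) ≤ α * FF x + γ * FF z - β * FF y ∧
    α * FF x + γ * FF z - β * FF y ≤ 81 * H ^ 3 * (Real.exp (-2 * FF m1) + Real.exp (-2 * FF m2)) +
      2 * H ^ 3 * dl (desc root y) := by
  have g1 := gap_bounds h1x h1y sx
  have g2 := gap_bounds h2z h2y sz'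
  have g3 := F_closed y y (inC_of_prefix (List.prefix_refl y))
  have hl : (α : ℝ) * ell (desc root y) (zz x) + γ * ell (desc root y) (zz z) = β * ell (desc root y) (zz y) := by
    rw [← ell_smul, ← ell_smul, ← ell_smul, ← ell_add, hrel]
  have a1 : (1 : ℝ) ≤ α := by exact_mod_cast hα
  have a2 : (1 : ℝ) ≤ β := by exact_mod_cast hβ
  have a3 : (1 : ℝ) ≤ γ := by exact_mod_cast hγ
  have e1 := Real.exp_pos (-2 * FF m1)
  have e2 := Real.exp_pos (-2 * FF m2)
  have hdl := dl_pos (valid_root.desc y)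
  have hH0 : (0 : ℝ) ≤ H := Nat.cast_nonneg H
  have hsy : (sz y : ℝ) ≤ H := by exact_mod_cast sy
  constructor
  · have k1 : Real.exp (-2 * FF m1) ≤ α * (FF x - ell (desc root y) (zz x)) := by
      calc Real.exp (-2 * FF m1) ≤ 1 * (FF x - ell (desc root y) (zz x)) := by linarith [g1.1]
        _ ≤ α * (FF x - ell (desc root y) (zz x)) := mul_le_mul_of_nonneg_right a1 (by linarith [g1.1])
    have k2 : Real.exp (-2 * FF m2) ≤ γ * (FF z - ell (desc root y) (zz z)) := by
      calc Real.exp (-2 * FF m2) ≤ 1 * (FF z - ell (desc root y) (zz z)) := by linarith [g2.1]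
        _ ≤ γ * (FF z - ell (desc root y) (zz z)) := mul_le_mul_of_nonneg_right a3 (by linarith [g2.1])
    have k3 : 0 ≤ β * (ell (desc root y) (zz y) - FF y) := mul_nonneg (by linarith) (by linarith [g3.2])
    nlinarith
  · have k1 : α * (FF x - ell (desc root y) (zz x)) ≤ H ^ 2 * (81 * H * Real.exp (-2 * FF m1)) :=
      mul_le_mul bα g1.2 (by linarith [g1.1]) (by positivity)
    have k2 : γ * (FF z - ell (desc root y) (zz z)) ≤ H ^ 2 * (81 * H * Real.exp (-2 * FF m2)) :=
      mul_le_mul bγ g2.2 (by linarith [g2.1]) (by positivity)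
    have k3 : β * (ell (desc root y) (zz y) - FF y) ≤ H ^ 2 * (2 * dl (desc root y) * H) := by
      apply mul_le_mul bβ _ (by linarith [g3.2]) (by positivity)
      have : 2 * dl (desc root y) * sz y ≤ 2 * dl (desc root y) * H := mul_le_mul_of_nonneg_left hsy (by positivity)
      linarith [g3.1]
    have e : α * FF x + γ * FF z - β * FF y = α * (FF x - ell (desc root y) (zz x)) +
        γ * (FF z - ell (desc root y) (zz z)) + β * (ell (desc root y) (zz y) - FF y) := by linarith
    rw [e]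
    have e2 : 81 * (H : ℝ) ^ 3 * (Real.exp (-2 * FF m1) + Real.exp (-2 * FF m2)) + 2 * H ^ 3 * dl (desc root y) =
        H ^ 2 * (81 * H * Real.exp (-2 * FF m1)) + H ^ 2 * (81 * H * Real.exp (-2 * FF m2)) +
          H ^ 2 * (2 * dl (desc root y) * H) := by ring
    linarith

/-- incomparable words -/
def Inc (x y : List Bool) : Prop := ¬ x <+: y ∧ ¬ y <+: x

lemma Inc.symm {x y : List Bool} (h : Inc x y) : Inc y x := ⟨h.2, h.1⟩

/-- the statement about three words -/
def Tri (H : ℕ) (x y z : List Bool) (S : ℝ) : Prop :=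
  (∀ T, T <+: x → T <+: y → T <+: z → |S| ≤ 324 * H ^ 3 * Real.exp (-2 * FF T)) ∧
  (∀ m b, m ++ [b] <+: x → m ++ [!b] <+: y → Real.exp (-2 * FF m) ≤ |S|) ∧
  (∀ m b, m ++ [b] <+: y → m ++ [!b] <+: z → Real.exp (-2 * FF m) ≤ |S|) ∧
  (∀ m b, m ++ [b] <+: z → m ++ [!b] <+: x → Real.exp (-2 * FF m) ≤ |S|)

/-- `y` in the middle -/
lemma tri_mid {H : ℕ} {x y z : List Bool} (ixy : Inc x y) (izy : Inc z y)
    (sx : sz x ≤ H) (sy : sz y ≤ H) (sz' : sz z ≤ H) {α β γ : ℤ} (hα : 1 ≤ α) (hβ : 1 ≤ β) (hγ : 1 ≤ γ)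
    (bα : (α : ℝ) ≤ H ^ 2) (bβ : (β : ℝ) ≤ H ^ 2) (bγ : (γ : ℝ) ≤ H ^ 2)
    (hrel : α • zz x + γ • zz z = β • zz y) {S : ℝ} (hS : |S| = |α * FF x + γ * FF z - β * FF y|) :
    Tri H x y z S := by
  obtain ⟨m1, b1, h1x, h1y⟩ := diverge x y ixy.1 ixy.2
  obtain ⟨m2, b2, h2z, h2y⟩ := diverge z y izy.1 izy.2
  obtain ⟨lo, up⟩ := mid_bounds h1x h1y h2z h2y sx sy sz' hα hβ hγ bα bβ bγ hrel
  have e1 := Real.exp_pos (-2 * FF m1)
  have e2 := Real.exp_pos (-2 * FF m2)
  have hpos : 0 ≤ α * FF x + γ * FF z - β * FF y := by linarith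
  rw [abs_of_nonneg hpos] at hS
  have flip : ∀ {m s t : List Bool} {b : Bool}, m ++ [b] <+: s → m ++ [!b] <+: t → m ++ [!b] <+: t ∧ m ++ [!!b] <+: s := by
    intro m s t b h1 h2
    rw [Bool.not_not]
    exact ⟨h2, h1⟩
  have uniq : ∀ {m m' s t : List Bool} {b b' : Bool}, m ++ [b] <+: s → m ++ [!b] <+: t → m' ++ [b'] <+: s →
      m' ++ [!b'] <+: t → m = m' := by
    intro m m' s t b b' h1 h2 h3 h4
    have k1 := pre_meet h1 h2 (pre_left h3) (pre_left h4)
    have k2 := pre_meet h3 h4 (pre_left h1) (pre_left h2)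
    exact (k1.eq_of_length (le_antisymm k1.length_le k2.length_le)).symm
  refine ⟨?_, ?_, ?_, ?_⟩
  · intro T tx ty tz
    have p1 := pre_meet h1x h1y tx ty
    have p2 := pre_meet h2z h2y tz ty
    have q1 := exp_mono p1
    have q2 := exp_mono p2
    have q3 := dl_exp ty
    have hH0 : (0 : ℝ) ≤ H := Nat.cast_nonneg H
    rw [hS]
    refine up.trans ?_
    have r1 : 81 * (H : ℝ) ^ 3 * (Real.exp (-2 * FF m1) + Real.exp (-2 * FF m2)) ≤
        81 * H ^ 3 * (Real.exp (-2 * FF T) + Real.exp (-2 * FF T)) :=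
      mul_le_mul_of_nonneg_left (by linarith) (by positivity)
    have r2 : 2 * (H : ℝ) ^ 3 * dl (desc root y) ≤ 2 * H ^ 3 * (81 * Real.exp (-2 * FF T)) :=
      mul_le_mul_of_nonneg_left q3 (by positivity)
    linarith
  · intro m b g1 g2
    rw [uniq g1 g2 h1x h1y, hS]
    linarith
  · intro m b g1 g2
    obtain ⟨g3, g4⟩ := flip g1 g2
    rw [uniq g3 g4 h2z h2y, hS]
    linarith
  · intro m b g1 g2
    rw [hS]
    -- the shorter of `m1`, `m2` is a prefix of `m`
    rcases le_total m1.length m2.length with h | h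
    · have k : m1 <+: m2 := List.prefix_of_prefix_length_le (pre_left h1y) (pre_left h2y) h
      have k2 := pre_meet g1 g2 (k.trans (pre_left h2z)) (pre_left h1x)
      linarith [exp_mono k2]
    · have k : m2 <+: m1 := List.prefix_of_prefix_length_le (pre_left h2y) (pre_left h1y) h
      have k2 := pre_meet g1 g2 (pre_left h2z) (k.trans (pre_left h1x))
      linarith [exp_mono k2]

lemma Tri.rot {H : ℕ} {x y z : List Bool} {S : ℝ} (h : Tri H x y z S) : Tri H y z x S :=
  ⟨fun T h1 h2 h3 => h.1 T h3 h1 h2, h.2.2.1, h.2.2.2, h.2.1⟩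

/-- **The second difference of three incomparable words.** -/
theorem tri {H : ℕ} {x y z : List Bool} (ixy : Inc x y) (iyz : Inc y z) (izx : Inc z x)
    (sx : sz x ≤ H) (sy : sz y ≤ H) (sz' : sz z ≤ H) {c1 c2 c3 : ℤ} (n1 : c1 ≠ 0) (n2 : c2 ≠ 0) (n3 : c3 ≠ 0)
    (b1 : |(c1 : ℝ)| ≤ H ^ 2) (b2 : |(c2 : ℝ)| ≤ H ^ 2) (b3 : |(c3 : ℝ)| ≤ H ^ 2)
    (hrel : c1 • zz x + c2 • zz y + c3 • zz z = 0) :
    Tri H x y z (c1 * FF x + c2 * FF y + c3 * FF z) := by
  obtain ⟨p1, -⟩ := zz_pos x
  obtain ⟨p2, -⟩ := zz_pos y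
  obtain ⟨p3, -⟩ := zz_pos z
  have r1 : c1 * (zz x).1 + c2 * (zz y).1 + c3 * (zz z).1 = 0 := by
    have := congrArg Prod.fst hrel
    simpa using this
  have r2 : c1 * (zz x).2 + c2 * (zz y).2 + c3 * (zz z).2 = 0 := by
    have := congrArg Prod.snd hrel
    simpa using this
  obtain ⟨u1, u2⟩ := abs_le.1 b1
  obtain ⟨v1, v2⟩ := abs_le.1 b2
  obtain ⟨w1, w2⟩ := abs_le.1 b3
  rcases lt_or_gt_of_ne n1 with s1 | s1 <;> rcases lt_or_gt_of_ne n2 with s2 | s2 <;>
    rcases lt_or_gt_of_ne n3 with s3 | s3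
  · exfalso; nlinarith
  · -- `z` in the middle
    have := tri_mid (H := H) (x := y) (y := z) (z := x) iyz izx.symm sy sz' sx (α := -c2) (β := c3) (γ := -c1)
      (by omega) (by omega) (by omega) (by push_cast; linarith) (by linarith) (by push_cast; linarith)
      (by ext <;> simp <;> linarith) (S := c1 * FF x + c2 * FF y + c3 * FF z) (by
        rw [← abs_neg]; congr 1; push_cast; ring)
    exact this.rot.rot
  · -- `y` in the middle
    have := tri_mid (H := H) (x := x) (y := y) (z := z) ixy iyz.symm sx sy sz' (α := -c1) (β := c2) (γ := -c3)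
      (by omega) (by omega) (by omega) (by push_cast; linarith) (by linarith) (by push_cast; linarith)
      (by ext <;> simp <;> linarith) (S := c1 * FF x + c2 * FF y + c3 * FF z) (by
        rw [← abs_neg]; congr 1; push_cast; ring)
    exact this
  · -- `x` in the middle
    have := tri_mid (H := H) (x := z) (y := x) (z := y) izx ixy.symm sz' sx sy (α := c3) (β := -c1) (γ := c2)
      (by omega) (by omega) (by omega) (by linarith) (by push_cast; linarith) (by linarith)
      (by ext <;> simp <;> linarith) (S := c1 * FF x + c2 * FF y + c3 * FF z) (by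
        congr 1; push_cast; ring)
    exact this.rot
  · -- `x` in the middle
    have := tri_mid (H := H) (x := z) (y := x) (z := y) izx ixy.symm sz' sx sy (α := -c3) (β := c1) (γ := -c2)
      (by omega) (by omega) (by omega) (by push_cast; linarith) (by linarith) (by push_cast; linarith)
      (by ext <;> simp <;> linarith) (S := c1 * FF x + c2 * FF y + c3 * FF z) (by
        rw [← abs_neg]; congr 1; push_cast; ring)
    exact this.rot
  · -- `y` in the middle
    have := tri_mid (H := H) (x := x) (y := y) (z := z) ixy iyz.symm sx sy sz' (α := c1) (β := -c2) (γ := c3)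
      (by omega) (by omega) (by omega) (by linarith) (by push_cast; linarith) (by linarith)
      (by ext <;> simp <;> linarith) (S := c1 * FF x + c2 * FF y + c3 * FF z) (by
        congr 1; push_cast; ring)
    exact this
  · -- `z` in the middle
    have := tri_mid (H := H) (x := y) (y := z) (z := x) iyz izx.symm sy sz' sx (α := c2) (β := -c3) (γ := c1)
      (by omega) (by omega) (by omega) (by linarith) (by push_cast; linarith) (by linarith)
      (by ext <;> simp <;> linarith) (S := c1 * FF x + c2 * FF y + c3 * FF z) (by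
        congr 1; push_cast; ring)
    exact this.rot.rot
  · exfalso; nlinarith

end

end Pool.Agent.N576.MK
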