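import Mathlib
import Pool.Agent.N576.MK.A1

set_option autoImplicit false

/-!
# The linear relation between three words below an irrational cone and their partners
-/

namespace Pool.Agent.N576.MK

open Pool.Agent.H499R2 Pool.Agent.TH880.MK

noncomputable section

lemma dt_H {H : ℕ} {x y : List Bool} (hx : sz x ≤ H) (hy : sz y ≤ H) : |(dt (zz x) (zz y) : ℝ)| ≤ (H : ℝ) ^ 2 := by
  have h1 := dt_nm (zz x) (zz y)
  rw [nm_zz, nm_zz] at h1
  have hx' : (sz x : ℝ) ≤ H := by exact_mod_cast hx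
  have hy' : (sz y : ℝ) ≤ H := by exact_mod_cast hy
  calc |(dt (zz x) (zz y) : ℝ)| ≤ sz x * sz y := h1
    _ ≤ H * H := mul_le_mul hx' hy' (Nat.cast_nonneg _) (Nat.cast_nonneg _)
    _ = (H : ℝ) ^ 2 := by ring

/-- the relation of the partners for a linear functional -/
lemma ell_three (Y : Nd) (y1 y2 y3 : ℤ × ℤ) :
    (dt y2 y3 : ℝ) * ell Y y1 + dt y3 y1 * ell Y y2 + dt y1 y2 * ell Y y3 = 0 := by
  unfold ell cu cv dt; push_cast; ring

/-- the value of the second difference in terms of the gaps of the partners -/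
lemma sum_gap (Y : Nd) {x1 x2 x3 y1 y2 y3 : List Bool} (f1 : FF y1 = FF x1) (f2 : FF y2 = FF x2) (f3 : FF y3 = FF x3) :
    (dt (zz y2) (zz y3) : ℝ) * FF x1 + dt (zz y3) (zz y1) * FF x2 + dt (zz y1) (zz y2) * FF x3 =
      dt (zz y2) (zz y3) * (FF y1 - ell Y (zz y1)) + dt (zz y3) (zz y1) * (FF y2 - ell Y (zz y2)) +
        dt (zz y1) (zz y2) * (FF y3 - ell Y (zz y3)) := by
  have h := ell_three Y (zz y1) (zz y2) (zz y3)
  rw [f1, f2, f3]
  linarith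

lemma abs3' {c1 c2 c3 u1 u2 u3 B E : ℝ} (h1 : |c1| ≤ B) (h2 : |c2| ≤ B) (h3 : |c3| ≤ B)
    (g1 : |u1| ≤ E) (g2 : |u2| ≤ E) (g3 : |u3| ≤ E) : |c1 * u1 + c2 * u2 + c3 * u3| ≤ 3 * (B * E) := by
  have hB : 0 ≤ B := (abs_nonneg _).trans h1
  have e : ∀ c u : ℝ, |c| ≤ B → |u| ≤ E → |c * u| ≤ B * E := fun c u hc hu => by
    rw [abs_mul]; exact mul_le_mul hc hu (abs_nonneg _) hB
  have k1 := e _ _ h1 g1
  have k2 := e _ _ h2 g2
  have k3 := e _ _ h3 g3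
  calc |c1 * u1 + c2 * u2 + c3 * u3| ≤ |c1 * u1 + c2 * u2| + |c3 * u3| := abs_add_le _ _
    _ ≤ |c1 * u1| + |c2 * u2| + |c3 * u3| := by linarith [abs_add_le (c1 * u1) (c2 * u2)]
    _ ≤ _ := by linarith

/-- **The linear relation.** -/
theorem rel3 {H : ℕ} {k : List Bool} (irr : IR H k) (Y : Nd) {x1 x2 x3 y1 y2 y3 : List Bool}
    (k1 : k <+: x1) (k2 : k <+: x2) (k3 : k <+: x3) (s1 : sz x1 ≤ H) (s2 : sz x2 ≤ H) (s3 : sz x3 ≤ H)
    (t1 : sz y1 ≤ H) (t2 : sz y2 ≤ H) (t3 : sz y3 ≤ H)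
    (f1 : FF y1 = FF x1) (f2 : FF y2 = FF x2) (f3 : FF y3 = FF x3) {ε : ℝ}
    (g1 : |FF y1 - ell Y (zz y1)| ≤ ε) (g2 : |FF y2 - ell Y (zz y2)| ≤ ε) (g3 : |FF y3 - ell Y (zz y3)| ≤ ε)
    (hε : 3 * (H : ℝ) ^ 2 * ε ≤ 14 * H ^ 3 * dl (desc root k)) :
    dt (zz y2) (zz y3) • zz x1 + dt (zz y3) (zz y1) • zz x2 + dt (zz y1) (zz y2) • zz x3 = 0 := by
  by_contra hne
  have c1 := dt_H t2 t3
  have c2 := dt_H t3 t1
  have c3 := dt_H t1 t2
  have hH0 : (0 : ℝ) ≤ H := Nat.cast_nonneg H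
  have hdl := dl_pos (valid_root.desc k)
  have nmt : ∀ s t : ℤ × ℤ, nm (s + t) ≤ nm s + nm t := by
    intro s t
    unfold nm
    simp only [Prod.fst_add, Prod.snd_add]
    push_cast
    linarith [abs_add_le (s.1 : ℝ) t.1, abs_add_le (s.2 : ℝ) t.2]
  have nb : ∀ (c : ℤ) (x : List Bool), |(c : ℝ)| ≤ (H : ℝ) ^ 2 → sz x ≤ H → nm (c • zz x) ≤ (H : ℝ) ^ 3 := by
    intro c x hc hx
    rw [nm_smul, nm_zz]
    have hx' : (sz x : ℝ) ≤ H := by exact_mod_cast hx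
    calc |(c : ℝ)| * sz x ≤ (H : ℝ) ^ 2 * H := mul_le_mul hc hx' (Nat.cast_nonneg _) (by positivity)
      _ = (H : ℝ) ^ 3 := by ring
  have hn : nm (dt (zz y2) (zz y3) • zz x1 + dt (zz y3) (zz y1) • zz x2 + dt (zz y1) (zz y2) • zz x3) ≤
      3 * (H : ℝ) ^ 3 := by
    have e1 := nmt (dt (zz y2) (zz y3) • zz x1 + dt (zz y3) (zz y1) • zz x2) (dt (zz y1) (zz y2) • zz x3)
    have e2 := nmt (dt (zz y2) (zz y3) • zz x1) (dt (zz y3) (zz y1) • zz x2)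
    linarith [nb _ x1 c1 s1, nb _ x2 c2 s2, nb _ x3 c3 s3]
  have h1 := irr _ hne hn
  rw [ell_add, ell_add, ell_smul, ell_smul, ell_smul] at h1
  have cl : ∀ x : List Bool, k <+: x → sz x ≤ H → |ell (desc root k) (zz x) - FF x| ≤ 2 * dl (desc root k) * H := by
    intro x hk hx
    have h := F_closed k x (inC_of_prefix hk)
    have hx' : (sz x : ℝ) ≤ H := by exact_mod_cast hx
    have h2 : 2 * dl (desc root k) * sz x ≤ 2 * dl (desc root k) * H := mul_le_mul_of_nonneg_left hx' (by positivity)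
    rw [abs_of_nonneg (by linarith [h.2])]
    linarith [h.1]
  have a1 := abs3' c1 c2 c3 (cl x1 k1 s1) (cl x2 k2 s2) (cl x3 k3 s3)
  have a2 := abs3' c1 c2 c3 g1 g2 g3
  have hs := sum_gap Y f1 f2 f3
  have e : (dt (zz y2) (zz y3) : ℝ) * ell (desc root k) (zz x1) + dt (zz y3) (zz y1) * ell (desc root k) (zz x2) +
      dt (zz y1) (zz y2) * ell (desc root k) (zz x3) =
      ((dt (zz y2) (zz y3) : ℝ) * (ell (desc root k) (zz x1) - FF x1) +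
        dt (zz y3) (zz y1) * (ell (desc root k) (zz x2) - FF x2) +
        dt (zz y1) (zz y2) * (ell (desc root k) (zz x3) - FF x3)) +
      (dt (zz y2) (zz y3) * (FF y1 - ell Y (zz y1)) + dt (zz y3) (zz y1) * (FF y2 - ell Y (zz y2)) +
        dt (zz y1) (zz y2) * (FF y3 - ell Y (zz y3))) := by linarith
  rw [e] at h1
  have h2 := h1.trans_le (abs_add_le _ _)
  have e3 : 3 * ((H : ℝ) ^ 2 * (2 * dl (desc root k) * H)) = 6 * H ^ 3 * dl (desc root k) := by ring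
  rw [e3] at a1
  linarith

/-- The consequence for the second difference: upper bound by the largest gap, and lower bound if one gap dominates. -/
theorem gap3 {H ρ : ℕ} (hH : 1 ≤ H) (hs : (10 : ℝ) ^ 20 * H ^ 20 ≤ 4 ^ ρ) (Y : Nd) {x1 x2 x3 y1 y2 y3 : List Bool}
    (t1 : sz y1 ≤ H) (t2 : sz y2 ≤ H) (t3 : sz y3 ≤ H)
    (f1 : FF y1 = FF x1) (f2 : FF y2 = FF x2) (f3 : FF y3 = FF x3) {v1 v2 v3 : ℝ}
    (g1 : Real.exp (-2 * v1) ≤ FF y1 - ell Y (zz y1) ∧ FF y1 - ell Y (zz y1) ≤ 81 * H * Real.exp (-2 * v1))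
    (g2 : Real.exp (-2 * v2) ≤ FF y2 - ell Y (zz y2) ∧ FF y2 - ell Y (zz y2) ≤ 81 * H * Real.exp (-2 * v2))
    (g3 : Real.exp (-2 * v3) ≤ FF y3 - ell Y (zz y3) ∧ FF y3 - ell Y (zz y3) ≤ 81 * H * Real.exp (-2 * v3))
    (h12 : v1 + ρ ≤ v2) (h13 : v1 + ρ ≤ v3) (hne : dt (zz y2) (zz y3) ≠ 0) :
    Real.exp (-2 * v1) / 2 ≤
      |(dt (zz y2) (zz y3) : ℝ) * FF x1 + dt (zz y3) (zz y1) * FF x2 + dt (zz y1) (zz y2) * FF x3| ∧
    |(dt (zz y2) (zz y3) : ℝ) * FF x1 + dt (zz y3) (zz y1) * FF x2 + dt (zz y1) (zz y2) * FF x3| ≤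
      243 * H ^ 3 * Real.exp (-2 * v1) := by
  rw [sum_gap Y f1 f2 f3]
  have c1 := dt_H t2 t3
  have c2 := dt_H t3 t1
  have c3 := dt_H t1 t2
  have hH1 : (1 : ℝ) ≤ H := by exact_mod_cast hH
  have E1 := Real.exp_pos (-2 * v1)
  have E2 := Real.exp_pos (-2 * v2)
  have E3 := Real.exp_pos (-2 * v3)
  have hexp : Real.exp (-2 * (ρ : ℝ)) ≤ 1 / (10 ^ 20 * H ^ 20) := by
    have e1 : (4 : ℝ) ^ ρ ≤ Real.exp (2 * ρ) := by
      have h4 : (4 : ℝ) ≤ Real.exp 2 := by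
        have := Real.add_one_le_exp (1 : ℝ)
        have h5 : Real.exp 2 = Real.exp 1 * Real.exp 1 := by rw [← Real.exp_add]; norm_num
        nlinarith [Real.exp_pos 1]
      calc (4 : ℝ) ^ ρ ≤ (Real.exp 2) ^ ρ := pow_le_pow_left₀ (by norm_num) h4 _
        _ = Real.exp (2 * ρ) := by rw [← Real.exp_nat_mul]; ring_nf
    rw [show -2 * (ρ : ℝ) = -(2 * ρ) by ring, Real.exp_neg, ← one_div]
    exact one_div_le_one_div_of_le (by positivity) (hs.trans e1)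
  have small : ∀ v : ℝ, v1 + ρ ≤ v → 81 * (H : ℝ) ^ 3 * Real.exp (-2 * v) ≤ Real.exp (-2 * v1) / 4 := by
    intro v hv
    have q1 : Real.exp (-2 * v) ≤ Real.exp (-2 * (ρ : ℝ)) * Real.exp (-2 * v1) := by
      rw [← Real.exp_add]
      exact Real.exp_le_exp.2 (by linarith)
    have q2 : 81 * (H : ℝ) ^ 3 * Real.exp (-2 * (ρ : ℝ)) ≤ 1 / 4 := by
      calc 81 * (H : ℝ) ^ 3 * Real.exp (-2 * (ρ : ℝ)) ≤ 81 * H ^ 3 * (1 / (10 ^ 20 * H ^ 20)) :=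
            mul_le_mul_of_nonneg_left hexp (by positivity)
        _ = 81 * H ^ 3 / (10 ^ 20 * H ^ 20) := by ring
        _ ≤ 1 / 4 := by
            rw [div_le_div_iff₀ (by positivity) (by norm_num)]
            have : (H : ℝ) ^ 3 ≤ H ^ 20 := pow_le_pow_right₀ hH1 (by norm_num)
            nlinarith [show (0 : ℝ) ≤ H ^ 20 by positivity]
    calc 81 * (H : ℝ) ^ 3 * Real.exp (-2 * v) ≤ 81 * H ^ 3 * (Real.exp (-2 * (ρ : ℝ)) * Real.exp (-2 * v1)) :=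
          mul_le_mul_of_nonneg_left q1 (by positivity)
      _ = (81 * H ^ 3 * Real.exp (-2 * (ρ : ℝ))) * Real.exp (-2 * v1) := by ring
      _ ≤ 1 / 4 * Real.exp (-2 * v1) := mul_le_mul_of_nonneg_right q2 E1.le
      _ = _ := by ring
  have e : ∀ (c u v : ℝ), |c| ≤ (H : ℝ) ^ 2 → Real.exp (-2 * v) ≤ u → u ≤ 81 * H * Real.exp (-2 * v) →
      |c * u| ≤ 81 * H ^ 3 * Real.exp (-2 * v) := by
    intro c u v hc hu1 hu2
    have h0 := Real.exp_pos (-2 * v)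
    rw [abs_mul, abs_of_nonneg (show 0 ≤ u by linarith)]
    calc |c| * u ≤ H ^ 2 * (81 * H * Real.exp (-2 * v)) := mul_le_mul hc hu2 (by linarith) (by positivity)
      _ = _ := by ring
  have m1 := e _ _ _ c1 g1.1 g1.2
  have m2 := e _ _ _ c2 g2.1 g2.2
  have m3 := e _ _ _ c3 g3.1 g3.2
  have s2 := small v2 h12
  have s3 := small v3 h13
  have l1 : Real.exp (-2 * v1) ≤ |(dt (zz y2) (zz y3) : ℝ) * (FF y1 - ell Y (zz y1))| := by
    rw [abs_mul, abs_of_nonneg (show 0 ≤ FF y1 - ell Y (zz y1) by linarith [g1.1])]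
    have h1 : (1 : ℝ) ≤ |(dt (zz y2) (zz y3) : ℝ)| := by
      have := Int.one_le_abs hne
      exact_mod_cast this
    calc Real.exp (-2 * v1) ≤ 1 * (FF y1 - ell Y (zz y1)) := by linarith [g1.1]
      _ ≤ _ := mul_le_mul_of_nonneg_right h1 (by linarith [g1.1])
  constructor
  · have t := abs_sub_abs_le_abs_sub
      ((dt (zz y2) (zz y3) : ℝ) * (FF y1 - ell Y (zz y1)) + dt (zz y3) (zz y1) * (FF y2 - ell Y (zz y2)) +
        dt (zz y1) (zz y2) * (FF y3 - ell Y (zz y3)))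
      (dt (zz y3) (zz y1) * (FF y2 - ell Y (zz y2)) + dt (zz y1) (zz y2) * (FF y3 - ell Y (zz y3)))
    have t2 : ((dt (zz y2) (zz y3) : ℝ) * (FF y1 - ell Y (zz y1)) + dt (zz y3) (zz y1) * (FF y2 - ell Y (zz y2)) +
        dt (zz y1) (zz y2) * (FF y3 - ell Y (zz y3))) =
        (dt (zz y2) (zz y3) : ℝ) * (FF y1 - ell Y (zz y1)) +
        (dt (zz y3) (zz y1) * (FF y2 - ell Y (zz y2)) + dt (zz y1) (zz y2) * (FF y3 - ell Y (zz y3))) := by ring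
    rw [t2]
    have t3 := abs_add_le (dt (zz y3) (zz y1) * (FF y2 - ell Y (zz y2))) (dt (zz y1) (zz y2) * (FF y3 - ell Y (zz y3)))
    set A := (dt (zz y2) (zz y3) : ℝ) * (FF y1 - ell Y (zz y1))
    set B := dt (zz y3) (zz y1) * (FF y2 - ell Y (zz y2)) + dt (zz y1) (zz y2) * (FF y3 - ell Y (zz y3))
    have t4 : |A| ≤ |A + B| + |B| := by
      calc |A| = |(A + B) + (-B)| := by ring_nf
        _ ≤ |A + B| + |-B| := abs_add_le _ _
        _ = |A + B| + |B| := by rw [abs_neg]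
    linarith
  · have hE2 : Real.exp (-2 * v2) ≤ Real.exp (-2 * v1) := Real.exp_le_exp.2 (by
      have : (0 : ℝ) ≤ ρ := Nat.cast_nonneg ρ
      linarith)
    have hE3 : Real.exp (-2 * v3) ≤ Real.exp (-2 * v1) := Real.exp_le_exp.2 (by
      have : (0 : ℝ) ≤ ρ := Nat.cast_nonneg ρ
      linarith)
    have n2 : 81 * (H : ℝ) ^ 3 * Real.exp (-2 * v2) ≤ 81 * H ^ 3 * Real.exp (-2 * v1) :=
      mul_le_mul_of_nonneg_left hE2 (by positivity)
    have n3 : 81 * (H : ℝ) ^ 3 * Real.exp (-2 * v3) ≤ 81 * H ^ 3 * Real.exp (-2 * v1) :=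
      mul_le_mul_of_nonneg_left hE3 (by positivity)
    have k1 := abs_add_le ((dt (zz y2) (zz y3) : ℝ) * (FF y1 - ell Y (zz y1)) + dt (zz y3) (zz y1) * (FF y2 - ell Y (zz y2)))
      (dt (zz y1) (zz y2) * (FF y3 - ell Y (zz y3)))
    have k2 := abs_add_le ((dt (zz y2) (zz y3) : ℝ) * (FF y1 - ell Y (zz y1))) (dt (zz y3) (zz y1) * (FF y2 - ell Y (zz y2)))
    linarith

end

end Pool.Agent.N576.MK
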