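import Mathlib
import Pool.Agent.N576.MK.A2

set_option autoImplicit false

/-!
# The level at which a word leaves a long word is the level of its partner
-/

namespace Pool.Agent.N576.MK

open Pool.Agent.H499R2 Pool.Agent.TH880.MK

noncomputable section

/-- the word `x` below the cone `k` with a partner `x'` of level `v` -/
structure Dat (H ρ : ℕ) (k : List Bool) (Y : Nd) (x x' : List Bool) (v : ℝ) : Prop where
  pre : k <+: x
  sx : sz x ≤ H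
  sx' : sz x' ≤ H
  val : FF x' = FF x
  lo : Real.exp (-2 * v) ≤ FF x' - ell Y (zz x')
  up : FF x' - ell Y (zz x') ≤ 81 * H * Real.exp (-2 * v)
  lev : FF k + 2 * ρ ≤ v

lemma exp_rho' {H ρ : ℕ} (hs : (10 : ℝ) ^ 20 * H ^ 20 ≤ 4 ^ ρ) (hH : 1 ≤ H) : 648 * (H : ℝ) ^ 3 < Real.exp ρ := by
  have hH1 : (1 : ℝ) ≤ H := by exact_mod_cast hH
  have e1 : (4 : ℝ) ^ ρ ≤ Real.exp ρ ^ 2 := by
    have h4 : (4 : ℝ) ≤ Real.exp 1 ^ 2 := by
      have := Real.add_one_le_exp (1 : ℝ)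
      nlinarith [Real.exp_pos 1]
    calc (4 : ℝ) ^ ρ ≤ (Real.exp 1 ^ 2) ^ ρ := pow_le_pow_left₀ (by norm_num) h4 _
      _ = Real.exp ρ ^ 2 := by
          rw [← pow_mul, mul_comm, pow_mul, ← Real.exp_nat_mul, mul_one]
  by_contra hcon
  push Not at hcon
  have h1 : Real.exp ρ ^ 2 ≤ (648 * (H : ℝ) ^ 3) ^ 2 := pow_le_pow_left₀ (Real.exp_pos _).le hcon 2
  have h2 : (648 * (H : ℝ) ^ 3) ^ 2 = 419904 * H ^ 6 := by ring
  have h3 : (H : ℝ) ^ 6 ≤ H ^ 20 := pow_le_pow_right₀ hH1 (by norm_num)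
  have h4 : (0 : ℝ) < H ^ 20 := by positivity
  rw [h2] at h1
  have h5 := hs.trans (e1.trans h1)
  nlinarith

lemma dl_lower (k : List Bool) : 24 * Real.exp (-2 * FF k) ≤ dl (desc root k) := by
  have hv := valid_root.desc k
  have h1 := hv.mt.c_ge
  have ha := hv.mt.ha
  have hb := hv.mt.hb
  obtain ⟨-, e2⟩ := exp_FF k
  have hcp := hv.mt.c_one
  have h3 : 4 * (1 / ((desc root k).c : ℝ) ^ 2) ≤ dl (desc root k) := by
    unfold dl
    rw [← mul_div_assoc, mul_one, div_le_div_iff₀ (by positivity) (by positivity)]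
    have h4 : (2 * ((desc root k).a : ℝ) * (desc root k).b) ^ 2 ≤ ((desc root k).c : ℝ) ^ 2 :=
      pow_le_pow_left₀ (by positivity) h1 2
    nlinarith
  have i2 : 1 / (6 * ((desc root k).c : ℝ) ^ 2) = 1 / 6 * (1 / ((desc root k).c : ℝ) ^ 2) := by ring
  linarith

/-- words of different levels are different -/
lemma Dat.ne {H ρ : ℕ} (hH : 1 ≤ H) (hs : (10 : ℝ) ^ 20 * H ^ 20 ≤ 4 ^ ρ) {k : List Bool} {Y : Nd}
    {x1 x1' x2 x2' : List Bool} {v1 v2 : ℝ} (D1 : Dat H ρ k Y x1 x1' v1) (D2 : Dat H ρ k Y x2 x2' v2)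
    (h : v1 + ρ ≤ v2) : x1' ≠ x2' := by
  rintro rfl
  have h1 := D1.lo.trans D2.up
  have h2 := exp_rho hs hH
  have h3 : Real.exp (-2 * v2) ≤ Real.exp (-2 * (ρ : ℝ)) * Real.exp (-2 * v1) := by
    rw [← Real.exp_add]; exact Real.exp_le_exp.2 (by linarith)
  have h4 : 81 * (H : ℝ) * Real.exp (-2 * v2) ≤ 1 / 2 * Real.exp (-2 * v1) := by
    calc 81 * (H : ℝ) * Real.exp (-2 * v2) ≤ 81 * H * (Real.exp (-2 * (ρ : ℝ)) * Real.exp (-2 * v1)) :=
          mul_le_mul_of_nonneg_left h3 (by positivity)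
      _ = (81 * H * Real.exp (-2 * (ρ : ℝ))) * Real.exp (-2 * v1) := by ring
      _ ≤ _ := mul_le_mul_of_nonneg_right h2 (Real.exp_pos _).le
  have h5 := Real.exp_pos (-2 * v1)
  linarith

/-- three words -/
theorem trip {H ρ : ℕ} (hH : 1 ≤ H) (hs : (10 : ℝ) ^ 20 * H ^ 20 ≤ 4 ^ ρ) {k : List Bool} (irr : IR H k) {Y : Nd}
    {x1 x1' x2 x2' x3 x3' : List Bool} {v1 v2 v3 : ℝ} (D1 : Dat H ρ k Y x1 x1' v1) (D2 : Dat H ρ k Y x2 x2' v2)
    (D3 : Dat H ρ k Y x3 x3' v3) (h12 : v1 + ρ ≤ v2) (h13 : v1 + ρ ≤ v3) (hne : x2' ≠ x3')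
    (i12 : Inc x1 x2) (i23 : Inc x2 x3) (i31 : Inc x3 x1) :
    (∀ T, T <+: x1 → T <+: x2 → T <+: x3 → FF T < v1 + ρ / 2) ∧
    (∀ m b, m ++ [b] <+: x1 → m ++ [!b] <+: x2 → v1 - ρ / 2 < FF m) ∧
    (∀ m b, m ++ [b] <+: x2 → m ++ [!b] <+: x3 → v1 - ρ / 2 < FF m) ∧
    (∀ m b, m ++ [b] <+: x3 → m ++ [!b] <+: x1 → v1 - ρ / 2 < FF m) := by
  have hH1 : (1 : ℝ) ≤ H := by exact_mod_cast hH
  have hdl := dl_pos (valid_root.desc k)
  have hρ0 : (0 : ℝ) ≤ ρ := Nat.cast_nonneg ρ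
  have nd : ∀ {s t : List Bool}, s ≠ t → dt (zz s) (zz t) ≠ 0 := fun h h0 => h (dt_zero h0)
  -- the error
  have hgap : ∀ {x x' : List Bool} {v : ℝ}, Dat H ρ k Y x x' v →
      |FF x' - ell Y (zz x')| ≤ 4 * H * dl (desc root k) := by
    intro x x' v D
    have h0 := Real.exp_pos (-2 * v)
    rw [abs_of_nonneg (by linarith [D.lo])]
    refine D.up.trans ?_
    have h1 : Real.exp (-2 * v) ≤ Real.exp (-2 * FF k) := Real.exp_le_exp.2 (by linarith [D.lev])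
    have h2 := dl_lower k
    have h3 : 81 * Real.exp (-2 * v) ≤ 4 * dl (desc root k) := by linarith
    calc 81 * (H : ℝ) * Real.exp (-2 * v) = H * (81 * Real.exp (-2 * v)) := by ring
      _ ≤ H * (4 * dl (desc root k)) := mul_le_mul_of_nonneg_left h3 (by positivity)
      _ = _ := by ring
  have hrel := rel3 irr Y D1.pre D2.pre D3.pre D1.sx D2.sx D3.sx D1.sx' D2.sx' D3.sx' D1.val D2.val D3.val
    (hgap D1) (hgap D2) (hgap D3) (by nlinarith [show (0 : ℝ) ≤ H ^ 3 * dl (desc root k) by positivity])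
  have n1 := nd hne
  have n2 := nd (D1.ne hH hs D3 h13).symm
  have n3 := nd (D1.ne hH hs D2 h12)
  obtain ⟨T1, T2, T3, T4⟩ := tri i12 i23 i31 D1.sx D2.sx D3.sx n1 n2 n3 (dt_H D2.sx' D3.sx') (dt_H D3.sx' D1.sx')
    (dt_H D1.sx' D2.sx') hrel
  obtain ⟨lo, up⟩ := gap3 hH hs Y D1.sx' D2.sx' D3.sx' D1.val D2.val D3.val ⟨D1.lo, D1.up⟩ ⟨D2.lo, D2.up⟩
    ⟨D3.lo, D3.up⟩ h12 h13 n1
  have hr := exp_rho' hs hH
  have low : ∀ F : ℝ, Real.exp (-2 * F) ≤ 243 * H ^ 3 * Real.exp (-2 * v1) → v1 - ρ / 2 < F := by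
    intro F hF
    have h0 := Real.exp_pos (-2 * v1)
    have h1 : 243 * (H : ℝ) ^ 3 * Real.exp (-2 * v1) < Real.exp ρ * Real.exp (-2 * v1) := by
      apply mul_lt_mul_of_pos_right _ h0
      have : (0 : ℝ) < H ^ 3 := by positivity
      linarith
    rw [← Real.exp_add] at h1
    have h2 := Real.exp_lt_exp.1 (hF.trans_lt h1)
    linarith
  refine ⟨?_, fun m b g1 g2 => low _ ((T2 m b g1 g2).trans up), fun m b g1 g2 => low _ ((T3 m b g1 g2).trans up),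
    fun m b g1 g2 => low _ ((T4 m b g1 g2).trans up)⟩
  intro T t1 t2 t3
  have h1 := lo.trans (T1 T t1 t2 t3)
  have h0 := Real.exp_pos (-2 * FF T)
  have h2 : Real.exp (-2 * v1) < Real.exp ρ * Real.exp (-2 * FF T) := by
    calc Real.exp (-2 * v1) ≤ 648 * (H : ℝ) ^ 3 * Real.exp (-2 * FF T) := by linarith
      _ < _ := mul_lt_mul_of_pos_right hr h0
  rw [← Real.exp_add] at h2
  have h3 := Real.exp_lt_exp.1 h2
  linarith

/-- **The level lemma.** -/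
theorem level {H ρ : ℕ} (hH : 1 ≤ H) (hs : (10 : ℝ) ^ 20 * H ^ 20 ≤ 4 ^ ρ) {k : List Bool} (irr : IR H k) {Y : Nd}
    {l l' J J' M M' N N' : List Bool} {v vJ vM vN : ℝ} (Dl : Dat H ρ k Y l l' v) (DJ : Dat H ρ k Y J J' vJ)
    (DM : Dat H ρ k Y M M' vM) (DN : Dat H ρ k Y N N' vN) (h1 : v + ρ ≤ vJ) (h2 : vJ + ρ ≤ vM) (h3 : vJ + ρ ≤ vN)
    (hne : M' ≠ N') (ilJ : Inc l J) (iJN : Inc J N) (iNl : Inc N l) (iJM : Inc J M) (iMN : Inc M N)
    {m : List Bool} {b : Bool} (g1 : m ++ [b] <+: l) (g2 : m ++ [!b] <+: N) :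
    v - ρ / 2 < FF m ∧ FF m < v + ρ / 2 := by
  have hρ0 : (0 : ℝ) ≤ ρ := Nat.cast_nonneg ρ
  obtain ⟨A1, -, -, A4⟩ := trip hH hs irr Dl DJ DN h1 (by linarith) (DJ.ne hH hs DN h3) ilJ iJN iNl
  obtain ⟨-, -, -, B4⟩ := trip hH hs irr DJ DM DN h2 h3 hne iJM iMN iJN.symm
  constructor
  · exact A4 m (!b) g2 (by rw [Bool.not_not]; exact g1)
  · obtain ⟨mJ, c, g3, g4⟩ := diverge J N iJN.1 iJN.2
    have k1 := B4 mJ (!c) g4 (by rw [Bool.not_not]; exact g3)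
    rcases le_total m.length mJ.length with h | h
    · have k2 : m <+: mJ := List.prefix_of_prefix_length_le (pre_left g2) (pre_left g4) h
      exact A1 m (pre_left g1) (k2.trans (pre_left g3)) (pre_left g2)
    · exfalso
      have k2 : mJ <+: m := List.prefix_of_prefix_length_le (pre_left g4) (pre_left g2) h
      have k3 := A1 mJ (k2.trans (pre_left g1)) (pre_left g3) (pre_left g4)
      linarith

end

end Pool.Agent.N576.MK
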