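import Mathlib
import Pool.Agent.N576.MK.A3

set_option autoImplicit false

/-!
# Exceptional words below a fixed cone, all partners far below a path
-/

namespace Pool.Agent.N576.MK

open Pool.Agent.H499R2 Pool.Agent.TH880.MK

noncomputable section

/-- the word has a partner -/
def Exw (l : List Bool) : Prop := ∃ l', l' ≠ l ∧ FF l' = FF l

open scoped Classical in
/-- A class of words in which the size of a set of exceptional words below `k` is bounded by `cb k` times the number of its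
branching nodes below `k`, and in which the total weight of the cones hanging off a path is at most `W`. -/
structure Cls (H S0 : ℕ) (Q : List Bool → Prop) (cb : List Bool → ℝ) (W : ℝ) : Prop where
  pos : ∀ k, 0 ≤ cb k
  comb : ∀ (k : List Bool) (X : Finset (List Bool)), (∀ l ∈ X, Q l ∧ Exw l ∧ sz l ≤ H ∧ k <+: l) →
    (X.card : ℝ) ≤ cb k * ((((Bst X).filter (fun i => k <+: i)).card : ℝ) + 1)
  hang : ∀ P : List Bool, sz P ≤ S0 → ∀ A : Finset (List Bool), (∀ k ∈ A, Hg P k ∧ ∃ l, Q l ∧ k <+: l) →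
    ∑ k ∈ A, cb k ≤ W

lemma PN_unique {H ρ : ℕ} {k k' w : List Bool} (hk : k ∈ PN H ρ) (hk' : k' ∈ PN H ρ) (h : k <+: w) (h' : k' <+: w) :
    k = k' := by
  obtain ⟨-, g1⟩ := mem_PN.mp hk
  obtain ⟨-, g1'⟩ := mem_PN.mp hk'
  rcases le_total k.length k'.length with hl | hl
  · exact g1'.2 k (List.prefix_of_prefix_length_le h h' hl) g1.1
  · exact (g1.2 k' (List.prefix_of_prefix_length_le h' h hl) g1'.1).symm

/-- a pair of cones -/
theorem pair_cb {H ρ S0 : ℕ} (hH : 2 ≤ H) (hs : (10 : ℝ) ^ 20 * H ^ 20 ≤ 4 ^ ρ) {Q : List Bool → Prop}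
    {cb : List Bool → ℝ} {W : ℝ} (C : Cls H S0 Q cb W) {D : ℝ}
    (hD : ∀ N : ℕ, N ≠ 0 → N ≤ H ^ 4 → (N.divisors.card : ℝ) ≤ D) {k k' : List Bool} (hk : k ∈ PN H ρ)
    (hk' : k' ∈ PN H ρ) (X : Finset (List Bool)) (φ : List Bool → List Bool)
    (hX : ∀ l ∈ X, Q l ∧ k <+: l ∧ k' <+: φ l ∧ sz l ≤ H ∧ sz (φ l) ≤ H ∧ φ l ≠ l ∧ FF (φ l) = FF l)
    {κ : List Bool} (hκ : k <+: κ) (hXκ : ∀ l ∈ X, κ <+: l) : (X.card : ℝ) ≤ cb κ * (9 * D + 1) := by
  classical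
  obtain ⟨g1, g2⟩ := mem_PN.mp hk
  obtain ⟨g1', g2'⟩ := mem_PN.mp hk'
  have hb := big_sq g2.1.1
  have hb' := big_sq g2'.1.1
  have hyp : HypL H (4 ^ ρ) k k' (fun l l' => l ∈ X ∧ l' = φ l) := by
    refine ⟨hs, hb.1, hb.2, hb'.1, hb'.2, g2.1.2, g2'.1.2, ?_⟩
    rintro l l' ⟨hl, rfl⟩
    obtain ⟨-, w2, w3, w4, w5, -, w7⟩ := hX l hl
    exact ⟨w2, w3, w4, w5, w7⟩
  have e1 : ∀ l ∈ X, ∃ l', (fun l l' => l ∈ X ∧ l' = φ l) l l' := fun l hl => ⟨φ l, hl, rfl⟩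
  obtain ⟨N, hN0, hN1, hN2⟩ := br_card hH hyp (by
    rintro l l' ⟨h1, h2⟩ h3
    exact (hX l h1).2.2.2.2.2.1 (by rw [← h2, ← h3])) ((Bst X).filter (fun i => k <+: i)) (by
    intro i hi
    rw [Finset.mem_filter] at hi
    exact ⟨hi.2, Br_of_BrF e1 (Bst_br hi.1)⟩)
  have h1 := C.comb κ X (fun l hl => by
    obtain ⟨w1, w2, w3, w4, w5, w6, w7⟩ := hX l hl
    exact ⟨w1, ⟨φ l, w6, w7⟩, w4, hXκ l hl⟩)
  refine h1.trans (mul_le_mul_of_nonneg_left ?_ (C.pos κ))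
  have h2 : ((Bst X).filter (fun i => κ <+: i)).card ≤ ((Bst X).filter (fun i => k <+: i)).card := by
    apply Finset.card_le_card
    intro i hi
    rw [Finset.mem_filter] at hi ⊢
    exact ⟨hi.1, hκ.trans hi.2⟩
  have h3 : (((Bst X).filter (fun i => κ <+: i)).card : ℝ) ≤ 9 * N.divisors.card := by
    exact_mod_cast h2.trans hN2
  have h4 := hD N hN0 hN1
  linarith

/-- the data of a set of words below `k` with partners in the pieces `κp l` hanging off `P'` -/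
structure Set1 (H ρ : ℕ) (Q : List Bool → Prop) (k P' : List Bool) (φ κp : List Bool → List Bool) (l : List Bool) :
    Prop where
  cl : Q l
  pre : k <+: l
  s1 : sz l ≤ H
  s2 : sz (φ l) ≤ H
  ne : φ l ≠ l
  val : FF (φ l) = FF l
  pn : κp l ∈ PN H ρ
  pre' : κp l <+: φ l
  hg : Hg P' (κp l)

open scoped Classical in
/-- a window of levels -/
theorem window_cb {H ρ S0 : ℕ} (hH : 2 ≤ H) (hs : (10 : ℝ) ^ 20 * H ^ 20 ≤ 4 ^ ρ) {Q : List Bool → Prop}
    {cb : List Bool → ℝ} {W : ℝ} (C : Cls H S0 Q cb W) {D : ℝ} (hD0 : 0 ≤ D)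
    (hD : ∀ N : ℕ, N ≠ 0 → N ≤ H ^ 4 → (N.divisors.card : ℝ) ≤ D) {k P' : List Bool} (hk : k ∈ PN H ρ)
    (φ κp : List Bool → List Bool) (V : Finset (List Bool)) (hV : ∀ l ∈ V, Set1 H ρ Q k P' φ κp l) {r x : ℝ}
    (hr : 0 ≤ r) (hw : ∀ l ∈ V, x ≤ FF (κp l).dropLast ∧ FF (κp l).dropLast ≤ x + r) {κ : List Bool} (hκ : k <+: κ)
    (hVκ : ∀ l ∈ V, κ <+: l) : (V.card : ℝ) ≤ (4 * r + 1) * (cb κ * (9 * D + 1)) := by
  have h0 : 0 ≤ cb κ * (9 * D + 1) := mul_nonneg (C.pos κ) (by linarith)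
  have e1 : (V.card : ℝ) = ∑ k' ∈ V.image κp, ((V.filter (fun l => κp l = k')).card : ℝ) := by
    exact_mod_cast Finset.card_eq_sum_card_image κp V
  have e2 : ∀ k' ∈ V.image κp, ((V.filter (fun l => κp l = k')).card : ℝ) ≤ cb κ * (9 * D + 1) := by
    intro k' hk'
    obtain ⟨l0, hl0, rfl⟩ := Finset.mem_image.mp hk'
    refine pair_cb hH hs C hD hk (hV l0 hl0).pn _ φ ?_ hκ (fun l hl => hVκ l (Finset.mem_filter.mp hl).1)
    intro l hl
    rw [Finset.mem_filter] at hl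
    have h := hV l hl.1
    refine ⟨h.cl, h.pre, ?_, h.s1, h.s2, h.ne, h.val⟩
    rw [← hl.2]; exact h.pre'
  have e3 : ((V.image κp).card : ℝ) ≤ 4 * r + 1 := by
    refine le_trans ?_ (hang_window (PN H ρ) P' hr x)
    have : V.image κp ⊆ ((PN H ρ).filter (Hg P')).filter fun k => x ≤ FF k.dropLast ∧ FF k.dropLast ≤ x + r := by
      intro k' hk'
      obtain ⟨l, hl, rfl⟩ := Finset.mem_image.mp hk'
      have h := hV l hl
      rw [Finset.mem_filter, Finset.mem_filter]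
      exact ⟨⟨h.pn, h.hg⟩, hw l hl⟩
    exact_mod_cast Finset.card_le_card this
  calc (V.card : ℝ) = ∑ k' ∈ V.image κp, ((V.filter (fun l => κp l = k')).card : ℝ) := e1
    _ ≤ ∑ k' ∈ V.image κp, cb κ * (9 * D + 1) := Finset.sum_le_sum e2
    _ = (V.image κp).card * (cb κ * (9 * D + 1)) := by rw [Finset.sum_const, nsmul_eq_mul]
    _ ≤ (4 * r + 1) * (cb κ * (9 * D + 1)) := mul_le_mul_of_nonneg_right e3 h0

open scoped Classical in
/-- **A fixed cone.** An antichain of words below `k` with partners in pieces hanging off `P'` far below `k`. -/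
theorem fixed_cone {H ρ S0 : ℕ} (hH : 2 ≤ H) (hρ : 2 ≤ ρ) (hS0 : H ≤ S0) (hs : (10 : ℝ) ^ 20 * H ^ 20 ≤ 4 ^ ρ)
    {Q : List Bool → Prop} {cb : List Bool → ℝ} {W : ℝ} (C : Cls H S0 Q cb W) {D : ℝ} (hD0 : 0 ≤ D)
    (hD : ∀ N : ℕ, N ≠ 0 → N ≤ H ^ 4 → (N.divisors.card : ℝ) ≤ D) {k P' : List Bool} (hk : k ∈ PN H ρ)
    (φ κp : List Bool → List Bool) (U : Finset (List Bool)) (hU : ∀ l ∈ U, Set1 H ρ Q k P' φ κp l)
    (hlev : ∀ l ∈ U, FF k + 2 * ρ ≤ FF (κp l).dropLast) (anti : ∀ l ∈ U, ∀ l2 ∈ U, l <+: l2 → l = l2)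
    (hW : 0 ≤ W) :
    (U.card : ℝ) ≤ (9 * D + 1) * ((8 * ρ + 3) * cb k + (4 * ρ + 1) * W) := by
  have hρ2 : (2 : ℝ) ≤ ρ := by exact_mod_cast hρ
  have hρ0 : (0 : ℝ) ≤ ρ := by linarith
  have hck := C.pos k
  have hD1 : 0 ≤ 9 * D + 1 := by linarith
  obtain ⟨gk, gk2⟩ := mem_PN.mp hk
  obtain ⟨y, hy⟩ : ∃ y : List Bool → ℝ, y = fun l => FF (κp l).dropLast := ⟨_, rfl⟩
  have dat : ∀ l ∈ U, Dat H ρ k (desc root P') l (φ l) (y l) := by
    intro l hl
    have h := hU l hl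
    obtain ⟨q1, q2⟩ := gap_hg h.hg h.pre' h.s2
    rw [hy]
    exact ⟨h.pre, h.s1, h.s2, h.val, q1, q2, hlev l hl⟩
  have inc : ∀ a ∈ U, ∀ b ∈ U, a ≠ b → Inc a b := fun a ha b hb hab =>
    ⟨fun h => hab (anti a ha b hb h), fun h => hab (anti b hb a ha h).symm⟩
  rcases U.eq_empty_or_nonempty with hE | hne
  · rw [hE]; simp only [Finset.card_empty, Nat.cast_zero]; positivity
  obtain ⟨N, hN, hNmax⟩ := Finset.exists_max_image U y hne
  set U0 := U.filter (fun l => κp l = κp N) with hU0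
  set U1 := U.filter (fun l => ¬ κp l = κp N) with hU1
  have c0 : (U0.card : ℝ) ≤ cb k * (9 * D + 1) := by
    refine pair_cb hH hs C hD hk (hU N hN).pn _ φ ?_ (List.prefix_refl k) (fun l hl => (hU l (Finset.mem_filter.mp hl).1).pre)
    intro l hl
    rw [hU0, Finset.mem_filter] at hl
    have h := hU l hl.1
    refine ⟨h.cl, h.pre, ?_, h.s1, h.s2, h.ne, h.val⟩
    rw [← hl.2]; exact h.pre'
  have split0 : (U.card : ℝ) = U0.card + U1.card := by
    have := Finset.card_filter_add_card_filter_not (s := U) (fun l => κp l = κp N)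
    exact_mod_cast this.symm
  have hfin : ∀ a b : ℝ, a ≤ cb k * (9 * D + 1) → b ≤ (9 * D + 1) * ((8 * ρ + 2) * cb k + (4 * ρ + 1) * W) →
      a + b ≤ (9 * D + 1) * ((8 * ρ + 3) * cb k + (4 * ρ + 1) * W) := by
    intro a b ha hb
    have : (9 * D + 1) * ((8 * ρ + 3) * cb k + (4 * ρ + 1) * W) = cb k * (9 * D + 1) +
      (9 * D + 1) * ((8 * ρ + 2) * cb k + (4 * ρ + 1) * W) := by ring
    linarith
  rw [split0]
  apply hfin _ _ c0
  rcases U1.eq_empty_or_nonempty with hE | hne1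
  · rw [hE]; simp only [Finset.card_empty, Nat.cast_zero]; positivity
  obtain ⟨M, hM, hMmax⟩ := Finset.exists_max_image U1 y hne1
  have mem1 : ∀ l ∈ U1, l ∈ U ∧ κp l ≠ κp N := fun l hl => Finset.mem_filter.mp hl
  set U2 := U1.filter (fun l => y l + ρ ≤ y M) with hU2
  have cM : ((U1.filter (fun l => ¬ y l + ρ ≤ y M)).card : ℝ) ≤ (4 * ρ + 1) * (cb k * (9 * D + 1)) := by
    refine window_cb hH hs C hD0 hD hk φ κp _ (fun l hl => hU l (mem1 l (Finset.mem_filter.mp hl).1).1) hρ0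
      (x := y M - ρ) ?_ (List.prefix_refl k) (fun l hl => (hU l (mem1 l (Finset.mem_filter.mp hl).1).1).pre)
    intro l hl
    rw [Finset.mem_filter, not_le] at hl
    have h1 := hMmax l hl.1
    have h2 := hl.2
    rw [hy] at h1 h2 ⊢
    simp only at h1 h2 ⊢
    constructor <;> linarith
  have split1 : (U1.card : ℝ) = U2.card + (U1.filter (fun l => ¬ y l + ρ ≤ y M)).card := by
    have := Finset.card_filter_add_card_filter_not (s := U1) (fun l => y l + ρ ≤ y M)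
    exact_mod_cast this.symm
  have hfin1 : ∀ a b : ℝ, a ≤ (9 * D + 1) * ((4 * ρ + 1) * cb k + (4 * ρ + 1) * W) →
      b ≤ (4 * ρ + 1) * (cb k * (9 * D + 1)) → a + b ≤ (9 * D + 1) * ((8 * ρ + 2) * cb k + (4 * ρ + 1) * W) := by
    intro a b ha hb
    have : (9 * D + 1) * ((8 * ρ + 2) * cb k + (4 * ρ + 1) * W) =
      (9 * D + 1) * ((4 * ρ + 1) * cb k + (4 * ρ + 1) * W) + (4 * ρ + 1) * (cb k * (9 * D + 1)) := by ring
    linarith
  rw [split1]
  apply hfin1 _ _ _ cM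
  rcases U2.eq_empty_or_nonempty with hE | hne2
  · rw [hE]; simp only [Finset.card_empty, Nat.cast_zero]; positivity
  obtain ⟨J, hJ, hJmax⟩ := Finset.exists_max_image U2 y hne2
  have mem2 : ∀ l ∈ U2, l ∈ U1 ∧ y l + ρ ≤ y M := fun l hl => Finset.mem_filter.mp hl
  set U3 := U2.filter (fun l => y l + ρ ≤ y J) with hU3
  have cJ : ((U2.filter (fun l => ¬ y l + ρ ≤ y J)).card : ℝ) ≤ (4 * ρ + 1) * (cb k * (9 * D + 1)) := by
    refine window_cb hH hs C hD0 hD hk φ κp _ (fun l hl => hU l (mem1 l (mem2 l (Finset.mem_filter.mp hl).1).1).1) hρ0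
      (x := y J - ρ) ?_ (List.prefix_refl k)
      (fun l hl => (hU l (mem1 l (mem2 l (Finset.mem_filter.mp hl).1).1).1).pre)
    intro l hl
    rw [Finset.mem_filter, not_le] at hl
    have h1 := hJmax l hl.1
    have h2 := hl.2
    rw [hy] at h1 h2 ⊢
    simp only at h1 h2 ⊢
    constructor <;> linarith
  have split2 : (U2.card : ℝ) = U3.card + (U2.filter (fun l => ¬ y l + ρ ≤ y J)).card := by
    have := Finset.card_filter_add_card_filter_not (s := U2) (fun l => y l + ρ ≤ y J)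
    exact_mod_cast this.symm
  rw [split2]
  have hfin2 : ∀ a b : ℝ, a ≤ (4 * ρ + 1) * (9 * D + 1) * W →
      b ≤ (4 * ρ + 1) * (cb k * (9 * D + 1)) → a + b ≤ (9 * D + 1) * ((4 * ρ + 1) * cb k + (4 * ρ + 1) * W) := by
    intro a b ha hb
    have : (9 * D + 1) * ((4 * ρ + 1) * cb k + (4 * ρ + 1) * W) =
      (4 * ρ + 1) * (9 * D + 1) * W + (4 * ρ + 1) * (cb k * (9 * D + 1)) := by ring
    linarith
  apply hfin2 _ _ _ cJ
  -- the main part
  have mJ := mem2 J hJ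
  have mJ1 := mem1 J mJ.1
  have mM1 := mem1 M hM
  have yNM : y M ≤ y N := hNmax M mM1.1
  have hneMN : φ M ≠ φ N := by
    intro h
    apply mM1.2
    exact PN_unique (hU M mM1.1).pn (hU N hN).pn (hU M mM1.1).pre' (by rw [h]; exact (hU N hN).pre')
  have mem3 : ∀ l ∈ U3, l ∈ U ∧ κp l ≠ κp N ∧ y l + ρ ≤ y J ∧ l ≠ N := by
    intro l hl
    have h1 := Finset.mem_filter.mp hl
    have h2 := mem1 l (mem2 l h1.1).1
    refine ⟨h2.1, h2.2, h1.2, ?_⟩
    rintro rfl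
    exact h2.2 rfl
  have hch : ∀ l ∈ U3, ∃ κ : List Bool, κ <+: l ∧ k <+: κ ∧ Hg N κ ∧ FF κ.dropLast - ρ / 2 ≤ y l ∧
      y l ≤ FF κ.dropLast - ρ / 2 + ρ := by
    intro l hl
    obtain ⟨h1, h2, h3, h4⟩ := mem3 l hl
    have iNl := inc N hN l h1 h4.symm
    obtain ⟨m, b, g1, g2⟩ := diverge l N iNl.2 iNl.1
    have hlJ : l ≠ J := by
      rintro rfl
      linarith
    have hJM : J ≠ M := by
      rintro rfl
      linarith [mJ.2]
    have hJN : J ≠ N := by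
      rintro rfl
      exact mJ1.2 rfl
    have hMN : M ≠ N := by
      rintro rfl
      exact mM1.2 rfl
    have hL := level (by omega) hs gk2.1.2 (dat l h1) (dat J mJ1.1) (dat M mM1.1) (dat N hN) h3 mJ.2
      (mJ.2.trans yNM) hneMN (inc l h1 J mJ1.1 hlJ) (inc J mJ1.1 N hN hJN) iNl (inc J mJ1.1 M mM1.1 hJM)
      (inc M mM1.1 N hN hMN) g1 g2
    refine ⟨m ++ [b], g1, ?_, ⟨m, b, rfl, g2⟩, ?_⟩
    · exact (pre_meet g1 g2 (hU l h1).pre (hU N hN).pre).trans (List.prefix_append _ _)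
    · rw [List.dropLast_concat]
      constructor <;> linarith [hL.1, hL.2]
  choose! κ hκ1 hκ2 hκ3 hκ4 hκ5 using hch
  have e1 : (U3.card : ℝ) = ∑ c ∈ U3.image κ, ((U3.filter (fun l => κ l = c)).card : ℝ) := by
    exact_mod_cast Finset.card_eq_sum_card_image κ U3
  have e2 : ∀ c ∈ U3.image κ, ((U3.filter (fun l => κ l = c)).card : ℝ) ≤ (4 * ρ + 1) * (cb c * (9 * D + 1)) := by
    intro c hc
    obtain ⟨l0, hl0, rfl⟩ := Finset.mem_image.mp hc
    refine window_cb hH hs C hD0 hD hk φ κp _ (fun l hl => hU l (mem3 l (Finset.mem_filter.mp hl).1).1) hρ0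
      (x := FF (κ l0).dropLast - ρ / 2) ?_ (hκ2 l0 hl0) ?_
    · intro l hl
      rw [Finset.mem_filter] at hl
      have q1 := hκ4 l hl.1
      have q2 := hκ5 l hl.1
      rw [hl.2] at q1 q2
      rw [hy] at q1 q2
      exact ⟨q1, q2⟩
    · intro l hl
      rw [Finset.mem_filter] at hl
      rw [← hl.2]; exact hκ1 l hl.1
  have e3 := C.hang N ((hU N hN).s1.trans hS0) (U3.image κ) (by
    intro c hc
    obtain ⟨l, hl, rfl⟩ := Finset.mem_image.mp hc
    exact ⟨hκ3 l hl, l, (hU l (mem3 l hl).1).cl, hκ1 l hl⟩)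
  calc (U3.card : ℝ) = ∑ c ∈ U3.image κ, ((U3.filter (fun l => κ l = c)).card : ℝ) := e1
    _ ≤ ∑ c ∈ U3.image κ, (4 * ρ + 1) * (cb c * (9 * D + 1)) := Finset.sum_le_sum e2
    _ = (4 * ρ + 1) * (9 * D + 1) * ∑ c ∈ U3.image κ, cb c := by
        rw [Finset.mul_sum]
        exact Finset.sum_congr rfl fun c _ => by ring
    _ ≤ (4 * ρ + 1) * (9 * D + 1) * W := mul_le_mul_of_nonneg_left e3 (by positivity)

end

end Pool.Agent.N576.MK
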