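import Mathlib
import Pool.Agent.N576.MK.A4
import Pool.Agent.H609R3.MB.RB
import Pool.Agent.H782R3.MBLine
import Pool.Agent.H253MB.MBChain
import Pool.Agent.H973R3.MBTree
import Pool.Agent.H927R2.MBSum

set_option autoImplicit false

/-!
# Chains of exceptional words
-/

namespace Pool.Agent.N576.MK

open Pool.Agent.H499R2 Pool.Agent.TH880.MK Pool.Agent.H609R3.MB

noncomputable section

theorem chainBound : ChainBound :=
  Pool.Agent.H927R2.MBSum.taskSum
      (Pool.Agent.H609R3.MB.rangeBound Pool.Agent.H973R3.MBTree.taskTree Pool.Agent.H782R3.MBLine.taskLine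
        Pool.Agent.H253MB.taskChain)

lemma Exw_cc {l : List Bool} (h : Exw l) : ∃ l', l' ≠ l ∧ cc l' = cc l := by
  obtain ⟨l', h1, h2⟩ := h
  refine ⟨l', h1, ?_⟩
  have c1 : (1 : ℤ) ≤ (desc root l').c := by
    have := (valid_root.desc l').mt.c_one
    exact_mod_cast this
  have c2 : (1 : ℤ) ≤ (desc root l).c := by
    have := (valid_root.desc l).mt.c_one
    exact_mod_cast this
  exact g_inj c1 c2 h2

/-- a run -/
lemma run_bound {C : ℝ} (hC : ∀ (a : ℤ) (s : ℕ → List Bool), Chain a s → ∀ H : ℝ, 1 ≤ H →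
      ∀ S : Finset ℕ, (∀ n ∈ S, FF (s n) ≤ H ∧ ∃ l, l ≠ s n ∧ cc l = cc (s n)) →
      (S.card : ℝ) ≤ C * (1 + Real.log H) ^ 4) {H : ℕ} (hH : 1 ≤ H) (j : List Bool) (c : Bool)
    (Z : Finset (List Bool)) (hZ : ∀ l ∈ Z, Exw l ∧ sz l ≤ H ∧ ∃ n, l = j ++ List.replicate n c) :
    (Z.card : ℝ) ≤ C * (1 + Real.log (2 * H)) ^ 4 := by
  classical
  have hH1 : (1 : ℝ) ≤ 2 * H := by
    have : (1 : ℝ) ≤ H := by exact_mod_cast hH
    linarith
  obtain ⟨a, hch⟩ : ∃ a, Chain a (fun n => j ++ List.replicate n c) := by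
    cases c
    · exact ⟨_, (Pool.Agent.H253MB.taskChain j).2⟩
    · exact ⟨_, (Pool.Agent.H253MB.taskChain j).1⟩
  have hinj : Set.InjOn (fun l : List Bool => l.length - j.length) (Z : Set (List Bool)) := by
    intro l hl l' hl' he
    obtain ⟨-, -, n, hn⟩ := hZ l hl
    obtain ⟨-, -, n', hn'⟩ := hZ l' hl'
    rw [hn, hn'] at he ⊢
    simp only [List.length_append, List.length_replicate] at he
    have : n = n' := by omega
    rw [this]
  have h := hC a _ hch (2 * H) hH1 (Z.image (fun l : List Bool => l.length - j.length)) (by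
    intro n hn
    obtain ⟨l, hl, rfl⟩ := Finset.mem_image.mp hn
    obtain ⟨h1, h2, n, hn⟩ := hZ l hl
    have e : j ++ List.replicate (l.length - j.length) c = l := by
      rw [hn]
      simp
    simp only [e]
    refine ⟨?_, Exw_cc h1⟩
    have h3 := (FF_size l).2
    have h4 : (sz l : ℝ) ≤ H := by exact_mod_cast h2
    linarith)
  rwa [Finset.card_image_of_injOn hinj] at h

/-- **Chains of exceptional words are short.** -/
theorem chain_short : ∃ C : ℝ, 0 < C ∧ ∀ H : ℕ, 1 ≤ H → ∀ Z : Finset (List Bool),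
    (∀ l ∈ Z, Exw l ∧ sz l ≤ H) → (∀ l ∈ Z, ∀ l' ∈ Z, l <+: l' ∨ l' <+: l) →
    (Z.card : ℝ) ≤ C * (1 + Real.log (2 * H)) ^ 5 := by
  classical
  obtain ⟨C, hC0, hC⟩ := chainBound
  refine ⟨8 * C, by positivity, fun H hH Z hZ hcomp => ?_⟩
  have hHr : (1 : ℝ) ≤ H := by exact_mod_cast hH
  have hlog0 : 0 ≤ Real.log (2 * H) := Real.log_nonneg (by linarith)
  have e1 : (Z.card : ℝ) = ∑ t ∈ Z.image (fun l => Nat.log 2 (sz l)),
      ((Z.filter (fun l => Nat.log 2 (sz l) = t)).card : ℝ) := by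
    exact_mod_cast Finset.card_eq_sum_card_image (fun l => Nat.log 2 (sz l)) Z
  have e2 : ∀ t ∈ Z.image (fun l => Nat.log 2 (sz l)),
      ((Z.filter (fun l => Nat.log 2 (sz l) = t)).card : ℝ) ≤ 2 * (C * (1 + Real.log (2 * H)) ^ 4) := by
    intro t ht
    set V := Z.filter (fun l => Nat.log 2 (sz l) = t) with hV
    have hVm : ∀ l ∈ V, l ∈ Z ∧ Nat.log 2 (sz l) = t := fun l hl => Finset.mem_filter.mp hl
    have hVne : V.Nonempty := by
      obtain ⟨l, hl, h⟩ := Finset.mem_image.mp ht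
      exact ⟨l, Finset.mem_filter.mpr ⟨hl, h⟩⟩
    obtain ⟨j, hj, hmin⟩ := Finset.exists_min_image V (fun l => l.length) hVne
    have hform : ∀ l ∈ V, ∃ c n, l = j ++ List.replicate n c := by
      intro l hl
      have hpre : j <+: l := by
        rcases hcomp j (hVm j hj).1 l (hVm l hl).1 with h | h
        · exact h
        · have := hmin l hl
          rw [h.eq_of_length (le_antisymm h.length_le this)]
      obtain ⟨w, hw⟩ := hpre
      have hszj : 1 ≤ sz j := by have := len_sz j; omega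
      have hszl : 1 ≤ sz l := by have := len_sz l; omega
      have hlt : sz l < 2 * sz j := by
        have h1 := (hVm j hj).2
        have h2 := (hVm l hl).2
        have h3 : sz l < 2 ^ (t + 1) := by
          rw [← h2]; exact Nat.lt_pow_succ_log_self (by norm_num) _
        have h4 : 2 ^ t ≤ sz j := by
          rw [← h1]; exact Nat.pow_log_le_self 2 (by omega)
        have h5 : 2 ^ (t + 1) = 2 * 2 ^ t := by ring
        omega
      have hnot : ¬ (true ∈ w ∧ false ∈ w) := by
        rintro ⟨h1, h2⟩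
        have := sz_double (l := j) h1 h2
        rw [hw] at this
        omega
      by_cases h1 : true ∈ w
      · refine ⟨true, w.length, ?_⟩
        rw [← hw]
        congr 1
        rw [List.eq_replicate_iff]
        refine ⟨rfl, fun b hb => ?_⟩
        cases b
        · exact absurd ⟨h1, hb⟩ hnot
        · rfl
      · refine ⟨false, w.length, ?_⟩
        rw [← hw]
        congr 1
        rw [List.eq_replicate_iff]
        refine ⟨rfl, fun b hb => ?_⟩
        cases b
        · rfl
        · exact absurd hb h1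
    have hsub : V ⊆ V.filter (fun l => ∃ n, l = j ++ List.replicate n true) ∪
        V.filter (fun l => ∃ n, l = j ++ List.replicate n false) := by
      intro l hl
      obtain ⟨c, n, h⟩ := hform l hl
      rw [Finset.mem_union]
      cases c
      · exact Or.inr (Finset.mem_filter.mpr ⟨hl, n, h⟩)
      · exact Or.inl (Finset.mem_filter.mpr ⟨hl, n, h⟩)
    have k1 := run_bound hC hH j true (V.filter (fun l => ∃ n, l = j ++ List.replicate n true)) (by
      intro l hl
      rw [Finset.mem_filter] at hl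
      exact ⟨(hZ l (hVm l hl.1).1).1, (hZ l (hVm l hl.1).1).2, hl.2⟩)
    have k2 := run_bound hC hH j false (V.filter (fun l => ∃ n, l = j ++ List.replicate n false)) (by
      intro l hl
      rw [Finset.mem_filter] at hl
      exact ⟨(hZ l (hVm l hl.1).1).1, (hZ l (hVm l hl.1).1).2, hl.2⟩)
    have k3 : (V.card : ℝ) ≤ (V.filter (fun l => ∃ n, l = j ++ List.replicate n true)).card +
        (V.filter (fun l => ∃ n, l = j ++ List.replicate n false)).card := by
      exact_mod_cast (Finset.card_le_card hsub).trans (Finset.card_union_le _ _)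
    linarith
  have e3 : ((Z.image (fun l => Nat.log 2 (sz l))).card : ℝ) ≤ 4 * (1 + Real.log (2 * H)) := by
    have h1 : Z.image (fun l => Nat.log 2 (sz l)) ⊆ Finset.range (Nat.log 2 H + 1) := by
      intro t ht
      obtain ⟨l, hl, rfl⟩ := Finset.mem_image.mp ht
      rw [Finset.mem_range]
      have := Nat.log_mono_right (b := 2) (hZ l hl).2
      omega
    have h2 := Finset.card_le_card h1
    rw [Finset.card_range] at h2
    have h3 : ((Nat.log 2 H : ℕ) : ℝ) * Real.log 2 ≤ Real.log H := by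
      have h4 : ((2 ^ Nat.log 2 H : ℕ) : ℝ) ≤ H := by exact_mod_cast Nat.pow_log_le_self 2 (by omega)
      have h5 := Real.log_le_log (by positivity) h4
      push_cast at h5
      rwa [Real.log_pow] at h5
    have h6 := Real.log_two_gt_d9
    have h7 : Real.log H ≤ Real.log (2 * H) := Real.log_le_log (by linarith) (by linarith)
    have h8 : (0 : ℝ) ≤ (Nat.log 2 H : ℕ) := Nat.cast_nonneg _
    have h9 : ((Nat.log 2 H : ℕ) : ℝ) ≤ 2 * Real.log (2 * H) := by nlinarith
    have h10 : ((Z.image (fun l => Nat.log 2 (sz l))).card : ℝ) ≤ (Nat.log 2 H : ℕ) + 1 := by exact_mod_cast h2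
    linarith
  have hB0 : 0 ≤ 2 * (C * (1 + Real.log (2 * H)) ^ 4) := by positivity
  calc (Z.card : ℝ) = ∑ t ∈ Z.image (fun l => Nat.log 2 (sz l)),
        ((Z.filter (fun l => Nat.log 2 (sz l) = t)).card : ℝ) := e1
    _ ≤ ∑ t ∈ Z.image (fun l => Nat.log 2 (sz l)), 2 * (C * (1 + Real.log (2 * H)) ^ 4) := Finset.sum_le_sum e2
    _ = (Z.image (fun l => Nat.log 2 (sz l))).card * (2 * (C * (1 + Real.log (2 * H)) ^ 4)) := by
        rw [Finset.sum_const, nsmul_eq_mul]
    _ ≤ 4 * (1 + Real.log (2 * H)) * (2 * (C * (1 + Real.log (2 * H)) ^ 4)) := mul_le_mul_of_nonneg_right e3 hB0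
    _ = 8 * C * (1 + Real.log (2 * H)) ^ 5 := by ring

/-- chains of exceptional words have at most `L` members -/
def ChL (H : ℕ) (L : ℝ) : Prop := ∀ Z : Finset (List Bool),
    (∀ l ∈ Z, Exw l ∧ sz l ≤ H) → (∀ l ∈ Z, ∀ l' ∈ Z, l <+: l' ∨ l' <+: l) → (Z.card : ℝ) ≤ L

/-- decomposition into antichains -/
theorem antichains {H : ℕ} {L : ℝ} (hL : ChL H L) (U : Finset (List Bool)) (hU : ∀ l ∈ U, Exw l ∧ sz l ≤ H) {B : ℝ}
    (hB : ∀ V ⊆ U, (∀ l ∈ V, ∀ l2 ∈ V, l <+: l2 → l = l2) → (V.card : ℝ) ≤ B) :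
    (U.card : ℝ) ≤ (L + 1) * B := by
  classical
  have hL0 : 0 ≤ L := by
    have := hL ∅ (by simp) (by simp)
    simpa using this
  have hB0 : 0 ≤ B := by
    have := hB ∅ (by simp) (by simp)
    simpa using this
  obtain ⟨f, hf⟩ : ∃ f : List Bool → ℕ, f = fun l => (U.filter (fun l2 => l2 <+: l ∧ l2 ≠ l)).card := ⟨_, rfl⟩
  have hfL : ∀ l ∈ U, f l ≤ ⌊L⌋₊ := by
    intro l hl
    apply Nat.le_floor
    rw [hf]
    refine le_trans ?_ (hL (U.filter (fun l2 => l2 <+: l)) (fun x hx => hU x (Finset.mem_filter.mp hx).1) ?_)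
    · have : U.filter (fun l2 => l2 <+: l ∧ l2 ≠ l) ⊆ U.filter (fun l2 => l2 <+: l) := by
        intro x hx
        rw [Finset.mem_filter] at hx ⊢
        exact ⟨hx.1, hx.2.1⟩
      exact_mod_cast Finset.card_le_card this
    · intro a ha b hb
      rw [Finset.mem_filter] at ha hb
      rcases le_total a.length b.length with h | h
      · exact Or.inl (List.prefix_of_prefix_length_le ha.2 hb.2 h)
      · exact Or.inr (List.prefix_of_prefix_length_le hb.2 ha.2 h)
  have e1 : (U.card : ℝ) = ∑ t ∈ Finset.range (⌊L⌋₊ + 1), ((U.filter (fun l => f l = t)).card : ℝ) := by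
    exact_mod_cast Finset.card_eq_sum_card_fiberwise (fun l hl => by
      rw [Finset.coe_range, Set.mem_Iio]
      have := hfL l hl
      omega)
  have e2 : ∀ t ∈ Finset.range (⌊L⌋₊ + 1), ((U.filter (fun l => f l = t)).card : ℝ) ≤ B := by
    intro t _
    apply hB _ (Finset.filter_subset _ _)
    intro l hl l2 hl2 hp
    by_contra hne
    rw [Finset.mem_filter] at hl hl2
    have h1 : f l < f l2 := by
      rw [hf]
      apply Finset.card_lt_card
      rw [Finset.ssubset_iff_of_subset]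
      · refine ⟨l, ?_, ?_⟩
        · rw [Finset.mem_filter]; exact ⟨hl.1, hp, hne⟩
        · rw [Finset.mem_filter]; rintro ⟨-, -, h⟩; exact h rfl
      · intro x hx
        rw [Finset.mem_filter] at hx ⊢
        refine ⟨hx.1, hx.2.1.trans hp, ?_⟩
        rintro rfl
        exact hx.2.2 (hx.2.1.eq_of_length (le_antisymm hx.2.1.length_le hp.length_le))
    omega
  calc (U.card : ℝ) = ∑ t ∈ Finset.range (⌊L⌋₊ + 1), ((U.filter (fun l => f l = t)).card : ℝ) := e1
    _ ≤ ∑ t ∈ Finset.range (⌊L⌋₊ + 1), B := Finset.sum_le_sum e2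
    _ = ((⌊L⌋₊ : ℝ) + 1) * B := by rw [Finset.sum_const, nsmul_eq_mul, Finset.card_range]; push_cast; ring
    _ ≤ (L + 1) * B := mul_le_mul_of_nonneg_right (by linarith [Nat.floor_le hL0]) hB0

end

end Pool.Agent.N576.MK
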