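import Mathlib
import Pool.Agent.N576.MK.A5

set_option autoImplicit false

/-!
# Exceptional words whose pieces and whose partners' pieces hang off two given paths
-/

namespace Pool.Agent.N576.MK

open Pool.Agent.H499R2 Pool.Agent.TH880.MK

noncomputable section

open scoped Classical in
lemma cover_windows {α : Type*} (U : Finset α) (m : α → ℝ) (S : Finset ℝ) (n : ℕ) (hS : S.card ≤ n) {ρ B : ℝ}
    (hB0 : 0 ≤ B) (hcov : ∀ u ∈ U, ∃ μ ∈ S, μ ≤ m u ∧ m u ≤ μ + ρ)
    (hB : ∀ μ, ((U.filter (fun u => μ ≤ m u ∧ m u ≤ μ + ρ)).card : ℝ) ≤ B) : (U.card : ℝ) ≤ n * B := by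
  have h1 : U ⊆ S.biUnion (fun μ => U.filter (fun u => μ ≤ m u ∧ m u ≤ μ + ρ)) := by
    intro u hu
    obtain ⟨μ, hμ, h⟩ := hcov u hu
    rw [Finset.mem_biUnion]
    exact ⟨μ, hμ, Finset.mem_filter.mpr ⟨hu, h⟩⟩
  have h2 : (U.card : ℝ) ≤ ∑ μ ∈ S, ((U.filter (fun u => μ ≤ m u ∧ m u ≤ μ + ρ)).card : ℝ) := by
    exact_mod_cast (Finset.card_le_card h1).trans Finset.card_biUnion_le
  calc (U.card : ℝ) ≤ ∑ μ ∈ S, ((U.filter (fun u => μ ≤ m u ∧ m u ≤ μ + ρ)).card : ℝ) := h2
    _ ≤ ∑ μ ∈ S, B := Finset.sum_le_sum fun μ _ => hB μ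
    _ = S.card * B := by rw [Finset.sum_const, nsmul_eq_mul]
    _ ≤ n * B := mul_le_mul_of_nonneg_right (by exact_mod_cast hS) hB0

/-- the data of a word whose piece hangs off `P` and whose partner's piece hangs off `P'` -/
structure Set2 (H ρ : ℕ) (Q : List Bool → Prop) (P P' : List Bool) (φ κ κp : List Bool → List Bool) (l : List Bool) :
    Prop where
  cl : Q l
  pn0 : κ l ∈ PN H ρ
  pre : κ l <+: l
  hg0 : Hg P (κ l)
  s1 : sz l ≤ H
  s2 : sz (φ l) ≤ H
  ne : φ l ≠ l
  val : FF (φ l) = FF l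
  pn : κp l ∈ PN H ρ
  pre' : κp l <+: φ l
  hg : Hg P' (κp l)

lemma Set2.to1 {H ρ : ℕ} {Q : List Bool → Prop} {P P' : List Bool} {φ κ κp : List Bool → List Bool} {l : List Bool}
    (h : Set2 H ρ Q P P' φ κ κp l) : Set1 H ρ Q (κ l) P' φ κp l :=
  ⟨h.cl, h.pre, h.s1, h.s2, h.ne, h.val, h.pn, h.pre', h.hg⟩

lemma hs_down {H ρ : ℕ} (hs : (10 : ℝ) ^ 20 * ((2 * H : ℕ) : ℝ) ^ 20 ≤ 4 ^ ρ) : (10 : ℝ) ^ 20 * (H : ℝ) ^ 20 ≤ 4 ^ ρ := by
  refine le_trans ?_ hs
  apply mul_le_mul_of_nonneg_left _ (by positivity)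
  apply pow_le_pow_left₀ (Nat.cast_nonneg _)
  push_cast
  have : (0 : ℝ) ≤ H := Nat.cast_nonneg _
  linarith

/-- levels above the cone form few windows -/
lemma no_chain_cone {H ρ : ℕ} (hH : 1 ≤ H) (hs : (10 : ℝ) ^ 20 * ((2 * H : ℕ) : ℝ) ^ 20 ≤ 4 ^ ρ) {Q : List Bool → Prop}
    {k P' : List Bool} {φ κp : List Bool → List Bool} (o : Fin 5 → List Bool)
    (ho : ∀ t, Set1 H ρ Q k P' φ κp (o t) ∧ FF (κp (o t)).dropLast ≤ FF k - ρ)
    (hch : ∀ t t' : Fin 5, t < t' → FF (κp (o t')).dropLast + ρ < FF (κp (o t)).dropLast) : False := by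
  have hs1 := hs_down hs
  have hr := exp_rho hs1 hH
  have hH1 : (1 : ℝ) ≤ H := by exact_mod_cast hH
  have hdl := dl_pos (valid_root.desc k)
  have main : ∀ t, Real.exp (-2 * FF (κp (o t)).dropLast) / 2 ≤
      |ell (desc root k) (zz (o t)) - ell (desc root P') (zz (φ (o t)))| ∧
      |ell (desc root k) (zz (o t)) - ell (desc root P') (zz (φ (o t)))| ≤
        81 * ((2 * H : ℕ) : ℝ) * Real.exp (-2 * FF (κp (o t)).dropLast) := by
    intro t
    obtain ⟨h, h2⟩ := ho t
    obtain ⟨q1, q2⟩ := gap_hg h.hg h.pre' h.s2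
    have q3 := F_closed k (o t) (inC_of_prefix h.pre)
    have hsz : (sz (o t) : ℝ) ≤ H := by exact_mod_cast h.s1
    have q4 : 2 * dl (desc root k) * sz (o t) ≤ 2 * dl (desc root k) * H := mul_le_mul_of_nonneg_left hsz (by positivity)
    have E := Real.exp_pos (-2 * FF (κp (o t)).dropLast)
    have q5 := dl_exp (List.prefix_refl k)
    have q6 : Real.exp (-2 * FF k) ≤ Real.exp (-2 * (ρ : ℝ)) * Real.exp (-2 * FF (κp (o t)).dropLast) := by
      rw [← Real.exp_add]; exact Real.exp_le_exp.2 (by linarith)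
    have q7 : 2 * dl (desc root k) * H ≤ 81 * H * Real.exp (-2 * FF (κp (o t)).dropLast) := by
      calc 2 * dl (desc root k) * H ≤ 2 * (81 * (Real.exp (-2 * (ρ : ℝ)) * Real.exp (-2 * FF (κp (o t)).dropLast))) * H := by
            apply mul_le_mul_of_nonneg_right _ (by positivity)
            linarith
        _ = 2 * (81 * H * Real.exp (-2 * (ρ : ℝ))) * Real.exp (-2 * FF (κp (o t)).dropLast) := by ring
        _ ≤ 2 * (1 / 2) * Real.exp (-2 * FF (κp (o t)).dropLast) := by
            apply mul_le_mul_of_nonneg_right _ E.le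
            linarith
        _ ≤ _ := by
            apply mul_le_mul_of_nonneg_right _ E.le
            linarith
    have e : ell (desc root k) (zz (o t)) - ell (desc root P') (zz (φ (o t))) =
        (ell (desc root k) (zz (o t)) - FF (o t)) + (FF (φ (o t)) - ell (desc root P') (zz (φ (o t)))) := by
      rw [h.val]; ring
    rw [e, abs_of_nonneg (by linarith [q3.2])]
    push_cast
    constructor
    · linarith [q3.2]
    · linarith [q3.1]
  exact no_chain (by omega) hs (desc root k) (desc root P') (fun t => FF (κp (o t)).dropLast) (fun t => zz (o t))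
    (fun t => zz (φ (o t))) (fun t => by rw [nm_zz]; exact_mod_cast (ho t).1.s1.trans (by omega))
    (fun t => by rw [nm_zz]; exact_mod_cast (ho t).1.s2.trans (by omega)) (fun t => (main t).1) (fun t => (main t).2) hch

/-- unbalanced pairs form few windows -/
lemma no_chain_path {H ρ : ℕ} (hH : 1 ≤ H) (hρ : 1 ≤ ρ) (hs : (10 : ℝ) ^ 20 * (H : ℝ) ^ 20 ≤ 4 ^ ρ) {Q : List Bool → Prop}
    {P P' : List Bool} {φ κ κp : List Bool → List Bool} (o : Fin 5 → List Bool)
    (ho : ∀ t, Set2 H ρ Q P P' φ κ κp (o t) ∧ FF (κ (o t)) + 2 * ρ ≤ FF (κp (o t)).dropLast)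
    (hch : ∀ t t' : Fin 5, t < t' → FF (κ (o t')).dropLast + ρ < FF (κ (o t)).dropLast) : False := by
  have hρ0 : (1 : ℝ) ≤ ρ := by exact_mod_cast hρ
  have main : ∀ t, Real.exp (-2 * FF (κ (o t)).dropLast) / 2 ≤
      |ell (desc root P) (zz (o t)) - ell (desc root P') (zz (φ (o t)))| ∧
      |ell (desc root P) (zz (o t)) - ell (desc root P') (zz (φ (o t)))| ≤
        81 * (H : ℝ) * Real.exp (-2 * FF (κ (o t)).dropLast) := by
    intro t
    obtain ⟨h, h2⟩ := ho t
    have g1 := gap_hg h.hg0 h.pre h.s1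
    have g2 := gap_hg h.hg h.pre' h.s2
    have h3 : FF (κ (o t)).dropLast ≤ FF (κ (o t)) := FF_mono (List.dropLast_prefix _)
    have h4 : FF (κ (o t)).dropLast + 2 * ρ ≤ FF (κp (o t)).dropLast := by linarith
    have g3 := two_gaps hs hH g1.1 g1.2 g2.1 g2.2 (by
      rw [abs_of_nonpos (by linarith)]; linarith)
    rw [min_eq_left (by linarith)] at g3
    have e : (FF (o t) - ell (desc root P) (zz (o t))) - (FF (φ (o t)) - ell (desc root P') (zz (φ (o t)))) =
        -(ell (desc root P) (zz (o t)) - ell (desc root P') (zz (φ (o t)))) := by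
      rw [h.val]; ring
    rw [e, abs_neg] at g3
    exact g3
  exact no_chain hH hs (desc root P) (desc root P') (fun t => FF (κ (o t)).dropLast) (fun t => zz (o t))
    (fun t => zz (φ (o t))) (fun t => by rw [nm_zz]; exact_mod_cast (ho t).1.s1)
    (fun t => by rw [nm_zz]; exact_mod_cast (ho t).1.s2) (fun t => (main t).1) (fun t => (main t).2) hch

open scoped Classical in
/-- **Two paths.** -/
theorem two_paths {H ρ S0 : ℕ} (hH : 2 ≤ H) (hρ : 2 ≤ ρ) (hS0 : H ≤ S0)
    (hs : (10 : ℝ) ^ 20 * ((2 * H : ℕ) : ℝ) ^ 20 ≤ 4 ^ ρ)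
    {Q : List Bool → Prop} {cb : List Bool → ℝ} {W : ℝ} (C : Cls H S0 Q cb W) {D : ℝ} (hD0 : 0 ≤ D)
    (hD : ∀ N : ℕ, N ≠ 0 → N ≤ H ^ 4 → (N.divisors.card : ℝ) ≤ D) {L : ℝ} (hL : ChL H L)
    {P P' : List Bool} (hP : sz P ≤ S0) (φ κ κp : List Bool → List Bool) (S : Finset (List Bool))
    (hS : ∀ l ∈ S, Set2 H ρ Q P P' φ κ κp l) :
    (S.card : ℝ) ≤ (9 * D + 1) * W * ((28 * ρ + 5) + (16 * ρ + 4) * (L + 1) * (12 * ρ + 4)) := by
  have hs1 := hs_down hs
  have hρ2 : (2 : ℝ) ≤ ρ := by exact_mod_cast hρ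
  have hρ0 : (0 : ℝ) ≤ ρ := by linarith
  have hD1 : 0 ≤ 9 * D + 1 := by linarith
  have hL0 : 0 ≤ L := by
    have := hL ∅ (by simp) (by simp)
    simpa using this
  have hW : 0 ≤ W := by
    have := C.hang P hP ∅ (by simp)
    simpa using this
  obtain ⟨y, hy⟩ : ∃ y : List Bool → ℝ, y = fun l => FF (κp l).dropLast := ⟨_, rfl⟩
  -- the pieces in the first coordinate
  have hang : ∀ A : Finset (List Bool), A ⊆ S.image κ → ∑ k ∈ A, cb k ≤ W := by
    intro A hA
    apply C.hang P hP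
    intro k hk
    obtain ⟨l, hl, rfl⟩ := Finset.mem_image.mp (hA hk)
    have h := hS l hl
    exact ⟨h.hg0, l, h.cl, h.pre⟩
  have hcb1 : ∀ k ∈ S.image κ, cb k ≤ W := by
    intro k hk
    have := hang {k} (Finset.singleton_subset_iff.mpr hk)
    simpa using this
  -- the three parts
  set SA := S.filter (fun l => y l ≤ FF (κ l) - ρ) with hSA
  set SR := S.filter (fun l => ¬ y l ≤ FF (κ l) - ρ) with hSR
  set SC := SR.filter (fun l => FF (κ l) + 2 * ρ ≤ y l) with hSC
  set SB := SR.filter (fun l => ¬ FF (κ l) + 2 * ρ ≤ y l) with hSB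
  have spl1 : (S.card : ℝ) = SA.card + SR.card := by
    have := Finset.card_filter_add_card_filter_not (s := S) (fun l => y l ≤ FF (κ l) - ρ)
    exact_mod_cast this.symm
  have spl2 : (SR.card : ℝ) = SC.card + SB.card := by
    have h : SC.card + SB.card = SR.card :=
      Finset.card_filter_add_card_filter_not (s := SR) (fun l => FF (κ l) + 2 * ρ ≤ y l)
    rw [← h]; push_cast; rfl
  have mA : ∀ l ∈ SA, l ∈ S ∧ y l ≤ FF (κ l) - ρ := fun l hl => Finset.mem_filter.mp hl
  have mR : ∀ l ∈ SR, l ∈ S ∧ ¬ y l ≤ FF (κ l) - ρ := fun l hl => Finset.mem_filter.mp hl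
  have mC : ∀ l ∈ SC, l ∈ S ∧ FF (κ l) + 2 * ρ ≤ y l := fun l hl =>
    ⟨(mR l (Finset.mem_filter.mp hl).1).1, (Finset.mem_filter.mp hl).2⟩
  have mB : ∀ l ∈ SB, l ∈ S ∧ FF (κ l) - ρ < y l ∧ y l < FF (κ l) + 2 * ρ := fun l hl =>
    ⟨(mR l (Finset.mem_filter.mp hl).1).1, not_le.mp (mR l (Finset.mem_filter.mp hl).1).2,
      not_le.mp (Finset.mem_filter.mp hl).2⟩
  -- summation over the pieces
  have sumk : ∀ (V : Finset (List Bool)) (c : ℝ), V ⊆ S → 0 ≤ c →
      (∀ k ∈ V.image κ, ((V.filter (fun l => κ l = k)).card : ℝ) ≤ c * (cb k * (9 * D + 1))) →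
      (V.card : ℝ) ≤ c * (9 * D + 1) * W := by
    intro V c hV hc h
    have e1 : (V.card : ℝ) = ∑ k ∈ V.image κ, ((V.filter (fun l => κ l = k)).card : ℝ) := by
      exact_mod_cast Finset.card_eq_sum_card_image κ V
    calc (V.card : ℝ) = ∑ k ∈ V.image κ, ((V.filter (fun l => κ l = k)).card : ℝ) := e1
      _ ≤ ∑ k ∈ V.image κ, c * (cb k * (9 * D + 1)) := Finset.sum_le_sum h
      _ = c * (9 * D + 1) * ∑ k ∈ V.image κ, cb k := by
          rw [Finset.mul_sum]
          exact Finset.sum_congr rfl fun k _ => by ring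
      _ ≤ c * (9 * D + 1) * W := mul_le_mul_of_nonneg_left (hang _ (Finset.image_subset_image hV)) (by positivity)
  -- part A
  have cA : (SA.card : ℝ) ≤ (16 * ρ + 4) * (9 * D + 1) * W := by
    refine sumk SA _ (Finset.filter_subset _ _) (by positivity) ?_
    intro k hk
    obtain ⟨l0, hl0, hk0⟩ := Finset.mem_image.mp hk
    have hkPN : k ∈ PN H ρ := by rw [← hk0]; exact (hS l0 (mA l0 hl0).1).pn0
    have hcbk := C.pos k
    set V := SA.filter (fun l => κ l = k) with hV
    have hVm : ∀ l ∈ V, Set1 H ρ Q k P' φ κp l ∧ FF (κp l).dropLast ≤ FF k - ρ := by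
      intro l hl
      have h1 := Finset.mem_filter.mp hl
      have h2 := mA l h1.1
      have h3 := (hS l h2.1).to1
      have h4 := h2.2
      rw [h1.2] at h3 h4
      rw [hy] at h4
      exact ⟨h3, h4⟩
    rcases windows (fun l => FF (κp l).dropLast) hρ0 4 V with ⟨o, ho, hch⟩ | ⟨T, hT, hcov⟩
    · exact (no_chain_cone (by omega) hs o (fun t => hVm _ (ho t)) hch).elim
    · have := cover_windows V (fun l => FF (κp l).dropLast) T 4 hT (ρ := ρ) (B := (4 * ρ + 1) * (cb k * (9 * D + 1)))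
        (by positivity) hcov (fun μ => by
          refine window_cb hH hs1 C hD0 hD hkPN φ κp _ (fun l hl => (hVm l (Finset.mem_filter.mp hl).1).1) hρ0
            (x := μ) (fun l hl => (Finset.mem_filter.mp hl).2) (List.prefix_refl k)
            (fun l hl => (hVm l (Finset.mem_filter.mp hl).1).1.pre))
      refine this.trans (le_of_eq ?_)
      push_cast
      ring
  -- part B
  have cB : (SB.card : ℝ) ≤ (12 * ρ + 1) * (9 * D + 1) * W := by
    refine sumk SB _ ((Finset.filter_subset _ _).trans (Finset.filter_subset _ _)) (by positivity) ?_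
    intro k hk
    obtain ⟨l0, hl0, hk0⟩ := Finset.mem_image.mp hk
    have hkPN : k ∈ PN H ρ := by rw [← hk0]; exact (hS l0 (mB l0 hl0).1).pn0
    have hVm : ∀ l ∈ SB.filter (fun l => κ l = k), Set1 H ρ Q k P' φ κp l ∧ FF k - ρ ≤ FF (κp l).dropLast ∧
        FF (κp l).dropLast ≤ FF k - ρ + 3 * ρ := by
      intro l hl
      have h1 := Finset.mem_filter.mp hl
      have h2 := mB l h1.1
      have h3 := (hS l h2.1).to1
      have h4 := h2.2
      rw [h1.2] at h3 h4
      rw [hy] at h4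
      exact ⟨h3, h4.1.le, by linarith [h4.2]⟩
    have := window_cb hH hs1 C hD0 hD hkPN φ κp _ (fun l hl => (hVm l hl).1) (r := 3 * ρ) (by positivity)
      (x := FF k - ρ) (fun l hl => (hVm l hl).2) (List.prefix_refl k) (fun l hl => (hVm l hl).1.pre)
    refine this.trans (le_of_eq ?_)
    ring
  -- part C
  have cC : (SC.card : ℝ) ≤ (16 * ρ + 4) * ((L + 1) * ((9 * D + 1) * ((12 * ρ + 4) * W))) := by
    rcases windows (fun l => FF (κ l).dropLast) hρ0 4 SC with ⟨o, ho, hch⟩ | ⟨T, hT, hcov⟩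
    · refine (no_chain_path (by omega) (by omega) hs1 (P := P) (P' := P') (Q := Q) (φ := φ) (κ := κ) (κp := κp) o
        (fun t => ?_) hch).elim
      have h1 := mC _ (ho t)
      refine ⟨hS _ h1.1, ?_⟩
      have := h1.2
      rw [hy] at this
      exact this
    · have := cover_windows SC (fun l => FF (κ l).dropLast) T 4 hT (ρ := ρ)
        (B := (4 * ρ + 1) * ((L + 1) * ((9 * D + 1) * ((12 * ρ + 4) * W))))
        (by positivity) hcov (fun μ => by
          set V := SC.filter (fun l => μ ≤ FF (κ l).dropLast ∧ FF (κ l).dropLast ≤ μ + ρ) with hV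
          have hVm : ∀ l ∈ V, l ∈ SC ∧ μ ≤ FF (κ l).dropLast ∧ FF (κ l).dropLast ≤ μ + ρ :=
            fun l hl => Finset.mem_filter.mp hl
          have e1 : (V.card : ℝ) = ∑ k ∈ V.image κ, ((V.filter (fun l => κ l = k)).card : ℝ) := by
            exact_mod_cast Finset.card_eq_sum_card_image κ V
          have e2 : ∀ k ∈ V.image κ, ((V.filter (fun l => κ l = k)).card : ℝ) ≤
              (L + 1) * ((9 * D + 1) * ((12 * ρ + 4) * W)) := by
            intro k hk
            obtain ⟨l0, hl0, hk0⟩ := Finset.mem_image.mp hk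
            have hl0S := (mC l0 (hVm l0 hl0).1).1
            have hkPN : k ∈ PN H ρ := by rw [← hk0]; exact (hS l0 hl0S).pn0
            have hkI : k ∈ S.image κ := by rw [← hk0]; exact Finset.mem_image_of_mem κ hl0S
            have hV2 : ∀ l ∈ V.filter (fun l => κ l = k), Set1 H ρ Q k P' φ κp l ∧
                FF k + 2 * ρ ≤ FF (κp l).dropLast := by
              intro l hl
              have h1 := Finset.mem_filter.mp hl
              have h2 := mC l (hVm l h1.1).1
              have h3 := (hS l h2.1).to1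
              have h4 := h2.2
              rw [h1.2] at h3 h4
              rw [hy] at h4
              exact ⟨h3, h4⟩
            refine antichains hL _ (fun l hl => ⟨⟨φ l, (hV2 l hl).1.ne, (hV2 l hl).1.val⟩, (hV2 l hl).1.s1⟩) ?_
            intro V' hV' hanti
            have := fixed_cone hH hρ hS0 hs1 C hD0 hD hkPN φ κp V' (fun l hl => (hV2 l (hV' hl)).1)
              (fun l hl => (hV2 l (hV' hl)).2) hanti hW
            refine this.trans (mul_le_mul_of_nonneg_left ?_ hD1)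
            have h5 := hcb1 k hkI
            have h6 : (8 * (ρ : ℝ) + 3) * cb k ≤ (8 * ρ + 3) * W := mul_le_mul_of_nonneg_left h5 (by positivity)
            linarith
          have e3 : ((V.image κ).card : ℝ) ≤ 4 * ρ + 1 := by
            refine le_trans ?_ (hang_window (PN H ρ) P hρ0 μ)
            have : V.image κ ⊆ ((PN H ρ).filter (Hg P)).filter fun k => μ ≤ FF k.dropLast ∧ FF k.dropLast ≤ μ + ρ := by
              intro k hk
              obtain ⟨l, hl, rfl⟩ := Finset.mem_image.mp hk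
              have h := hS l (mC l (hVm l hl).1).1
              rw [Finset.mem_filter, Finset.mem_filter]
              exact ⟨⟨h.pn0, h.hg0⟩, (hVm l hl).2⟩
            exact_mod_cast Finset.card_le_card this
          have hB0 : 0 ≤ (L + 1) * ((9 * D + 1) * ((12 * ρ + 4) * W)) := by positivity
          calc (V.card : ℝ) = ∑ k ∈ V.image κ, ((V.filter (fun l => κ l = k)).card : ℝ) := e1
            _ ≤ ∑ k ∈ V.image κ, (L + 1) * ((9 * D + 1) * ((12 * ρ + 4) * W)) := Finset.sum_le_sum e2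
            _ = (V.image κ).card * ((L + 1) * ((9 * D + 1) * ((12 * ρ + 4) * W))) := by
                rw [Finset.sum_const, nsmul_eq_mul]
            _ ≤ _ := mul_le_mul_of_nonneg_right e3 hB0)
      refine this.trans (le_of_eq ?_)
      push_cast
      ring
  rw [spl1, spl2]
  have : (9 * D + 1) * W * ((28 * ρ + 5) + (16 * ρ + 4) * (L + 1) * (12 * ρ + 4)) =
      (16 * ρ + 4) * (9 * D + 1) * W + ((16 * ρ + 4) * ((L + 1) * ((9 * D + 1) * ((12 * ρ + 4) * W))) +
        (12 * ρ + 1) * (9 * D + 1) * W) := by ring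
  rw [this]
  linarith

end

end Pool.Agent.N576.MK
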