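import Mathlib
import Pool.Agent.N576.MK.A6

set_option autoImplicit false

/-!
# The number of exceptional words of a class
-/

namespace Pool.Agent.N576.MK

open Pool.Agent.H499R2 Pool.Agent.TH880.MK

noncomputable section

open scoped Classical in
/-- exceptional words outside all pieces -/
theorem BWx_card {H ρ : ℕ} (hρ : 2 ≤ ρ) (hH : 1 ≤ H) (hs : (10 : ℝ) ^ 20 * H ^ 20 ≤ 4 ^ ρ) {L : ℝ} (hL : ChL H L) :
    (((BW H ρ).filter Exw).card : ℝ) ≤ (10 * ρ ^ 2 + 4) * L := by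
  have hL0 : 0 ≤ L := by
    have := hL ∅ (by simp) (by simp)
    simpa using this
  obtain ⟨B, hBd⟩ : ∃ B, B = (BW H ρ).filter Exw := ⟨_, rfl⟩
  rw [← hBd]
  have hmem : ∀ l ∈ B, l ∈ BW H ρ ∧ Exw l ∧ sz l ≤ H := by
    intro l hl
    rw [hBd, Finset.mem_filter] at hl
    exact ⟨hl.1, hl.2, (mem_BW.mp hl.1).1⟩
  have hcover : B ⊆ (Path1 H ρ).biUnion (fun P => B.filter (fun l => l <+: P)) ∪
      (MR H ρ).biUnion (fun k => B.filter (fun l => k <+: l)) := by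
    intro l hl
    obtain ⟨hl1, hl2⟩ := mem_BW.mp (hmem l hl).1
    rw [Finset.mem_union]
    by_cases hB : Big ρ l
    · right
      obtain ⟨k0, hk0, hm⟩ := Mn_exists ρ l hB
      rw [Finset.mem_biUnion]
      refine ⟨k0, mem_MR.mpr ⟨(sz_prefix hk0).trans hl1, hm, ?_⟩, Finset.mem_filter.mpr ⟨hl, hk0⟩⟩
      intro h
      exact BW_noGI (hmem l hl).1 hk0 ⟨hm.1, h⟩
    · left
      obtain ⟨P, hP, h⟩ := nonBig_path hB hl1
      rw [Finset.mem_biUnion]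
      exact ⟨P, hP, Finset.mem_filter.mpr ⟨hl, h⟩⟩
  have h1 : (B.card : ℝ) ≤ ((Path1 H ρ).biUnion (fun P => B.filter (fun l => l <+: P))).card +
      ((MR H ρ).biUnion (fun k => B.filter (fun l => k <+: l))).card := by
    exact_mod_cast (Finset.card_le_card hcover).trans (Finset.card_union_le _ _)
  have h2 : (((MR H ρ).biUnion (fun k => B.filter (fun l => k <+: l))).card : ℝ) ≤ (MR H ρ).card * L := by
    calc (((MR H ρ).biUnion (fun k => B.filter (fun l => k <+: l))).card : ℝ)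
        ≤ ∑ k ∈ MR H ρ, ((B.filter (fun l => k <+: l)).card : ℝ) := by exact_mod_cast Finset.card_biUnion_le
      _ ≤ ∑ k ∈ MR H ρ, L := by
          refine Finset.sum_le_sum fun k hk => hL _ (fun l hl => (hmem l (Finset.mem_filter.mp hl).1).2) ?_
          obtain ⟨-, hm, -⟩ := mem_MR.mp hk
          intro l hl l' hl'
          rw [Finset.mem_filter] at hl hl'
          exact BW_chain hH hs hm.1 (hmem l hl.1).1 (hmem l' hl'.1).1 hl.2 hl'.2
      _ = (MR H ρ).card * L := by rw [Finset.sum_const, nsmul_eq_mul]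
  have h3 : (((Path1 H ρ).biUnion (fun P => B.filter (fun l => l <+: P))).card : ℝ) ≤ (Path1 H ρ).card * L := by
    calc (((Path1 H ρ).biUnion (fun P => B.filter (fun l => l <+: P))).card : ℝ)
        ≤ ∑ P ∈ Path1 H ρ, ((B.filter (fun l => l <+: P)).card : ℝ) := by exact_mod_cast Finset.card_biUnion_le
      _ ≤ ∑ P ∈ Path1 H ρ, L := by
          refine Finset.sum_le_sum fun P _ => hL _ (fun l hl => (hmem l (Finset.mem_filter.mp hl).1).2) ?_
          intro l hl l' hl'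
          rw [Finset.mem_filter] at hl hl'
          rcases le_total l.length l'.length with h | h
          · exact Or.inl (List.prefix_of_prefix_length_le hl.2 hl'.2 h)
          · exact Or.inr (List.prefix_of_prefix_length_le hl'.2 hl.2 h)
      _ = (Path1 H ρ).card * L := by rw [Finset.sum_const, nsmul_eq_mul]
  have h5 : ((MR H ρ).card : ℝ) ≤ 9 * ρ ^ 2 + 2 := by exact_mod_cast MR_card hρ hH hs
  have h6 : ((Path1 H ρ).card : ℝ) ≤ ρ ^ 2 + 2 := by exact_mod_cast Path1_card H ρ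
  have h7 := mul_le_mul_of_nonneg_right h5 hL0
  have h8 := mul_le_mul_of_nonneg_right h6 hL0
  linarith

open scoped Classical in
/-- **The number of exceptional words of a class.** -/
theorem count_class {H ρ S0 : ℕ} (hH : 2 ≤ H) (hρ : 2 ≤ ρ) (hS0 : 2 * ρ * (H + 2) ≤ S0)
    (hs : (10 : ℝ) ^ 20 * ((2 * H : ℕ) : ℝ) ^ 20 ≤ 4 ^ ρ)
    {Q : List Bool → Prop} {cb : List Bool → ℝ} {W : ℝ} (C : Cls H S0 Q cb W) {D : ℝ} (hD0 : 0 ≤ D)
    (hD : ∀ N : ℕ, N ≠ 0 → N ≤ H ^ 4 → (N.divisors.card : ℝ) ≤ D) {L : ℝ} (hL : ChL H L)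
    (Z : Finset (List Bool)) (hZ : ∀ l ∈ Z, Q l ∧ sz l ≤ H ∧ ∃ l', sz l' ≤ H ∧ l' ≠ l ∧ FF l' = FF l) :
    (Z.card : ℝ) ≤ (19 * ρ ^ 2 + 6) ^ 2 * ((9 * D + 1) * W * ((28 * ρ + 5) + (16 * ρ + 4) * (L + 1) * (12 * ρ + 4))) +
      2 * ((10 * ρ ^ 2 + 4) * L) := by
  have hs1 := hs_down hs
  have hL0 : 0 ≤ L := by
    have := hL ∅ (by simp) (by simp)
    simpa using this
  have hW : 0 ≤ W := by
    have := C.hang [] (by
      have : sz ([] : List Bool) = 2 := rfl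
      rw [this]; nlinarith) ∅ (by simp)
    simpa using this
  set Bd := BW H ρ with hBd
  set Z0 := Z.filter (fun l => l ∈ Bd) with hZ0
  set ZR := Z.filter (fun l => ¬ l ∈ Bd) with hZR
  set Z1 := ZR.filter (fun l => ∃ l', sz l' ≤ H ∧ l' ∉ Bd ∧ l' ≠ l ∧ FF l' = FF l) with hZ1
  set Z2 := ZR.filter (fun l => ¬ ∃ l', sz l' ≤ H ∧ l' ∉ Bd ∧ l' ≠ l ∧ FF l' = FF l) with hZ2
  have spl1 : (Z.card : ℝ) = Z0.card + ZR.card := by
    have h : Z0.card + ZR.card = Z.card := Finset.card_filter_add_card_filter_not (s := Z) (fun l => l ∈ Bd)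
    rw [← h]; push_cast; rfl
  have spl2 : (ZR.card : ℝ) = Z1.card + Z2.card := by
    have h : Z1.card + Z2.card = ZR.card := Finset.card_filter_add_card_filter_not (s := ZR)
      (fun l => ∃ l', sz l' ≤ H ∧ l' ∉ Bd ∧ l' ≠ l ∧ FF l' = FF l)
    rw [← h]; push_cast; rfl
  have hBx := BWx_card hρ (by omega) hs1 hL
  have c0 : (Z0.card : ℝ) ≤ (10 * ρ ^ 2 + 4) * L := by
    refine le_trans ?_ hBx
    have : Z0 ⊆ (BW H ρ).filter Exw := by
      intro l hl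
      have h := Finset.mem_filter.mp hl
      obtain ⟨-, -, l', -, h2, h3⟩ := hZ l h.1
      exact Finset.mem_filter.mpr ⟨h.2, l', h2, h3⟩
    exact_mod_cast Finset.card_le_card this
  have mR : ∀ l ∈ ZR, l ∈ Z ∧ l ∉ Bd := fun l hl => Finset.mem_filter.mp hl
  have m2 : ∀ l ∈ Z2, l ∈ ZR ∧ ¬ ∃ l', sz l' ≤ H ∧ l' ∉ Bd ∧ l' ≠ l ∧ FF l' = FF l :=
    fun l hl => Finset.mem_filter.mp hl
  have c2 : (Z2.card : ℝ) ≤ (10 * ρ ^ 2 + 4) * L := by
    refine le_trans ?_ hBx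
    have hch : ∀ l ∈ Z2, ∃ l', l' ∈ Bd ∧ l' ≠ l ∧ FF l' = FF l := by
      intro l hl
      obtain ⟨h1, h2⟩ := m2 l hl
      obtain ⟨-, -, l', h3, h4, h5⟩ := hZ l (mR l h1).1
      refine ⟨l', ?_, h4, h5⟩
      by_contra hb
      exact h2 ⟨l', h3, hb, h4, h5⟩
    choose! ψ hψ1 hψ2 hψ3 using hch
    have : Z2.card ≤ ((BW H ρ).filter Exw).card := by
      apply Finset.card_le_card_of_injOn ψ
      · intro l hl
        exact Finset.mem_filter.mpr ⟨hψ1 l hl, l, (hψ2 l hl).symm, (hψ3 l hl).symm⟩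
      · intro a ha b hb hab
        by_contra hne
        have hfa := hψ3 a ha
        have hfb := hψ3 b hb
        have ha' := m2 a ha
        have hb' := m2 b hb
        apply ha'.2
        exact ⟨b, (hZ b (mR b hb'.1).1).2.1, (mR b hb'.1).2, Ne.symm hne, by rw [← hfb, ← hab, hfa]⟩
    exact_mod_cast this
  -- the main part
  have m1 : ∀ l ∈ Z1, (Q l ∧ sz l ≤ H) ∧ l ∉ Bd ∧ ∃ l', sz l' ≤ H ∧ l' ∉ Bd ∧ l' ≠ l ∧ FF l' = FF l := by
    intro l hl
    have h := Finset.mem_filter.mp hl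
    have h2 := mR l h.1
    exact ⟨⟨(hZ l h2.1).1, (hZ l h2.1).2.1⟩, h2.2, h.2⟩
  have hch : ∀ l ∈ Z1, ∃ l', sz l' ≤ H ∧ l' ∉ Bd ∧ l' ≠ l ∧ FF l' = FF l := fun l hl => (m1 l hl).2.2
  choose! φ hφ1 hφ2 hφ3 hφ4 using hch
  have hK : ∀ l, sz l ≤ H → l ∉ Bd → ∃ k, k ∈ PN H ρ ∧ k <+: l := by
    intro l h1 h2
    by_contra hno
    exact h2 (mem_BW.mpr ⟨h1, hno⟩)
  choose! K hK1 hK2 using hK
  have hPth : ∀ k, k ∈ PN H ρ → ∃ P ∈ Paths H ρ, Hg P k := fun k hk => PN_cover hρ (by omega) hs1 hk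
  choose! Pt hPt1 hPt2 using hPth
  have f1 : ∀ l ∈ Z1, K l ∈ PN H ρ ∧ K l <+: l := fun l hl => ⟨hK1 l (m1 l hl).1.2 (m1 l hl).2.1, hK2 l (m1 l hl).1.2 (m1 l hl).2.1⟩
  have f2 : ∀ l ∈ Z1, K (φ l) ∈ PN H ρ ∧ K (φ l) <+: φ l := fun l hl =>
    ⟨hK1 _ (hφ1 l hl) (hφ2 l hl), hK2 _ (hφ1 l hl) (hφ2 l hl)⟩
  obtain ⟨B, hB⟩ : ∃ B : ℝ, B = (9 * D + 1) * W * ((28 * ρ + 5) + (16 * ρ + 4) * (L + 1) * (12 * ρ + 4)) := ⟨_, rfl⟩
  have hB0 : 0 ≤ B := by rw [hB]; positivity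
  rw [← hB]
  have c1 : (Z1.card : ℝ) ≤ (19 * ρ ^ 2 + 6) ^ 2 * B := by
    have e1 : (Z1.card : ℝ) = ∑ pp ∈ Paths H ρ ×ˢ Paths H ρ,
        ((Z1.filter (fun l => (Pt (K l), Pt (K (φ l))) = pp)).card : ℝ) := by
      exact_mod_cast Finset.card_eq_sum_card_fiberwise (fun l hl => by
        rw [Finset.coe_product, Set.mem_prod]
        exact ⟨hPt1 _ (f1 l hl).1, hPt1 _ (f2 l hl).1⟩)
    have e2 : ∀ pp ∈ Paths H ρ ×ˢ Paths H ρ,
        ((Z1.filter (fun l => (Pt (K l), Pt (K (φ l))) = pp)).card : ℝ) ≤ B := by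
      rintro ⟨P, P'⟩ hpp
      rw [Finset.mem_product] at hpp
      rw [hB]
      refine two_paths hH hρ (by nlinarith) hs C hD0 hD hL ((Paths_sz (by omega) hH hpp.1).trans hS0) φ K
        (fun l => K (φ l)) (P := P) (P' := P') _ ?_
      intro l hl
      have h := Finset.mem_filter.mp hl
      have ep : Pt (K l) = P := congrArg Prod.fst h.2
      have ep' : Pt (K (φ l)) = P' := congrArg Prod.snd h.2
      refine ⟨(m1 l h.1).1.1, (f1 l h.1).1, (f1 l h.1).2, ?_, (m1 l h.1).1.2, hφ1 l h.1, hφ3 l h.1, hφ4 l h.1,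
        (f2 l h.1).1, (f2 l h.1).2, ?_⟩
      · rw [← ep]; exact hPt2 _ (f1 l h.1).1
      · rw [← ep']; exact hPt2 _ (f2 l h.1).1
    calc (Z1.card : ℝ) = _ := e1
      _ ≤ ∑ pp ∈ Paths H ρ ×ˢ Paths H ρ, B := Finset.sum_le_sum e2
      _ = ((Paths H ρ).card : ℝ) ^ 2 * B := by
          rw [Finset.sum_const, nsmul_eq_mul, Finset.card_product]
          push_cast; ring
      _ ≤ _ := by
          apply mul_le_mul_of_nonneg_right _ hB0
          have h2 : ((Paths H ρ).card : ℝ) ≤ 19 * ρ ^ 2 + 6 := by exact_mod_cast Paths_card hρ (by omega) hs1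
          exact pow_le_pow_left₀ (by positivity) h2 2
  rw [spl1, spl2]
  linarith

end

end Pool.Agent.N576.MK
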