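import Mathlib
import Pool.Agent.N576.MK.A7

set_option autoImplicit false

/-!
# Two classes: words with short runs, and words with a small first or second region
-/

namespace Pool.Agent.N576.MK

open Pool.Agent.H499R2 Pool.Agent.TH880.MK

noncomputable section

lemma cnt_eq (X : Finset (List Bool)) (k : List Bool) : cnt X k = ((open scoped Classical in X.filter (fun i => k <+: i)).card) := by
  classical
  unfold cnt
  congr

/-- a cone hanging off a path is not much larger than the path -/
lemma Hg_sz {P k : List Bool} (h : Hg P k) : sz k ≤ 2 * sz P := by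
  obtain ⟨R, b, rfl, h2⟩ := h
  have h1 := (sz_child R b).2
  have h3 := sz_prefix ((List.prefix_append R [!b]).trans h2)
  omega

/-- **Words with short runs.** -/
theorem cls_runs {H S0 K : ℕ} (hS0 : H ≤ S0) :
    Cls H S0 (Rn K) (fun _ => 4 * ((((K + 1) * Nat.log 2 (2 * S0) : ℕ) : ℝ) + 1))
      (4 * ((((K + 1) * Nat.log 2 (2 * S0) : ℕ) : ℝ) + 1) ^ 2) := by
  classical
  obtain ⟨n0, hn0⟩ : ∃ n0, n0 = (K + 1) * Nat.log 2 (2 * S0) := ⟨_, rfl⟩
  rw [← hn0]
  refine ⟨fun _ => by positivity, fun k X hX => ?_, fun P hP A hA => ?_⟩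
  · have hlen : ∀ l ∈ X, l.length ≤ n0 := by
      intro l hl
      obtain ⟨h1, -, h2, -⟩ := hX l hl
      have := len_bound h1 (h2.trans (show H ≤ 2 * S0 by omega))
      rw [hn0]; exact this
    have h1 := chain_indL X n0 hlen n0 k (by omega)
    have h2 : cnt X k = X.card := by
      unfold cnt; rw [Finset.filter_true_of_mem (fun l hl => (hX l hl).2.2.2)]
    rw [h2, cnt_eq] at h1
    have h3 : (X.card : ℝ) ≤ 2 * (2 * ((Bst X).filter (fun i => k <+: i)).card + 1) * (n0 + 1) := by exact_mod_cast h1
    refine h3.trans ?_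
    have h4 : (0 : ℝ) ≤ ((Bst X).filter (fun i => k <+: i)).card := Nat.cast_nonneg _
    have h5 : (0 : ℝ) ≤ n0 := Nat.cast_nonneg _
    nlinarith [mul_nonneg h4 h5]
  · rw [Finset.sum_const, nsmul_eq_mul]
    have h1 : A.card ≤ n0 + 1 := by
      apply card_of_length
      · intro k hk
        obtain ⟨h1, l, h2, h3⟩ := hA k hk
        have := len_bound (Rn_prefix h3 h2) ((Hg_sz h1).trans (Nat.mul_le_mul_left 2 hP))
        rw [hn0]; exact this
      · intro k hk k' hk' he
        exact Hg_len (hA k hk).1 (hA k' hk').1 he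
    have h2 : (A.card : ℝ) ≤ n0 + 1 := by exact_mod_cast h1
    calc (A.card : ℝ) * (4 * ((n0 : ℝ) + 1)) ≤ (n0 + 1) * (4 * ((n0 : ℝ) + 1)) :=
          mul_le_mul_of_nonneg_right h2 (by positivity)
      _ = _ := by ring

/-- words with a small region: beyond a large node they form a run -/
lemma thin_run {q0 : ℕ} {e l : List Bool} (he : 2 * q0 < sz e) (h : e <+: l) (hl : mm l ≤ q0) :
    ∃ n, l = e ++ List.replicate n (decide ((desc root e).p ≤ q0)) := by
  obtain ⟨w, rfl⟩ := h
  have hpq := pq_prefix (List.prefix_append e w)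
  have hs := sz_pq e
  refine ⟨w.length, ?_⟩
  congr 1
  rw [List.eq_replicate_iff]
  refine ⟨rfl, fun b hb => ?_⟩
  by_contra hne
  obtain ⟨w1, w2, rfl⟩ := List.append_of_mem hb
  have h1 := pq_prefix (List.prefix_append e w1)
  have h2 : e ++ w1 ++ [b] <+: e ++ (w1 ++ b :: w2) := ⟨w2, by simp⟩
  have h3 := pq_prefix h2
  rw [desc_snoc] at h3
  unfold mm at hl
  by_cases hp : (desc root e).p ≤ q0
  · have hb : b = false := by
      simp only [hp, decide_true] at hne
      simpa using hne
    subst hb
    have e1 : (step (desc root (e ++ w1)) false).p = (desc root (e ++ w1)).p + (desc root (e ++ w1)).q := rfl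
    have e2 : (step (desc root (e ++ w1)) false).q = (desc root (e ++ w1)).q := rfl
    rw [e1, e2] at h3
    omega
  · have hb : b = true := by
      simp only [hp, decide_false] at hne
      simpa using hne
    subst hb
    have e1 : (step (desc root (e ++ w1)) true).p = (desc root (e ++ w1)).p := rfl
    have e2 : (step (desc root (e ++ w1)) true).q = (desc root (e ++ w1)).p + (desc root (e ++ w1)).q := rfl
    rw [e1, e2] at h3
    have hq : (desc root e).q ≤ q0 ∨ q0 < (desc root e).q := le_or_gt _ _
    rcases hq with hq | hq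
    · omega
    · omega

/-- the first large prefix of a word (the word itself if it is small) -/
lemma first_large {q : ℕ} (hq : 2 ≤ q) (l : List Bool) : ∃ e, e <+: l ∧ (e = l ∨ q < sz e) ∧
    (∀ k, k <+: l → sz k ≤ q → k <+: e) ∧ sz e ≤ 2 * q := by
  induction l using List.reverseRecOn with
  | nil =>
    refine ⟨[], List.prefix_refl _, Or.inl rfl, fun k hk _ => hk, ?_⟩
    have e1 : sz ([] : List Bool) = 2 := rfl
    omega
  | append_singleton l b ih =>
    by_cases hl : sz l ≤ q
    · refine ⟨l ++ [b], List.prefix_refl _, Or.inl rfl, fun k hk _ => hk, ?_⟩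
      have := (sz_child l b).2
      omega
    · obtain ⟨e, h1, h2, h3, h4⟩ := ih
      refine ⟨e, h1.trans (List.prefix_append _ _), Or.inr ?_, ?_, h4⟩
      · rcases h2 with rfl | h2
        · omega
        · exact h2
      · intro k hk hks
        rcases List.prefix_concat_iff.mp hk with h | h
        · exfalso
          rw [h] at hks
          have := (sz_child l b).1
          omega
        · exact h3 k h hks

/-- **Words with a small region.** -/
theorem cls_thin {H S0 q0 : ℕ} {L : ℝ} (hL : ChL H L) (hq0 : 1 ≤ q0) (hS0 : 2 ≤ S0) :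
    Cls H S0 (fun l => mm l ≤ q0) (fun k => 4 * (L + 1) * (4 * q0 / mm k + 1)) (80 * (L + 1) * q0 * Real.log S0) := by
  classical
  have hL0 : 0 ≤ L := by
    have := hL ∅ (by simp) (by simp)
    simpa using this
  have hmm : ∀ k, (0 : ℝ) < mm k := fun k => by exact_mod_cast mm_pos k
  refine ⟨fun k => by have := hmm k; positivity, fun k X hX => ?_, fun P hP A hA => ?_⟩
  · -- combs
    have hmk := hmm k
    set b := ((Bst X).filter (fun i => k <+: i)).card with hb
    have hb0 : (0 : ℝ) ≤ b := Nat.cast_nonneg _
    -- chains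
    have hrun : ∀ (e : List Bool) (V : Finset (List Bool)), V ⊆ X → 2 * q0 < sz e → (∀ l ∈ V, e <+: l) →
        (V.card : ℝ) ≤ L := by
      intro e V hV he hVe
      apply hL V (fun l hl => ⟨(hX l (hV hl)).2.1, (hX l (hV hl)).2.2.1⟩)
      intro l hl l' hl'
      obtain ⟨n, h1⟩ := thin_run he (hVe l hl) (hX l (hV hl)).1
      obtain ⟨n', h2⟩ := thin_run he (hVe l' hl') (hX l' (hV hl')).1
      rw [h1, h2]
      rcases le_total n n' with h | h
      · left
        refine ⟨List.replicate (n' - n) (decide ((desc root e).p ≤ q0)), ?_⟩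
        rw [List.append_assoc, ← List.replicate_add]
        congr 2
        omega
      · right
        refine ⟨List.replicate (n - n') (decide ((desc root e).p ≤ q0)), ?_⟩
        rw [List.append_assoc, ← List.replicate_add]
        congr 2
        omega
    rcases X.eq_empty_or_nonempty with hE | ⟨l0, hl0⟩
    · rw [hE]; simp only [Finset.card_empty, Nat.cast_zero]; positivity
    by_cases hk : 2 * q0 < sz k
    · refine (hrun k X (Finset.Subset.refl _) hk (fun l hl => (hX l hl).2.2.2)).trans ?_
      have h1 : (0 : ℝ) ≤ 4 * q0 / mm k := by positivity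
      have h2 : L + 1 ≤ 4 * (L + 1) * (4 * q0 / mm k + 1) := by nlinarith
      nlinarith [mul_nonneg (show (0 : ℝ) ≤ 4 * (L + 1) * (4 * q0 / mm k + 1) by positivity) hb0]
    · push Not at hk
      have hfl : ∀ l : List Bool, ∃ e, e <+: l ∧ (e = l ∨ 2 * q0 < sz e) ∧
        (∀ k, k <+: l → sz k ≤ 2 * q0 → k <+: e) ∧ sz e ≤ 2 * (2 * q0) := fun l => first_large (by omega) l
      choose e he1 he2 he3 he4 using hfl
      have e1 : (X.card : ℝ) = ∑ t ∈ X.image e, ((X.filter (fun l => e l = t)).card : ℝ) := by
        exact_mod_cast Finset.card_eq_sum_card_image e X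
      have e2 : ∀ t ∈ X.image e, ((X.filter (fun l => e l = t)).card : ℝ) ≤ L + 1 := by
        intro t _
        by_cases ht : 2 * q0 < sz t
        · have := hrun t (X.filter (fun l => e l = t)) (Finset.filter_subset _ _) ht (by
            intro l hl
            rw [Finset.mem_filter] at hl
            rw [← hl.2]; exact he1 l)
          linarith
        · have h1 : (X.filter (fun l => e l = t)).card ≤ 1 := by
            rw [Finset.card_le_one]
            intro a ha c hc
            rw [Finset.mem_filter] at ha hc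
            have ka : e a = a := by
              rcases he2 a with h | h
              · exact h
              · rw [ha.2] at h; exact absurd h ht
            have kc : e c = c := by
              rcases he2 c with h | h
              · exact h
              · rw [hc.2] at h; exact absurd h ht
            rw [← ka, ← kc, ha.2, hc.2]
          have h2 : ((X.filter (fun l => e l = t)).card : ℝ) ≤ 1 := by exact_mod_cast h1
          linarith
      have e3 : (X.card : ℝ) ≤ (X.image e).card * (L + 1) := by
        calc (X.card : ℝ) = _ := e1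
          _ ≤ ∑ t ∈ X.image e, (L + 1) := Finset.sum_le_sum e2
          _ = _ := by rw [Finset.sum_const, nsmul_eq_mul]
      -- the image
      have hch := chain_card (X.image e) (2 * (2 * q0)) (mm k) (mm_pos k) (by
        intro t ht
        obtain ⟨l, -, rfl⟩ := Finset.mem_image.mp ht
        exact he4 l) k (by
        intro t ht
        obtain ⟨l, hl, rfl⟩ := Finset.mem_image.mp ht
        exact he3 l k (hX l hl).2.2.2 hk) (by unfold mm; omega) (by unfold mm; omega)
      have hcnt : ∀ i, cnt (X.image e) i ≤ cnt X i := by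
        intro i
        unfold cnt
        have h1 : (X.image e).filter (fun l => i <+: l) ⊆ (X.filter (fun l => i <+: l)).image e := by
          intro t ht
          rw [Finset.mem_filter] at ht
          obtain ⟨l, hl, rfl⟩ := Finset.mem_image.mp ht.1
          exact Finset.mem_image.mpr ⟨l, Finset.mem_filter.mpr ⟨hl, ht.2.trans (he1 l)⟩, rfl⟩
        exact (Finset.card_le_card h1).trans Finset.card_image_le
      have hB : cnt (Bst (X.image e)) k ≤ b := by
        rw [hb]
        unfold cnt
        apply Finset.card_le_card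
        intro i hi
        rw [Finset.mem_filter] at hi ⊢
        refine ⟨mem_Bst ?_, hi.2⟩
        obtain ⟨h1, h2⟩ := Bst_br hi.1
        exact ⟨h1.trans (hcnt _), h2.trans (hcnt _)⟩
      have h1 : ((X.image e).card : ℝ) ≤ 2 * (2 * cnt (Bst (X.image e)) k + 1) * (((2 * (2 * q0)) / mm k : ℕ) + 1) := by
        exact_mod_cast hch
      have h2 : (((2 * (2 * q0)) / mm k : ℕ) : ℝ) ≤ 4 * q0 / mm k := by
        refine (Nat.cast_div_le).trans (le_of_eq ?_)
        push_cast; ring
      have h3 : ((cnt (Bst (X.image e)) k : ℕ) : ℝ) ≤ b := by exact_mod_cast hB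
      have h0 : (0 : ℝ) ≤ 4 * q0 / mm k := by positivity
      have h4 : ((X.image e).card : ℝ) ≤ 4 * (b + 1) * (4 * q0 / mm k + 1) := by
        refine h1.trans ?_
        have h5 : (2 : ℝ) * (2 * cnt (Bst (X.image e)) k + 1) ≤ 4 * (b + 1) := by linarith
        exact mul_le_mul h5 (by linarith) (by positivity) (by positivity)
      calc (X.card : ℝ) ≤ (X.image e).card * (L + 1) := e3
        _ ≤ (4 * (b + 1) * (4 * q0 / mm k + 1)) * (L + 1) := mul_le_mul_of_nonneg_right h4 (by linarith)
        _ = _ := by ring
  · -- the weight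
    have h1 : ∀ k ∈ A, 4 * (L + 1) * (4 * q0 / mm k + 1) ≤ 20 * (L + 1) * q0 * (1 / mm k) := by
      intro k hk
      obtain ⟨-, l, h2, h3⟩ := hA k hk
      have h4 := pq_prefix h3
      have h5 : mm k ≤ q0 := by unfold mm at h2 ⊢; omega
      have h6 : (mm k : ℝ) ≤ q0 := by exact_mod_cast h5
      have h7 := hmm k
      have h8 : (1 : ℝ) ≤ q0 / mm k := by rw [one_le_div h7]; exact h6
      have h9 : 4 * (q0 : ℝ) / mm k = 4 * (q0 / mm k) := by ring
      calc 4 * (L + 1) * (4 * q0 / mm k + 1) ≤ 4 * (L + 1) * (5 * (q0 / mm k)) := by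
            apply mul_le_mul_of_nonneg_left _ (by positivity)
            rw [h9]; linarith
        _ = _ := by ring
    have h2 := hang_weight A P
    have h3 : A.filter (Hg P) = A := Finset.filter_true_of_mem (fun k hk => (hA k hk).1)
    rw [h3] at h2
    have hlog : ∀ n : ℕ, 1 ≤ n → n ≤ S0 → Real.log n ≤ Real.log S0 := fun n h1 h2 =>
      Real.log_le_log (by exact_mod_cast h1) (by exact_mod_cast h2)
    have hv := valid_root.desc P
    have hsz := sz_pq P
    have l1 := hlog _ hv.p1 (by have := hv.q1; omega)
    have l2 := hlog _ hv.q1 (by have := hv.p1; omega)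
    calc ∑ k ∈ A, 4 * (L + 1) * (4 * q0 / mm k + 1) ≤ ∑ k ∈ A, 20 * (L + 1) * q0 * (1 / mm k) := Finset.sum_le_sum h1
      _ = 20 * (L + 1) * q0 * ∑ k ∈ A, (1 : ℝ) / mm k := by rw [Finset.mul_sum]
      _ ≤ 20 * (L + 1) * q0 * (4 * Real.log S0) := by
          apply mul_le_mul_of_nonneg_left _ (by positivity)
          linarith
      _ = _ := by ring

end

end Pool.Agent.N576.MK
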