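import Mathlib
import Pool.Agent.N576.MK.A8

set_option autoImplicit false

/-!
# The numerical part
-/

namespace Pool.Agent.N576.MK

open Pool.Agent.H499R2 Pool.Agent.TH880.MK

noncomputable section

/-- `2 + log (2 H)` -/
def lm (H : ℕ) : ℝ := 2 + Real.log (2 * H)

/-- the threshold -/
def rh (H : ℕ) : ℕ := ⌈40 * lm H⌉₊

/-- the size of the paths -/
def s0 (H : ℕ) : ℕ := 2 * rh H * (H + 2)

lemma lm_two {H : ℕ} (hH : 1 ≤ H) : 2 ≤ lm H := by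
  have hH1 : (1 : ℝ) ≤ H := by exact_mod_cast hH
  have := Real.log_nonneg (show (1 : ℝ) ≤ 2 * H by linarith)
  unfold lm; linarith

lemma rh_facts {H : ℕ} (hH : 2 ≤ H) : (10 : ℝ) ^ 20 * ((2 * H : ℕ) : ℝ) ^ 20 ≤ 4 ^ (rh H) ∧ (rh H : ℝ) ≤ 41 * lm H ∧
    2 ≤ rh H ∧ H ≤ s0 H ∧ 2 ≤ s0 H ∧ Real.log (s0 H) ≤ 3 * lm H ∧
    ((Nat.log 2 (2 * s0 H) : ℕ) : ℝ) ≤ 6 * lm H := by
  have hl := lm_two (show 1 ≤ H by omega)
  have hH2 : (2 : ℝ) ≤ H := by exact_mod_cast hH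
  have hlog0 : 0 ≤ Real.log (2 * H) := Real.log_nonneg (by linarith)
  have h1 : 40 * lm H ≤ rh H := Nat.le_ceil _
  have h2 : (rh H : ℝ) < 40 * lm H + 1 := Nat.ceil_lt_add_one (by linarith)
  have h3 : (rh H : ℝ) ≤ 41 * lm H := by linarith
  have h4 : 2 ≤ rh H := by
    have : (2 : ℝ) ≤ rh H := by linarith
    exact_mod_cast this
  have hl2 : lm H ≤ 1 + 2 * H := by
    have := Real.log_le_sub_one_of_pos (show (0 : ℝ) < 2 * H by linarith)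
    unfold lm; linarith
  have h5 : (s0 H : ℝ) ≤ 328 * (2 * H) ^ 2 := by
    unfold s0
    push_cast
    have e1 : (rh H : ℝ) ≤ 82 * (2 * H) := by nlinarith
    calc 2 * (rh H : ℝ) * (H + 2) ≤ 2 * (82 * (2 * H)) * (2 * H) :=
          mul_le_mul (by linarith) (by linarith) (by linarith) (by positivity)
      _ ≤ 328 * (2 * H) ^ 2 := by nlinarith
  have h6 : H ≤ s0 H := by
    unfold s0
    nlinarith
  have h7 : (1 : ℝ) ≤ s0 H := by exact_mod_cast (show 1 ≤ s0 H by omega)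
  have h8 : Real.log (s0 H) ≤ 3 * lm H := by
    have e1 := Real.log_le_log (by linarith) h5
    rw [Real.log_mul (by norm_num) (by positivity), Real.log_pow] at e1
    have e2 : Real.log 328 ≤ 6 := by
      rw [Real.log_le_iff_le_exp (by norm_num)]
      have h1 := Real.exp_one_gt_d9
      have h2 : Real.exp 6 = Real.exp 1 ^ 6 := by rw [← Real.exp_nat_mul]; norm_num
      rw [h2]
      calc (328 : ℝ) ≤ 2.7 ^ 6 := by norm_num
        _ ≤ Real.exp 1 ^ 6 := pow_le_pow_left₀ (by norm_num) (by linarith) 6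
    unfold lm
    push_cast at e1
    linarith
  refine ⟨?_, h3, h4, h6, by omega, h8, ?_⟩
  · have e1 : Real.exp (40 * lm H) ≤ (4 : ℝ) ^ (rh H) := by
      have hlog4 : (1 : ℝ) ≤ Real.log 4 := by
        rw [Real.le_log_iff_exp_le (by norm_num)]
        have := Real.exp_one_lt_d9
        linarith
      rw [← Real.rpow_natCast, Real.rpow_def_of_pos (by norm_num)]
      apply Real.exp_le_exp.2
      calc 40 * lm H ≤ 1 * rh H := by linarith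
        _ ≤ Real.log 4 * rh H := mul_le_mul_of_nonneg_right hlog4 (Nat.cast_nonneg _)
    refine le_trans ?_ e1
    have e2 : ((2 * H : ℕ) : ℝ) ^ 20 = Real.exp (20 * Real.log (2 * H)) := by
      rw [show (20 : ℝ) * Real.log (2 * H) = ((20 : ℕ) : ℝ) * Real.log (2 * H) by norm_num, Real.exp_nat_mul,
        Real.exp_log (by positivity)]
      push_cast; rfl
    rw [e2]
    calc (10 : ℝ) ^ 20 * Real.exp (20 * Real.log (2 * H)) ≤ Real.exp 80 * Real.exp (20 * Real.log (2 * H)) :=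
          mul_le_mul_of_nonneg_right exp80 (Real.exp_pos _).le
      _ = Real.exp (80 + 20 * Real.log (2 * H)) := (Real.exp_add _ _).symm
      _ ≤ Real.exp (40 * lm H) := Real.exp_le_exp.2 (by unfold lm; linarith)
  · have e1 : ((2 ^ Nat.log 2 (2 * s0 H) : ℕ) : ℝ) ≤ ((2 * s0 H : ℕ) : ℝ) := by
      exact_mod_cast Nat.pow_log_le_self 2 (by omega)
    have e2 := Real.log_le_log (by positivity) e1
    push_cast at e2
    rw [Real.log_pow, Real.log_mul (by norm_num) (by linarith)] at e2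
    have e3 := Real.log_two_gt_d9
    have e4 := Real.log_two_lt_d9
    have e5 : (0 : ℝ) ≤ (Nat.log 2 (2 * s0 H) : ℕ) := Nat.cast_nonneg _
    nlinarith

/-- **The number of exceptional words of a class.** -/
theorem count_num : ∃ C : ℝ, 0 < C ∧ ∃ L0 : ℝ, 0 < L0 ∧ (∀ H : ℕ, 2 ≤ H → ChL H (L0 * lm H ^ 5)) ∧
    ∀ H : ℕ, 2 ≤ H → ∀ D : ℝ, 0 ≤ D → (∀ N : ℕ, N ≠ 0 → N ≤ H ^ 4 → (N.divisors.card : ℝ) ≤ D) →
    ∀ (Q : List Bool → Prop) (cb : List Bool → ℝ) (W : ℝ), 0 ≤ W → Cls H (s0 H) Q cb W → ∀ Z : Finset (List Bool),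
    (∀ l ∈ Z, Q l ∧ sz l ≤ H ∧ ∃ l', sz l' ≤ H ∧ l' ≠ l ∧ FF l' = FF l) →
    (Z.card : ℝ) ≤ C * lm H ^ 11 * (9 * D + 1) * (W + 1) := by
  obtain ⟨L0, hL0, hch⟩ := chain_short
  have hChL : ∀ H : ℕ, 2 ≤ H → ChL H (L0 * lm H ^ 5) := by
    intro H hH Z hZ hc
    refine (hch H (by omega) Z hZ hc).trans ?_
    apply mul_le_mul_of_nonneg_left _ hL0.le
    have hH2 : (2 : ℝ) ≤ H := by exact_mod_cast hH
    have hlog0 : 0 ≤ Real.log (2 * H) := Real.log_nonneg (by linarith)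
    apply pow_le_pow_left₀ (by linarith)
    unfold lm; linarith
  refine ⟨441 * 41 ^ 4 * (283 * 41 ^ 2 * (L0 + 1)) + 22 * 41 ^ 2 * L0, by positivity, L0, hL0, hChL, ?_⟩
  intro H hH D hD0 hD Q cb W hW hC Z hZ
  obtain ⟨f1, f2, f3, f4, f5, -, -⟩ := rh_facts hH
  have hl := lm_two (show 1 ≤ H by omega)
  have main := count_class hH f3 (le_refl (s0 H)) f1 hC hD0 hD (hChL H hH) Z hZ
  set ρ : ℝ := (rh H : ℝ) with hρ
  set l := lm H with hld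
  have hρ2 : (2 : ℝ) ≤ ρ := by rw [hρ]; exact_mod_cast f3
  have hρ0 : (0 : ℝ) ≤ ρ := by linarith
  have hl1 : 1 ≤ l := by linarith
  have hl0 : 0 ≤ l := by linarith
  have a1 : (19 * ρ ^ 2 + 6) ^ 2 ≤ 441 * 41 ^ 4 * l ^ 4 := by
    have e1 : 19 * ρ ^ 2 + 6 ≤ 21 * ρ ^ 2 := by nlinarith
    have e2 : ρ ^ 2 ≤ (41 * l) ^ 2 := pow_le_pow_left₀ hρ0 f2 2
    calc (19 * ρ ^ 2 + 6) ^ 2 ≤ (21 * (41 * l) ^ 2) ^ 2 := pow_le_pow_left₀ (by positivity) (by linarith) 2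
      _ = _ := by ring
  have a2 : (28 * ρ + 5) + (16 * ρ + 4) * (L0 * l ^ 5 + 1) * (12 * ρ + 4) ≤ 283 * 41 ^ 2 * (L0 + 1) * l ^ 7 := by
    have e1 : 28 * ρ + 5 ≤ 31 * ρ := by linarith
    have e2 : 16 * ρ + 4 ≤ 18 * ρ := by linarith
    have e3 : 12 * ρ + 4 ≤ 14 * ρ := by linarith
    have e4 : (1 : ℝ) ≤ l ^ 5 := one_le_pow₀ hl1
    have e5 : L0 * l ^ 5 + 1 ≤ (L0 + 1) * l ^ 5 := by linarith
    have e6 : (16 * ρ + 4) * (L0 * l ^ 5 + 1) * (12 * ρ + 4) ≤ (18 * ρ) * ((L0 + 1) * l ^ 5) * (14 * ρ) := by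
      apply mul_le_mul _ e3 (by positivity) (by positivity)
      exact mul_le_mul e2 e5 (by positivity) (by positivity)
    have e7 : ρ ^ 2 ≤ (41 * l) ^ 2 := pow_le_pow_left₀ hρ0 f2 2
    have e8 : 31 * ρ ≤ 31 * (ρ ^ 2 * ((L0 + 1) * l ^ 5)) := by
      have g1 : (1 : ℝ) ≤ (L0 + 1) * l ^ 5 := by nlinarith
      have g2 : ρ ≤ ρ ^ 2 := by nlinarith
      have g3 : ρ ^ 2 ≤ ρ ^ 2 * ((L0 + 1) * l ^ 5) := le_mul_of_one_le_right (by positivity) g1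
      linarith
    calc (28 * ρ + 5) + (16 * ρ + 4) * (L0 * l ^ 5 + 1) * (12 * ρ + 4)
        ≤ 31 * (ρ ^ 2 * ((L0 + 1) * l ^ 5)) + (18 * ρ) * ((L0 + 1) * l ^ 5) * (14 * ρ) := by linarith
      _ = 283 * (ρ ^ 2 * ((L0 + 1) * l ^ 5)) := by ring
      _ ≤ 283 * ((41 * l) ^ 2 * ((L0 + 1) * l ^ 5)) := by
          apply mul_le_mul_of_nonneg_left _ (by norm_num)
          exact mul_le_mul_of_nonneg_right e7 (by positivity)
      _ = _ := by ring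
  have a3 : 2 * ((10 * ρ ^ 2 + 4) * (L0 * l ^ 5)) ≤ 22 * 41 ^ 2 * L0 * l ^ 7 := by
    have e1 : 10 * ρ ^ 2 + 4 ≤ 11 * ρ ^ 2 := by nlinarith
    have e7 : ρ ^ 2 ≤ (41 * l) ^ 2 := pow_le_pow_left₀ hρ0 f2 2
    calc 2 * ((10 * ρ ^ 2 + 4) * (L0 * l ^ 5)) ≤ 2 * ((11 * (41 * l) ^ 2) * (L0 * l ^ 5)) := by
          apply mul_le_mul_of_nonneg_left _ (by norm_num)
          exact mul_le_mul_of_nonneg_right (by linarith) (by positivity)
      _ = _ := by ring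
  refine main.trans ?_
  have hDW : 0 ≤ (9 * D + 1) * W := by positivity
  have b1 : (19 * ρ ^ 2 + 6) ^ 2 * ((9 * D + 1) * W * ((28 * ρ + 5) + (16 * ρ + 4) * (L0 * l ^ 5 + 1) * (12 * ρ + 4))) ≤
      (441 * 41 ^ 4 * l ^ 4) * ((9 * D + 1) * W * (283 * 41 ^ 2 * (L0 + 1) * l ^ 7)) := by
    apply mul_le_mul a1 _ (by positivity) (by positivity)
    exact mul_le_mul_of_nonneg_left a2 hDW
  have b2 : 22 * 41 ^ 2 * L0 * l ^ 7 ≤ 22 * 41 ^ 2 * L0 * l ^ 11 * ((9 * D + 1) * (W + 1)) := by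
    have e1 : l ^ 7 ≤ l ^ 11 := pow_le_pow_right₀ hl1 (by norm_num)
    have e2 : (1 : ℝ) ≤ (9 * D + 1) * (W + 1) := by nlinarith [mul_nonneg hD0 hW]
    calc 22 * 41 ^ 2 * L0 * l ^ 7 ≤ 22 * 41 ^ 2 * L0 * l ^ 11 := mul_le_mul_of_nonneg_left e1 (by positivity)
      _ ≤ _ := le_mul_of_one_le_right (by positivity) e2
  have b3 : (441 * 41 ^ 4 * l ^ 4) * ((9 * D + 1) * W * (283 * 41 ^ 2 * (L0 + 1) * l ^ 7)) ≤
      441 * 41 ^ 4 * (283 * 41 ^ 2 * (L0 + 1)) * l ^ 11 * ((9 * D + 1) * (W + 1)) := by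
    have e1 : (9 * D + 1) * W ≤ (9 * D + 1) * (W + 1) := mul_le_mul_of_nonneg_left (by linarith) (by linarith)
    calc (441 * 41 ^ 4 * l ^ 4) * ((9 * D + 1) * W * (283 * 41 ^ 2 * (L0 + 1) * l ^ 7)) =
        441 * 41 ^ 4 * (283 * 41 ^ 2 * (L0 + 1)) * l ^ 11 * ((9 * D + 1) * W) := by ring
      _ ≤ _ := mul_le_mul_of_nonneg_left e1 (by positivity)
  calc _ ≤ 441 * 41 ^ 4 * (283 * 41 ^ 2 * (L0 + 1)) * l ^ 11 * ((9 * D + 1) * (W + 1)) +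
        22 * 41 ^ 2 * L0 * l ^ 11 * ((9 * D + 1) * (W + 1)) := by linarith
    _ = _ := by ring

/-- powers of the logarithm -/
lemma lm_pow (n : ℕ) (δ : ℝ) (hδ : 0 < δ) : ∃ C : ℝ, 0 < C ∧ ∀ H : ℕ, 1 ≤ H → lm H ^ n ≤ C * (H : ℝ) ^ δ := by
  obtain ⟨η, hη⟩ : ∃ η : ℝ, η = δ / (n + 1) := ⟨_, rfl⟩
  have hη0 : 0 < η := by rw [hη]; positivity
  refine ⟨(3 + 1 / η) ^ n, by positivity, fun H hH => ?_⟩
  have hH1 : (1 : ℝ) ≤ H := by exact_mod_cast hH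
  have hp : (1 : ℝ) ≤ (H : ℝ) ^ η := Real.one_le_rpow hH1 hη0.le
  have h1 : lm H ≤ (3 + 1 / η) * (H : ℝ) ^ η := by
    unfold lm
    rw [Real.log_mul (by norm_num) (by linarith)]
    have e1 := Real.log_le_rpow_div (show (0 : ℝ) ≤ H by linarith) hη0
    have e2 := Real.log_two_lt_d9
    have e3 : (3 + 1 / η) * (H : ℝ) ^ η = 3 * (H : ℝ) ^ η + (H : ℝ) ^ η / η := by ring
    rw [e3]
    linarith
  have h0 : 0 ≤ lm H := by linarith [lm_two hH]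
  calc lm H ^ n ≤ ((3 + 1 / η) * (H : ℝ) ^ η) ^ n := pow_le_pow_left₀ h0 h1 n
    _ = (3 + 1 / η) ^ n * (H : ℝ) ^ (η * n) := by
        rw [mul_pow, Real.rpow_mul (by linarith), Real.rpow_natCast]
    _ ≤ (3 + 1 / η) ^ n * (H : ℝ) ^ δ := by
        apply mul_le_mul_of_nonneg_left _ (by positivity)
        apply Real.rpow_le_rpow_of_exponent_le hH1
        rw [hη, div_mul_eq_mul_div, div_le_iff₀ (by positivity)]
        nlinarith

/-- the divisors -/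
lemma div_H (δ : ℝ) (hδ : 0 < δ) : ∃ C : ℝ, 0 < C ∧ ∀ H : ℕ, 1 ≤ H → ∀ N : ℕ, N ≠ 0 → N ≤ H ^ 4 →
    (N.divisors.card : ℝ) ≤ C * (H : ℝ) ^ δ := by
  obtain ⟨C, hC, h⟩ := div_bound (δ / 4) (by positivity)
  refine ⟨C, hC, fun H hH N hN hNH => (h N hN).trans (mul_le_mul_of_nonneg_left ?_ hC.le)⟩
  have h1 : (N : ℝ) ≤ (H : ℝ) ^ 4 := by exact_mod_cast hNH
  calc (N : ℝ) ^ (δ / 4) ≤ ((H : ℝ) ^ 4) ^ (δ / 4) := Real.rpow_le_rpow (Nat.cast_nonneg _) h1 (by positivity)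
    _ = (H : ℝ) ^ δ := by
        rw [← Real.rpow_natCast (H : ℝ) 4, ← Real.rpow_mul (Nat.cast_nonneg _)]
        congr 1
        push_cast; ring

/-- words of a class whose weight is polynomial in the logarithm -/
theorem count_eps (ε : ℝ) (hε : 0 < ε) (n : ℕ) (c : ℝ) (hc : 0 < c) : ∃ C : ℝ, 0 < C ∧
    ∀ H : ℕ, 2 ≤ H → ∀ (Q : List Bool → Prop) (cb : List Bool → ℝ) (A W : ℝ), 1 ≤ A → 0 ≤ W → W ≤ c * lm H ^ n * A →
    Cls H (s0 H) Q cb W → ∀ Z : Finset (List Bool),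
    (∀ l ∈ Z, Q l ∧ sz l ≤ H ∧ ∃ l', sz l' ≤ H ∧ l' ≠ l ∧ FF l' = FF l) →
    (Z.card : ℝ) ≤ C * A * (H : ℝ) ^ ε := by
  obtain ⟨C1, hC1, L0, hL0, -, hcount⟩ := count_num
  obtain ⟨C2, hC2, hdiv⟩ := div_H (ε / 2) (by positivity)
  obtain ⟨C3, hC3, hlm⟩ := lm_pow (11 + n) (ε / 2) (by positivity)
  refine ⟨C1 * C3 * (9 * C2 + 1) * (c + 1), by positivity, fun H hH Q cb A W hA hW hWA hCls Z hZ => ?_⟩
  have hH1 : (1 : ℝ) ≤ H := by exact_mod_cast (by omega : 1 ≤ H)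
  have hl := lm_two (show 1 ≤ H by omega)
  have hl1 : 1 ≤ lm H := by linarith
  have hp : (1 : ℝ) ≤ (H : ℝ) ^ (ε / 2) := Real.one_le_rpow hH1 (by positivity)
  have h1 := hcount H hH (C2 * (H : ℝ) ^ (ε / 2)) (by positivity) (fun N hN hNH => hdiv H (by omega) N hN hNH)
    Q cb W hW hCls Z hZ
  refine h1.trans ?_
  have h2 : 9 * (C2 * (H : ℝ) ^ (ε / 2)) + 1 ≤ (9 * C2 + 1) * (H : ℝ) ^ (ε / 2) := by nlinarith
  have h3 : W + 1 ≤ (c + 1) * lm H ^ n * A := by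
    have e1 : (1 : ℝ) ≤ lm H ^ n := one_le_pow₀ hl1
    have e2 : (1 : ℝ) ≤ lm H ^ n * A := by nlinarith
    nlinarith
  have h4 := hlm H (by omega)
  calc C1 * lm H ^ 11 * (9 * (C2 * (H : ℝ) ^ (ε / 2)) + 1) * (W + 1)
      ≤ C1 * lm H ^ 11 * ((9 * C2 + 1) * (H : ℝ) ^ (ε / 2)) * ((c + 1) * lm H ^ n * A) := by
        apply mul_le_mul _ h3 (by linarith) (by positivity)
        exact mul_le_mul_of_nonneg_left h2 (by positivity)
    _ = C1 * (9 * C2 + 1) * (c + 1) * A * (H : ℝ) ^ (ε / 2) * lm H ^ (11 + n) := by rw [pow_add]; ring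
    _ ≤ C1 * (9 * C2 + 1) * (c + 1) * A * (H : ℝ) ^ (ε / 2) * (C3 * (H : ℝ) ^ (ε / 2)) :=
        mul_le_mul_of_nonneg_left h4 (by positivity)
    _ = C1 * C3 * (9 * C2 + 1) * (c + 1) * A * ((H : ℝ) ^ (ε / 2) * (H : ℝ) ^ (ε / 2)) := by ring
    _ = C1 * C3 * (9 * C2 + 1) * (c + 1) * A * (H : ℝ) ^ ε := by
        rw [← Real.rpow_add (by linarith)]; congr 2; ring

lemma empty_of_one {H : ℕ} (hH : H < 2) (Z : Finset (List Bool)) (hZ : ∀ l ∈ Z, sz l ≤ H) : Z = ∅ := by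
  rw [Finset.eq_empty_iff_forall_notMem]
  intro l hl
  have := hZ l hl
  have := len_sz l
  omega

/-- **Thin words.** -/
theorem thin_main (ε : ℝ) (hε : 0 < ε) : ∃ C : ℝ, 0 < C ∧ ∀ H q0 : ℕ, 1 ≤ H → 1 ≤ q0 → ∀ Z : Finset (List Bool),
    (∀ l ∈ Z, mm l ≤ q0 ∧ sz l ≤ H ∧ ∃ l', sz l' ≤ H ∧ l' ≠ l ∧ FF l' = FF l) →
    (Z.card : ℝ) ≤ C * q0 * (H : ℝ) ^ ε := by
  obtain ⟨-, -, L0, hL0, hChL, -⟩ := count_num
  obtain ⟨C, hC, h⟩ := count_eps ε hε 6 (240 * (L0 + 1)) (by positivity)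
  refine ⟨C, hC, fun H q0 hH hq0 Z hZ => ?_⟩
  have hq : (1 : ℝ) ≤ q0 := by exact_mod_cast hq0
  rcases lt_or_ge H 2 with h2 | h2
  · rw [empty_of_one h2 Z (fun l hl => (hZ l hl).2.1)]
    simp only [Finset.card_empty, Nat.cast_zero]
    positivity
  obtain ⟨-, -, -, f4, f5, f6, -⟩ := rh_facts h2
  have hl := lm_two (show 1 ≤ H by omega)
  have hs1 : (1 : ℝ) ≤ s0 H := by exact_mod_cast (show 1 ≤ s0 H by omega)
  have hlog := Real.log_nonneg hs1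
  refine h H h2 (fun l => mm l ≤ q0) _ q0 _ hq ?_ ?_ (cls_thin (hChL H h2) hq0 f5) Z hZ
  · positivity
  · have e1 : (1 : ℝ) ≤ lm H ^ 5 := one_le_pow₀ (by linarith)
    have e2 : L0 * lm H ^ 5 + 1 ≤ (L0 + 1) * lm H ^ 5 := by linarith
    calc 80 * (L0 * lm H ^ 5 + 1) * q0 * Real.log (s0 H) ≤ 80 * ((L0 + 1) * lm H ^ 5) * q0 * (3 * lm H) := by
          apply mul_le_mul _ f6 hlog (by positivity)
          apply mul_le_mul_of_nonneg_right _ (by linarith)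
          linarith
      _ = _ := by ring

/-- **Words with short runs.** -/
theorem runs_one (ε : ℝ) (hε : 0 < ε) : ∃ C : ℝ, 0 < C ∧ ∀ H K : ℕ, 1 ≤ H → 1 ≤ K → ∀ Z : Finset (List Bool),
    (∀ l ∈ Z, Rn K l ∧ sz l ≤ H ∧ ∃ l', sz l' ≤ H ∧ l' ≠ l ∧ FF l' = FF l) →
    (Z.card : ℝ) ≤ C * (K : ℝ) ^ 2 * (H : ℝ) ^ ε := by
  obtain ⟨C, hC, h⟩ := count_eps ε hε 2 676 (by positivity)
  refine ⟨C, hC, fun H K hH hK Z hZ => ?_⟩
  have hK1 : (1 : ℝ) ≤ K := by exact_mod_cast hK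
  rcases lt_or_ge H 2 with h2 | h2
  · rw [empty_of_one h2 Z (fun l hl => (hZ l hl).2.1)]
    simp only [Finset.card_empty, Nat.cast_zero]
    positivity
  obtain ⟨-, -, -, f4, f5, -, f7⟩ := rh_facts h2
  have hl := lm_two (show 1 ≤ H by omega)
  refine h H h2 (Rn K) _ ((K : ℝ) ^ 2) _ (one_le_pow₀ hK1) (by positivity) ?_ (cls_runs (K := K) f4) Z hZ
  have e1 : ((((K + 1) * Nat.log 2 (2 * s0 H) : ℕ) : ℝ) + 1) ≤ 13 * K * lm H := by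
    push_cast
    calc ((K : ℝ) + 1) * (Nat.log 2 (2 * s0 H) : ℕ) + 1 ≤ (2 * K) * (6 * lm H) + 1 := by
          have := mul_le_mul (show (K : ℝ) + 1 ≤ 2 * K by linarith) f7 (Nat.cast_nonneg _) (by positivity)
          linarith
      _ ≤ _ := by nlinarith
  calc 4 * ((((K + 1) * Nat.log 2 (2 * s0 H) : ℕ) : ℝ) + 1) ^ 2 ≤ 4 * (13 * K * lm H) ^ 2 := by
        apply mul_le_mul_of_nonneg_left _ (by norm_num)
        exact pow_le_pow_left₀ (by positivity) e1 2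
    _ = _ := by ring

end

end Pool.Agent.N576.MK
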