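import Mathlib
import Pool.Agent.N576.MK.A9
import Pool.Agent.R610.MK.Fin

set_option autoImplicit false

/-!
# Exceptional words: counting with the top entry
-/

namespace Pool.Agent.N576.MK

open Pool.Agent.H499R2 Pool.Agent.TH880.MK
open Pool.Agent.R610.MK (top top_cast Exc EN)

noncomputable section

/-- words with the same largest entry have the same value -/
lemma FF_of_c {l l' : List Bool} (h : (desc root l').c = (desc root l).c) : FF l' = FF l := by
  unfold FF ga; rw [h]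

/-- sizes of words with the same value -/
lemma sz_of_FF {l l' : List Bool} (h : FF l' = FF l) : sz l' ≤ 4 * sz l := by
  have h1 := (FF_size l').1
  have h2 := (FF_size l).2
  have h3 : (sz l' : ℝ) ≤ 4 * sz l := by linarith
  exact_mod_cast h3

lemma rsz (l : List Bool) : Pool.Agent.R610.MK.sz l = sz l := sz_pq l

/-- an exceptional vertex has a partner -/
lemma exc_word {l : List Bool} (h : Exc (top l)) : ∃ l', l' ≠ l ∧ (desc root l').c = (desc root l).c := by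
  obtain ⟨⟨a, b⟩, ⟨c, d⟩, hne, ⟨h1, h2, h3, h4⟩, ⟨g1, g2, g3, g4⟩⟩ := h
  have h5 := Pool.Agent.R610.MK.five_le_top l
  obtain ⟨w, hw⟩ := word_of (top l) a b h5 h1 h2 h3 h4
  obtain ⟨w', hw'⟩ := word_of (top l) c d h5 g1 g2 g3 g4
  have hc : (desc root w).c = top l := congrArg (fun z => z.2.2) hw
  have hc' : (desc root w').c = top l := congrArg (fun z => z.2.2) hw'
  have hww : w ≠ w' := by
    rintro rfl
    rw [hw] at hw'
    simp only [Prod.mk.injEq, Nat.cast_inj] at hw'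
    exact hne (Prod.ext hw'.1 hw'.2.1)
  by_cases hwl : w = l
  · refine ⟨w', ?_, by rw [hc', top_cast]⟩
    rintro rfl
    exact hww hwl
  · exact ⟨w, hwl, by rw [hc, top_cast]⟩

/-- exceptional words with a small region -/
lemma count_thin (ε : ℝ) (hε : 0 < ε) : ∃ C : ℝ, 0 < C ∧ ∀ K T : ℝ, 1 ≤ K → 1 ≤ T →
    {l | l ∈ EN ∧ (((desc root l).p : ℝ) ≤ K ∨ ((desc root l).q : ℝ) ≤ K) ∧ (sz l : ℝ) ≤ T}.Finite ∧
      (({l | l ∈ EN ∧ (((desc root l).p : ℝ) ≤ K ∨ ((desc root l).q : ℝ) ≤ K) ∧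
        (sz l : ℝ) ≤ T}.ncard : ℕ) : ℝ) ≤ C * K * T ^ ε := by
  classical
  obtain ⟨C, hC, h⟩ := thin_main ε hε
  refine ⟨C * 4 ^ ε, by positivity, fun K T hK hT => ?_⟩
  have hT0 : 0 < T := by linarith
  have hK0 : 0 < K := by linarith
  set k := ⌊K⌋₊ with hk
  have hk1 : 1 ≤ k := Nat.le_floor (by simpa using hK)
  have hkK : (k : ℝ) ≤ K := Nat.floor_le hK0.le
  set n := ⌊T⌋₊ with hn
  have hn1 : 1 ≤ n := Nat.le_floor (by simpa using hT)
  have hnT : (n : ℝ) ≤ T := Nat.floor_le hT0.le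
  have hfin : {l | l ∈ EN ∧ (((desc root l).p : ℝ) ≤ K ∨ ((desc root l).q : ℝ) ≤ K) ∧ (sz l : ℝ) ≤ T}.Finite := by
    refine (SW n).finite_toSet.subset ?_
    intro l hl
    rw [Finset.mem_coe, mem_SW]
    exact Nat.le_floor hl.2.2
  refine ⟨hfin, ?_⟩
  rw [Set.ncard_eq_toFinset_card _ hfin]
  refine (h (4 * n) k (by omega) hk1 hfin.toFinset ?_).trans ?_
  · intro l hl
    rw [Set.Finite.mem_toFinset] at hl
    obtain ⟨h1, h2, h3⟩ := hl
    have h3' : sz l ≤ n := Nat.le_floor h3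
    obtain ⟨l', hne, hc⟩ := exc_word h1
    have hF := FF_of_c hc
    have hs := sz_of_FF hF
    refine ⟨?_, by omega, l', by omega, hne, hF⟩
    unfold mm
    rcases h2 with h2 | h2
    · exact (min_le_left _ _).trans (Nat.le_floor h2)
    · exact (min_le_right _ _).trans (Nat.le_floor h2)
  · have h1 : ((4 * n : ℕ) : ℝ) ^ ε ≤ 4 ^ ε * T ^ ε := by
      rw [← Real.mul_rpow (by norm_num) hT0.le]
      apply Real.rpow_le_rpow (Nat.cast_nonneg _) _ hε.le
      push_cast; linarith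
    calc C * k * ((4 * n : ℕ) : ℝ) ^ ε ≤ C * K * (4 ^ ε * T ^ ε) := by
          apply mul_le_mul _ h1 (by positivity) (by positivity)
          exact mul_le_mul_of_nonneg_left hkK hC.le
      _ = _ := by ring

/-- exceptional words by the product of the regions -/
lemma count_prod (ε : ℝ) (hε : 0 < ε) : ∃ C : ℝ, ∀ X : ℝ, 1 ≤ X →
    {l | l ∈ EN ∧ ((desc root l).p : ℝ) * (desc root l).q ≤ X}.Finite ∧
      (({l | l ∈ EN ∧ ((desc root l).p : ℝ) * (desc root l).q ≤ X}.ncard : ℕ) : ℝ) ≤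
        C * X ^ ((1 / 2 : ℝ) + ε) := by
  classical
  obtain ⟨C, hC, h⟩ := count_thin ε hε
  refine ⟨C * 2 ^ ε, fun X hX => ?_⟩
  have hX0 : 0 < X := by linarith
  set K := X ^ (1 / 2 : ℝ) with hK
  have hK1 : 1 ≤ K := Real.one_le_rpow hX (by norm_num)
  have hK0 : 0 < K := by linarith
  have hKK : K * K = X := by
    rw [hK, ← Real.rpow_add hX0]
    norm_num
  obtain ⟨f2, n2⟩ := h K (2 * X) hK1 (by linarith)
  have hsub : {l | l ∈ EN ∧ ((desc root l).p : ℝ) * (desc root l).q ≤ X} ⊆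
      {l | l ∈ EN ∧ (((desc root l).p : ℝ) ≤ K ∨ ((desc root l).q : ℝ) ≤ K) ∧ (sz l : ℝ) ≤ 2 * X} := by
    rintro l ⟨hl1, hl2⟩
    have hv := valid_root.desc l
    have hp : (1 : ℝ) ≤ (desc root l).p := by exact_mod_cast hv.p1
    have hq : (1 : ℝ) ≤ (desc root l).q := by exact_mod_cast hv.q1
    have hsz : (sz l : ℝ) = (desc root l).p + (desc root l).q := by
      rw [← sz_pq l]
      push_cast
      ring
    refine ⟨hl1, ?_, ?_⟩
    · by_contra hcon
      push Not at hcon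
      have : K * K < (desc root l).p * (desc root l).q :=
        mul_lt_mul'' hcon.1 hcon.2 hK0.le hK0.le
      linarith
    · rw [hsz]; nlinarith
  refine ⟨f2.subset hsub, ?_⟩
  have h3 := Set.ncard_le_ncard hsub f2
  have h4 : (({l | l ∈ EN ∧ ((desc root l).p : ℝ) * (desc root l).q ≤ X}.ncard : ℕ) : ℝ) ≤ C * K * (2 * X) ^ ε :=
    le_trans (by exact_mod_cast h3) n2
  refine h4.trans (le_of_eq ?_)
  rw [Real.mul_rpow (by norm_num) hX0.le, Real.rpow_add hX0, ← hK]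
  ring

/-- exceptional words with short runs -/
lemma count_runs (ε : ℝ) (hε : 0 < ε) : ∃ C : ℝ, 0 < C ∧ ∀ (K : ℕ) (T : ℝ), 1 ≤ K → 1 ≤ T →
    {l | l ∈ EN ∧ Rn K l ∧ (sz l : ℝ) ≤ T}.Finite ∧
      (({l | l ∈ EN ∧ Rn K l ∧ (sz l : ℝ) ≤ T}.ncard : ℕ) : ℝ) ≤ C * (K : ℝ) ^ 2 * T ^ ε := by
  classical
  obtain ⟨C, hC, h⟩ := runs_one ε hε
  refine ⟨C * 4 ^ ε, by positivity, fun K T hK hT => ?_⟩
  have hT0 : 0 < T := by linarith
  set n := ⌊T⌋₊ with hn
  have hn1 : 1 ≤ n := Nat.le_floor (by simpa using hT)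
  have hnT : (n : ℝ) ≤ T := Nat.floor_le hT0.le
  have hfin : {l | l ∈ EN ∧ Rn K l ∧ (sz l : ℝ) ≤ T}.Finite := by
    refine (SW n).finite_toSet.subset ?_
    intro l hl
    rw [Finset.mem_coe, mem_SW]
    exact Nat.le_floor hl.2.2
  refine ⟨hfin, ?_⟩
  rw [Set.ncard_eq_toFinset_card _ hfin]
  refine (h (4 * n) K (by omega) hK hfin.toFinset ?_).trans ?_
  · intro l hl
    rw [Set.Finite.mem_toFinset] at hl
    obtain ⟨h1, h2, h3⟩ := hl
    have h3' : sz l ≤ n := Nat.le_floor h3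
    obtain ⟨l', hne, hc⟩ := exc_word h1
    have hF := FF_of_c hc
    have hs := sz_of_FF hF
    exact ⟨h2, by omega, l', by omega, hne, hF⟩
  · have h1 : ((4 * n : ℕ) : ℝ) ^ ε ≤ 4 ^ ε * T ^ ε := by
      rw [← Real.mul_rpow (by norm_num) hT0.le]
      apply Real.rpow_le_rpow (Nat.cast_nonneg _) _ hε.le
      push_cast; linarith
    calc C * (K : ℝ) ^ 2 * ((4 * n : ℕ) : ℝ) ^ ε ≤ C * (K : ℝ) ^ 2 * (4 ^ ε * T ^ ε) :=
          mul_le_mul_of_nonneg_left h1 (by positivity)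
      _ = _ := by ring

end

end Pool.Agent.N576.MK
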