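import Mathlib
import Pool.Agent.N576.MK.B1

set_option autoImplicit false

/-!
# Farey intervals and runs
-/

namespace Pool.Agent.N576.MK

open Pool.Agent.H499R2 Pool.Agent.TH880.MK
open Pool.Agent.R610.MK (top top_cast Exc EN vert vert_facts FI FI_ediam dimH_family)

noncomputable section

/-- the end points of the interval of a node -/
lemma ends (l : List Bool) :
    ((desc root l).vy : ℝ) * (desc root l).p - (desc root l).q * (desc root l).uy = 1 ∧
    ((vert l).p : ℝ) = (desc root l).uy ∧ ((vert l).p' : ℝ) = (desc root l).vy ∧
    ((vert l).q : ℝ) = (desc root l).p ∧ ((vert l).q' : ℝ) = (desc root l).q ∧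
    (1 : ℝ) ≤ (desc root l).p ∧ (1 : ℝ) ≤ (desc root l).q := by
  have hv := valid_root.desc l
  obtain ⟨f1, f2, -, -, -⟩ := vert_facts l
  have hp : (1 : ℝ) ≤ (desc root l).p := by exact_mod_cast hv.p1
  have hq : (1 : ℝ) ≤ (desc root l).q := by exact_mod_cast hv.q1
  have hdet : ((desc root l).ux : ℝ) * (desc root l).vy - (desc root l).uy * (desc root l).vx = 1 := by
    exact_mod_cast hv.det
  have h1 : ((desc root l).p : ℝ) = (desc root l).ux + (desc root l).uy := by exact_mod_cast hv.hp
  have h2 : ((desc root l).q : ℝ) = (desc root l).vx + (desc root l).vy := by exact_mod_cast hv.hq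
  refine ⟨by rw [h1, h2]; linarith, by exact_mod_cast f1, by exact_mod_cast f2, rfl, rfl, hp, hq⟩

/-- the Farey interval of a word in terms of the node -/
lemma FI_eq (l : List Bool) : FI l = Set.Icc (((desc root l).uy : ℝ) / (desc root l).p)
    (((desc root l).vy : ℝ) / (desc root l).q) := by
  obtain ⟨-, e1, e2, e3, e4, -, -⟩ := ends l
  unfold FI
  rw [e1, e2, e3, e4]

lemma FI_step (l : List Bool) (b : Bool) : FI (l ++ [b]) ⊆ FI l := by
  obtain ⟨d, -, -, -, -, hp, hq⟩ := ends l
  rw [FI_eq, FI_eq, desc_snoc]
  cases b
  · have e1 : (step (desc root l) false).uy = (desc root l).uy + (desc root l).vy := rfl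
    have e2 : (step (desc root l) false).vy = (desc root l).vy := rfl
    have e3 : (step (desc root l) false).p = (desc root l).p + (desc root l).q := rfl
    have e4 : (step (desc root l) false).q = (desc root l).q := rfl
    rw [e1, e2, e3, e4]
    push_cast
    apply Set.Icc_subset_Icc_left
    rw [div_le_div_iff₀ (by linarith) (by linarith)]
    nlinarith
  · have e1 : (step (desc root l) true).uy = (desc root l).uy := rfl
    have e2 : (step (desc root l) true).vy = (desc root l).uy + (desc root l).vy := rfl
    have e3 : (step (desc root l) true).p = (desc root l).p := rfl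
    have e4 : (step (desc root l) true).q = (desc root l).p + (desc root l).q := rfl
    rw [e1, e2, e3, e4]
    push_cast
    apply Set.Icc_subset_Icc_right
    rw [div_le_div_iff₀ (by linarith) (by linarith)]
    nlinarith

lemma FI_mono {l l' : List Bool} (h : l <+: l') : FI l' ⊆ FI l := by
  obtain ⟨t, rfl⟩ := h
  induction t using List.reverseRecOn with
  | nil => rw [List.append_nil]
  | append_singleton t b ih =>
    rw [← List.append_assoc]
    exact (FI_step _ b).trans ih

/-- a run of `true` -/
lemma desc_run_true (u : List Bool) (n : ℕ) :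
    (desc root (u ++ List.replicate n true)).p = (desc root u).p ∧
    (desc root (u ++ List.replicate n true)).uy = (desc root u).uy ∧
    (desc root (u ++ List.replicate n true)).q = (desc root u).q + n * (desc root u).p := by
  induction n with
  | zero => simp
  | succ n ih =>
    obtain ⟨h1, h2, h3⟩ := ih
    rw [List.replicate_succ', ← List.append_assoc, desc_snoc]
    refine ⟨h1, h2, ?_⟩
    have e4 : (step (desc root (u ++ List.replicate n true)) true).q =
      (desc root (u ++ List.replicate n true)).p + (desc root (u ++ List.replicate n true)).q := rfl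
    rw [e4, h1, h3]
    ring

/-- a run of `false` -/
lemma desc_run_false (u : List Bool) (n : ℕ) :
    (desc root (u ++ List.replicate n false)).q = (desc root u).q ∧
    (desc root (u ++ List.replicate n false)).vy = (desc root u).vy ∧
    (desc root (u ++ List.replicate n false)).p = (desc root u).p + n * (desc root u).q := by
  induction n with
  | zero => simp
  | succ n ih =>
    obtain ⟨h1, h2, h3⟩ := ih
    rw [List.replicate_succ', ← List.append_assoc, desc_snoc]
    refine ⟨h1, h2, ?_⟩
    have e4 : (step (desc root (u ++ List.replicate n false)) false).p =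
      (desc root (u ++ List.replicate n false)).p + (desc root (u ++ List.replicate n false)).q := rfl
    rw [e4, h1, h3]
    ring

/-- a run gives a good approximation -/
lemma run_approx {α : ℝ} {l : List Bool} (hα : α ∈ FI l) {K : ℕ} (hK : 1 ≤ K) {c : Bool}
    (h : List.replicate K c <:+: l) : ∃ (m : ℤ) (n : ℕ), 1 ≤ n ∧ K * n ≤ sz l ∧
      |α - m / n| ≤ 1 / (K * (n : ℝ) ^ 2) := by
  obtain ⟨u, v, rfl⟩ := h
  have h1 : α ∈ FI (u ++ List.replicate K c) := FI_mono (List.prefix_append _ _) hα
  have hs : sz (u ++ List.replicate K c) ≤ sz (u ++ List.replicate K c ++ v) :=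
    sz_prefix (List.prefix_append _ _)
  rw [← sz_pq (u ++ List.replicate K c)] at hs
  obtain ⟨d, -, -, -, -, hp, hq⟩ := ends (u ++ List.replicate K c)
  obtain ⟨-, -, -, -, -, hp0, hq0⟩ := ends u
  rw [FI_eq] at h1
  have hKr : (1 : ℝ) ≤ K := by exact_mod_cast hK
  cases c
  · obtain ⟨g1, g2, g3⟩ := desc_run_false u K
    refine ⟨(desc root u).vy, (desc root u).q, by exact_mod_cast hq0, ?_, ?_⟩
    · have : K * (desc root u).q ≤ (desc root (u ++ List.replicate K false)).p := by rw [g3]; omega
      omega
    · have g3' : ((desc root (u ++ List.replicate K false)).p : ℝ) =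
        (desc root u).p + K * (desc root u).q := by exact_mod_cast g3
      rw [g1, g2] at h1
      rw [g1, g2] at d
      set P := ((desc root (u ++ List.replicate K false)).p : ℝ) with hP
      set Q := ((desc root u).q : ℝ) with hQ
      set U := ((desc root (u ++ List.replicate K false)).uy : ℝ) with hU
      set V := ((desc root u).vy : ℝ) with hV
      have h2 : V / Q - U / P = 1 / (Q * P) := by
        rw [div_sub_div _ _ (by linarith) (by linarith)]
        congr 1
      rw [abs_sub_comm, abs_of_nonneg (by linarith [h1.2])]
      have h3 : 1 / (Q * P) ≤ 1 / (K * Q ^ 2) := by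
        apply one_div_le_one_div_of_le (by positivity)
        rw [g3']
        nlinarith
      linarith [h1.1]
  · obtain ⟨g1, g2, g3⟩ := desc_run_true u K
    refine ⟨(desc root u).uy, (desc root u).p, by exact_mod_cast hp0, ?_, ?_⟩
    · have : K * (desc root u).p ≤ (desc root (u ++ List.replicate K true)).q := by rw [g3]; omega
      omega
    · have g3' : ((desc root (u ++ List.replicate K true)).q : ℝ) =
        (desc root u).q + K * (desc root u).p := by exact_mod_cast g3
      rw [g1, g2] at h1
      rw [g1, g2] at d
      set P := ((desc root (u ++ List.replicate K true)).q : ℝ) with hP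
      set Q := ((desc root u).p : ℝ) with hQ
      set U := ((desc root (u ++ List.replicate K true)).vy : ℝ) with hU
      set V := ((desc root u).uy : ℝ) with hV
      have h2 : U / P - V / Q = 1 / (P * Q) := by
        rw [div_sub_div _ _ (by linarith) (by linarith)]
        congr 1
      rw [abs_of_nonneg (by linarith [h1.1])]
      have h3 : 1 / (P * Q) ≤ 1 / (K * Q ^ 2) := by
        apply one_div_le_one_div_of_le (by positivity)
        rw [g3']
        nlinarith
      linarith [h1.2]

/-- the regions of a node are balanced if the last run is short -/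
lemma balance (l : List Bool) :
    (∃ j, List.replicate j true <:+ l ∧ (desc root l).q ≤ (j + 1) * (desc root l).p) ∧
    (∃ j, List.replicate j false <:+ l ∧ (desc root l).p ≤ (j + 1) * (desc root l).q) := by
  induction l using List.reverseRecOn with
  | nil => exact ⟨⟨0, by simp, by simp [root, desc]⟩, ⟨0, by simp, by simp [root, desc]⟩⟩
  | append_singleton l b ih =>
    obtain ⟨⟨j, hj1, hj2⟩, ⟨i, hi1, hi2⟩⟩ := ih
    rw [desc_snoc]
    cases b
    · have e3 : (step (desc root l) false).p = (desc root l).p + (desc root l).q := rfl
      have e4 : (step (desc root l) false).q = (desc root l).q := rfl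
      rw [e3, e4]
      refine ⟨⟨0, by simp, by omega⟩, ⟨i + 1, ?_, by nlinarith⟩⟩
      obtain ⟨t, ht⟩ := hi1
      refine ⟨t, ?_⟩
      rw [List.replicate_succ', ← List.append_assoc, ht]
    · have e3 : (step (desc root l) true).p = (desc root l).p := rfl
      have e4 : (step (desc root l) true).q = (desc root l).p + (desc root l).q := rfl
      rw [e3, e4]
      refine ⟨⟨j + 1, ?_, by nlinarith⟩, ⟨0, by simp, by omega⟩⟩
      obtain ⟨t, ht⟩ := hj1
      refine ⟨t, ?_⟩
      rw [List.replicate_succ', ← List.append_assoc, ht]

end

end Pool.Agent.N576.MK
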