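import Mathlib
import Pool.Agent.N576.MK.A7

set_option autoImplicit false

/-!
# Costs of sets of exceptional words: a fixed cone
-/

namespace Pool.Agent.N576.MK

open Pool.Agent.H499R2 Pool.Agent.TH880.MK

noncomputable section

/-- `M X B` means that the set `X` of words has cost at most `B` -/
structure Cost (M : Finset (List Bool) → ℝ → Prop) : Prop where
  cov : ∀ (X Y Z : Finset (List Bool)) (B B' : ℝ), M X B → M Y B' → (∀ l ∈ Z, l ∈ X ∨ l ∈ Y) → M Z (B + B')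
  le : ∀ (X : Finset (List Bool)) (B B' : ℝ), M X B → B ≤ B' → M X B'
  empty : M ∅ 0

section cost

variable {M : Finset (List Bool) → ℝ → Prop}

lemma Cost.mono (K : Cost M) {X Y : Finset (List Bool)} {B : ℝ} (h : M X B) (hY : ∀ l ∈ Y, l ∈ X) : M Y B := by
  have := K.cov X ∅ Y B 0 h K.empty (fun l hl => Or.inl (hY l hl))
  rwa [add_zero] at this

lemma Cost.sum (K : Cost M) {ι : Type*} [DecidableEq ι] (s : Finset ι) (f : ι → Finset (List Bool)) (B : ι → ℝ)
    (h : ∀ i ∈ s, M (f i) (B i)) : ∀ Z : Finset (List Bool), (∀ l ∈ Z, ∃ i ∈ s, l ∈ f i) → M Z (∑ i ∈ s, B i) := by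
  classical
  induction s using Finset.induction_on with
  | empty =>
    intro Z hZ
    rw [Finset.sum_empty]
    exact K.mono K.empty (fun l hl => by
      obtain ⟨i, hi, -⟩ := hZ l hl
      simp at hi)
  | insert i s his ih =>
    intro Z hZ
    rw [Finset.sum_insert his]
    have h1 := ih (fun j hj => h j (Finset.mem_insert_of_mem hj)) (Z.filter (fun l => ∃ j ∈ s, l ∈ f j))
      (fun l hl => (Finset.mem_filter.mp hl).2)
    refine K.cov (f i) _ Z (B i) _ (h i (Finset.mem_insert_self i s)) h1 ?_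
    intro l hl
    obtain ⟨j, hj, hlj⟩ := hZ l hl
    rcases Finset.mem_insert.mp hj with rfl | hj
    · exact Or.inl hlj
    · exact Or.inr (Finset.mem_filter.mpr ⟨hl, j, hj, hlj⟩)

open scoped Classical in
lemma Cost.image (K : Cost M) {V : Finset (List Bool)} (f : List Bool → List Bool) {b : ℝ} {n : ℝ}
    (hb : 0 ≤ b) (hn : ((V.image f).card : ℝ) ≤ n) (h : ∀ k ∈ V.image f, M (V.filter (fun l => f l = k)) b) :
    M V (n * b) := by
  have h1 := K.sum (V.image f) (fun k => V.filter (fun l => f l = k)) (fun _ => b) h V (fun l hl =>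
    ⟨f l, Finset.mem_image_of_mem f hl, Finset.mem_filter.mpr ⟨hl, rfl⟩⟩)
  rw [Finset.sum_const, nsmul_eq_mul] at h1
  exact K.le _ _ _ h1 (mul_le_mul_of_nonneg_right hn hb)

end cost

open scoped Classical in
/-- A class of words together with a cost. -/
structure ClsM (M : Finset (List Bool) → ℝ → Prop) (H S0 : ℕ) (Q : List Bool → Prop) (cb : List Bool → ℝ) (W : ℝ) :
    Prop where
  pos : ∀ k, 0 ≤ cb k
  cbW : ∀ k, cb k ≤ W
  one : ∀ l, Q l → M {l} W
  comb : ∀ (k : List Bool) (X : Finset (List Bool)), (∀ l ∈ X, Q l ∧ Exw l ∧ sz l ≤ H ∧ k <+: l) →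
    M X (cb k * ((((Bst X).filter (fun i => k <+: i)).card : ℝ) + 1))
  hang : ∀ P : List Bool, sz P ≤ S0 → ∀ (V : Finset (List Bool)) (κ : List Bool → List Bool) (c : ℝ), 0 ≤ c →
    (∀ l ∈ V, Hg P (κ l) ∧ κ l <+: l ∧ Q l) → (∀ k ∈ V.image κ, M (V.filter (fun l => κ l = k)) (c * cb k)) →
    M V ((c + 1) * W)

lemma ClsM.W0 {M : Finset (List Bool) → ℝ → Prop} {H S0 : ℕ} {Q : List Bool → Prop} {cb : List Bool → ℝ} {W : ℝ}
    (C : ClsM M H S0 Q cb W) : 0 ≤ W := (C.pos []).trans (C.cbW [])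

/-- a pair of cones -/
theorem pair_cM {M : Finset (List Bool) → ℝ → Prop} (K : Cost M) {H ρ S0 : ℕ} (hH : 2 ≤ H)
    (hs : (10 : ℝ) ^ 20 * H ^ 20 ≤ 4 ^ ρ) {Q : List Bool → Prop}
    {cb : List Bool → ℝ} {W : ℝ} (C : ClsM M H S0 Q cb W) {D : ℝ}
    (hD : ∀ N : ℕ, N ≠ 0 → N ≤ H ^ 4 → (N.divisors.card : ℝ) ≤ D) {k k' : List Bool} (hk : k ∈ PN H ρ)
    (hk' : k' ∈ PN H ρ) (X : Finset (List Bool)) (φ : List Bool → List Bool)
    (hX : ∀ l ∈ X, Q l ∧ k <+: l ∧ k' <+: φ l ∧ sz l ≤ H ∧ sz (φ l) ≤ H ∧ φ l ≠ l ∧ FF (φ l) = FF l)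
    {κ : List Bool} (hκ : k <+: κ) (hXκ : ∀ l ∈ X, κ <+: l) : M X (cb κ * (9 * D + 1)) := by
  classical
  obtain ⟨g1, g2⟩ := mem_PN.mp hk
  obtain ⟨g1', g2'⟩ := mem_PN.mp hk'
  have hb := big_sq g2.1.1
  have hb' := big_sq g2'.1.1
  have hyp : HypL H (4 ^ ρ) k k' (fun l l' => l ∈ X ∧ l' = φ l) := by
    refine ⟨hs, hb.1, hb.2, hb'.1, hb'.2, g2.1.2, g2'.1.2, ?_⟩
    rintro l l' ⟨hl, rfl⟩
    obtain ⟨-, w2, w3, w4, w5, -, w7⟩ := hX l hl
    exact ⟨w2, w3, w4, w5, w7⟩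
  have e1 : ∀ l ∈ X, ∃ l', (fun l l' => l ∈ X ∧ l' = φ l) l l' := fun l hl => ⟨φ l, hl, rfl⟩
  obtain ⟨N, hN0, hN1, hN2⟩ := br_card hH hyp (by
    rintro l l' ⟨h1, h2⟩ h3
    exact (hX l h1).2.2.2.2.2.1 (by rw [← h2, ← h3])) ((Bst X).filter (fun i => k <+: i)) (by
    intro i hi
    rw [Finset.mem_filter] at hi
    exact ⟨hi.2, Br_of_BrF e1 (Bst_br hi.1)⟩)
  have h1 := C.comb κ X (fun l hl => by
    obtain ⟨w1, w2, w3, w4, w5, w6, w7⟩ := hX l hl
    exact ⟨w1, ⟨φ l, w6, w7⟩, w4, hXκ l hl⟩)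
  refine K.le _ _ _ h1 (mul_le_mul_of_nonneg_left ?_ (C.pos κ))
  have h2 : ((Bst X).filter (fun i => κ <+: i)).card ≤ ((Bst X).filter (fun i => k <+: i)).card := by
    apply Finset.card_le_card
    intro i hi
    rw [Finset.mem_filter] at hi ⊢
    exact ⟨hi.1, hκ.trans hi.2⟩
  have h3 : (((Bst X).filter (fun i => κ <+: i)).card : ℝ) ≤ 9 * N.divisors.card := by
    exact_mod_cast h2.trans hN2
  have h4 := hD N hN0 hN1
  linarith

open scoped Classical in
/-- a window of levels -/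
theorem window_cM {M : Finset (List Bool) → ℝ → Prop} (K : Cost M) {H ρ S0 : ℕ} (hH : 2 ≤ H)
    (hs : (10 : ℝ) ^ 20 * H ^ 20 ≤ 4 ^ ρ) {Q : List Bool → Prop}
    {cb : List Bool → ℝ} {W : ℝ} (C : ClsM M H S0 Q cb W) {D : ℝ} (hD0 : 0 ≤ D)
    (hD : ∀ N : ℕ, N ≠ 0 → N ≤ H ^ 4 → (N.divisors.card : ℝ) ≤ D) {k P' : List Bool} (hk : k ∈ PN H ρ)
    (φ κp : List Bool → List Bool) (V : Finset (List Bool)) (hV : ∀ l ∈ V, Set1 H ρ Q k P' φ κp l) {r x : ℝ}
    (hr : 0 ≤ r) (hw : ∀ l ∈ V, x ≤ FF (κp l).dropLast ∧ FF (κp l).dropLast ≤ x + r) {κ : List Bool} (hκ : k <+: κ)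
    (hVκ : ∀ l ∈ V, κ <+: l) : M V ((4 * r + 1) * (cb κ * (9 * D + 1))) := by
  have h0 : 0 ≤ cb κ * (9 * D + 1) := mul_nonneg (C.pos κ) (by linarith)
  apply K.image κp h0
  · refine le_trans ?_ (hang_window (PN H ρ) P' hr x)
    have : V.image κp ⊆ ((PN H ρ).filter (Hg P')).filter fun k => x ≤ FF k.dropLast ∧ FF k.dropLast ≤ x + r := by
      intro k' hk'
      obtain ⟨l, hl, rfl⟩ := Finset.mem_image.mp hk'
      have h := hV l hl
      rw [Finset.mem_filter, Finset.mem_filter]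
      exact ⟨⟨h.pn, h.hg⟩, hw l hl⟩
    exact_mod_cast Finset.card_le_card this
  · intro k' hk'
    obtain ⟨l0, hl0, rfl⟩ := Finset.mem_image.mp hk'
    refine pair_cM K hH hs C hD hk (hV l0 hl0).pn _ φ ?_ hκ (fun l hl => hVκ l (Finset.mem_filter.mp hl).1)
    intro l hl
    rw [Finset.mem_filter] at hl
    have h := hV l hl.1
    refine ⟨h.cl, h.pre, ?_, h.s1, h.s2, h.ne, h.val⟩
    rw [← hl.2]; exact h.pre'

open scoped Classical in
/-- **A fixed cone.** An antichain of words below `k` with partners in pieces hanging off `P'` far below `k`. -/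
theorem fixed_cM {M : Finset (List Bool) → ℝ → Prop} (K : Cost M) {H ρ S0 : ℕ} (hH : 2 ≤ H) (hρ : 2 ≤ ρ)
    (hS0 : H ≤ S0) (hs : (10 : ℝ) ^ 20 * H ^ 20 ≤ 4 ^ ρ)
    {Q : List Bool → Prop} {cb : List Bool → ℝ} {W : ℝ} (C : ClsM M H S0 Q cb W) {D : ℝ} (hD0 : 0 ≤ D)
    (hD : ∀ N : ℕ, N ≠ 0 → N ≤ H ^ 4 → (N.divisors.card : ℝ) ≤ D) {k P' : List Bool} (hk : k ∈ PN H ρ)
    (φ κp : List Bool → List Bool) (U : Finset (List Bool)) (hU : ∀ l ∈ U, Set1 H ρ Q k P' φ κp l)
    (hlev : ∀ l ∈ U, FF k + 2 * ρ ≤ FF (κp l).dropLast) (anti : ∀ l ∈ U, ∀ l2 ∈ U, l <+: l2 → l = l2) :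
    M U ((9 * D + 1) * ((12 * ρ + 5) * W)) := by
  have hρ2 : (2 : ℝ) ≤ ρ := by exact_mod_cast hρ
  have hρ0 : (0 : ℝ) ≤ ρ := by linarith
  have hck := C.pos k
  have hW := C.W0
  have hD1 : 0 ≤ 9 * D + 1 := by linarith
  have hkW := C.cbW k
  obtain ⟨gk, gk2⟩ := mem_PN.mp hk
  obtain ⟨y, hy⟩ : ∃ y : List Bool → ℝ, y = fun l => FF (κp l).dropLast := ⟨_, rfl⟩
  have dat : ∀ l ∈ U, Dat H ρ k (desc root P') l (φ l) (y l) := by
    intro l hl
    have h := hU l hl
    obtain ⟨q1, q2⟩ := gap_hg h.hg h.pre' h.s2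
    rw [hy]
    exact ⟨h.pre, h.s1, h.s2, h.val, q1, q2, hlev l hl⟩
  have inc : ∀ a ∈ U, ∀ b ∈ U, a ≠ b → Inc a b := fun a ha b hb hab =>
    ⟨fun h => hab (anti a ha b hb h), fun h => hab (anti b hb a ha h).symm⟩
  have hE0 : ∀ (V : Finset (List Bool)) (B : ℝ), V = ∅ → 0 ≤ B → M V B := by
    intro V B hV hB
    rw [hV]; exact K.le _ _ _ K.empty hB
  rcases U.eq_empty_or_nonempty with hE | hne
  · exact hE0 _ _ hE (by positivity)
  obtain ⟨N, hN, hNmax⟩ := Finset.exists_max_image U y hne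
  set U0 := U.filter (fun l => κp l = κp N) with hU0
  set U1 := U.filter (fun l => ¬ κp l = κp N) with hU1
  have c0 : M U0 (cb k * (9 * D + 1)) := by
    refine pair_cM K hH hs C hD hk (hU N hN).pn _ φ ?_ (List.prefix_refl k) (fun l hl => (hU l (Finset.mem_filter.mp hl).1).pre)
    intro l hl
    rw [hU0, Finset.mem_filter] at hl
    have h := hU l hl.1
    refine ⟨h.cl, h.pre, ?_, h.s1, h.s2, h.ne, h.val⟩
    rw [← hl.2]; exact h.pre'
  have split0 : ∀ l ∈ U, l ∈ U0 ∨ l ∈ U1 := by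
    intro l hl
    by_cases h : κp l = κp N
    · exact Or.inl (Finset.mem_filter.mpr ⟨hl, h⟩)
    · exact Or.inr (Finset.mem_filter.mpr ⟨hl, h⟩)
  have hfin : ∀ b : ℝ, b ≤ (9 * D + 1) * ((12 * ρ + 4) * W) →
      cb k * (9 * D + 1) + b ≤ (9 * D + 1) * ((12 * ρ + 5) * W) := by
    intro b hb
    have : (9 * D + 1) * ((12 * ρ + 5) * W) = W * (9 * D + 1) + (9 * D + 1) * ((12 * ρ + 4) * W) := by ring
    have h2 := mul_le_mul_of_nonneg_right hkW hD1
    linarith
  have c1 : M U1 ((9 * D + 1) * ((12 * ρ + 4) * W)) := by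
    rcases U1.eq_empty_or_nonempty with hE | hne1
    · exact hE0 _ _ hE (by positivity)
    obtain ⟨Mx, hM, hMmax⟩ := Finset.exists_max_image U1 y hne1
    have mem1 : ∀ l ∈ U1, l ∈ U ∧ κp l ≠ κp N := fun l hl => Finset.mem_filter.mp hl
    set U2 := U1.filter (fun l => y l + ρ ≤ y Mx) with hU2
    have cM : M (U1.filter (fun l => ¬ y l + ρ ≤ y Mx)) ((4 * ρ + 1) * (cb k * (9 * D + 1))) := by
      refine window_cM K hH hs C hD0 hD hk φ κp _ (fun l hl => hU l (mem1 l (Finset.mem_filter.mp hl).1).1) hρ0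
        (x := y Mx - ρ) ?_ (List.prefix_refl k) (fun l hl => (hU l (mem1 l (Finset.mem_filter.mp hl).1).1).pre)
      intro l hl
      rw [Finset.mem_filter, not_le] at hl
      have h1 := hMmax l hl.1
      have h2 := hl.2
      rw [hy] at h1 h2 ⊢
      simp only at h1 h2 ⊢
      constructor <;> linarith
    have hkb : (4 * ρ + 1) * (cb k * (9 * D + 1)) ≤ (4 * ρ + 1) * (W * (9 * D + 1)) := by
      apply mul_le_mul_of_nonneg_left _ (by positivity)
      exact mul_le_mul_of_nonneg_right hkW hD1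
    have c2 : M U2 ((9 * D + 1) * ((8 * ρ + 3) * W)) := by
      rcases U2.eq_empty_or_nonempty with hE | hne2
      · exact hE0 _ _ hE (by positivity)
      obtain ⟨J, hJ, hJmax⟩ := Finset.exists_max_image U2 y hne2
      have mem2 : ∀ l ∈ U2, l ∈ U1 ∧ y l + ρ ≤ y Mx := fun l hl => Finset.mem_filter.mp hl
      set U3 := U2.filter (fun l => y l + ρ ≤ y J) with hU3
      have cJ : M (U2.filter (fun l => ¬ y l + ρ ≤ y J)) ((4 * ρ + 1) * (cb k * (9 * D + 1))) := by
        refine window_cM K hH hs C hD0 hD hk φ κp _ (fun l hl => hU l (mem1 l (mem2 l (Finset.mem_filter.mp hl).1).1).1) hρ0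
          (x := y J - ρ) ?_ (List.prefix_refl k)
          (fun l hl => (hU l (mem1 l (mem2 l (Finset.mem_filter.mp hl).1).1).1).pre)
        intro l hl
        rw [Finset.mem_filter, not_le] at hl
        have h1 := hJmax l hl.1
        have h2 := hl.2
        rw [hy] at h1 h2 ⊢
        simp only at h1 h2 ⊢
        constructor <;> linarith
      -- the main part
      have mJ := mem2 J hJ
      have mJ1 := mem1 J mJ.1
      have mM1 := mem1 Mx hM
      have yNM : y Mx ≤ y N := hNmax Mx mM1.1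
      have hneMN : φ Mx ≠ φ N := by
        intro h
        apply mM1.2
        exact PN_unique (hU Mx mM1.1).pn (hU N hN).pn (hU Mx mM1.1).pre' (by rw [h]; exact (hU N hN).pre')
      have mem3 : ∀ l ∈ U3, l ∈ U ∧ κp l ≠ κp N ∧ y l + ρ ≤ y J ∧ l ≠ N := by
        intro l hl
        have h1 := Finset.mem_filter.mp hl
        have h2 := mem1 l (mem2 l h1.1).1
        refine ⟨h2.1, h2.2, h1.2, ?_⟩
        rintro rfl
        exact h2.2 rfl
      have hch : ∀ l ∈ U3, ∃ κ : List Bool, κ <+: l ∧ k <+: κ ∧ Hg N κ ∧ FF κ.dropLast - ρ / 2 ≤ y l ∧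
          y l ≤ FF κ.dropLast - ρ / 2 + ρ := by
        intro l hl
        obtain ⟨h1, h2, h3, h4⟩ := mem3 l hl
        have iNl := inc N hN l h1 h4.symm
        obtain ⟨m, b, g1, g2⟩ := diverge l N iNl.2 iNl.1
        have hlJ : l ≠ J := by
          rintro rfl
          linarith
        have hJM : J ≠ Mx := by
          rintro rfl
          linarith [mJ.2]
        have hJN : J ≠ N := by
          rintro rfl
          exact mJ1.2 rfl
        have hMN : Mx ≠ N := by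
          rintro rfl
          exact mM1.2 rfl
        have hL := level (by omega) hs gk2.1.2 (dat l h1) (dat J mJ1.1) (dat Mx mM1.1) (dat N hN) h3 mJ.2
          (mJ.2.trans yNM) hneMN (inc l h1 J mJ1.1 hlJ) (inc J mJ1.1 N hN hJN) iNl (inc J mJ1.1 Mx mM1.1 hJM)
          (inc Mx mM1.1 N hN hMN) g1 g2
        refine ⟨m ++ [b], g1, ?_, ⟨m, b, rfl, g2⟩, ?_⟩
        · exact (pre_meet g1 g2 (hU l h1).pre (hU N hN).pre).trans (List.prefix_append _ _)
        · rw [List.dropLast_concat]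
          constructor <;> linarith [hL.1, hL.2]
      choose! κ hκ1 hκ2 hκ3 hκ4 hκ5 using hch
      have c3 : M U3 (((4 * ρ + 1) * (9 * D + 1) + 1) * W) := by
        refine C.hang N ((hU N hN).s1.trans hS0) U3 κ _ (by positivity) (fun l hl => ⟨hκ3 l hl, hκ1 l hl,
          (hU l (mem3 l hl).1).cl⟩) ?_
        intro c hc
        obtain ⟨l0, hl0, rfl⟩ := Finset.mem_image.mp hc
        have := window_cM K hH hs C hD0 hD hk φ κp (U3.filter (fun l => κ l = κ l0))
          (fun l hl => hU l (mem3 l (Finset.mem_filter.mp hl).1).1) hρ0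
          (x := FF (κ l0).dropLast - ρ / 2) (by
            intro l hl
            rw [Finset.mem_filter] at hl
            have q1 := hκ4 l hl.1
            have q2 := hκ5 l hl.1
            rw [hl.2] at q1 q2
            rw [hy] at q1 q2
            exact ⟨q1, q2⟩) (hκ2 l0 hl0) (by
            intro l hl
            rw [Finset.mem_filter] at hl
            rw [← hl.2]; exact hκ1 l hl.1)
        exact K.le _ _ _ this (le_of_eq (by ring))
      have h3 := K.cov U3 _ U2 _ _ c3 cJ (by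
        intro l hl
        by_cases h : y l + ρ ≤ y J
        · exact Or.inl (Finset.mem_filter.mpr ⟨hl, h⟩)
        · exact Or.inr (Finset.mem_filter.mpr ⟨hl, h⟩))
      refine K.le _ _ _ h3 ?_
      have e1 : (9 * D + 1) * ((8 * ρ + 3) * W) = (4 * ρ + 1) * (9 * D + 1) * W + (9 * D + 1) * W +
        (4 * ρ + 1) * (W * (9 * D + 1)) := by ring
      have e2 : 1 * W ≤ (9 * D + 1) * W := mul_le_mul_of_nonneg_right (by linarith) hW
      rw [e1]
      have e3 : ((4 * (ρ : ℝ) + 1) * (9 * D + 1) + 1) * W = (4 * ρ + 1) * (9 * D + 1) * W + 1 * W := by ring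
      rw [e3]
      linarith
    have h2 := K.cov U2 _ U1 _ _ c2 cM (by
      intro l hl
      by_cases h : y l + ρ ≤ y Mx
      · exact Or.inl (Finset.mem_filter.mpr ⟨hl, h⟩)
      · exact Or.inr (Finset.mem_filter.mpr ⟨hl, h⟩))
    refine K.le _ _ _ h2 ?_
    have e1 : (9 * D + 1) * ((12 * ρ + 4) * W) = (9 * D + 1) * ((8 * ρ + 3) * W) + (4 * ρ + 1) * (W * (9 * D + 1)) := by
      ring
    linarith
  refine K.le _ _ _ (K.cov U0 U1 U _ _ c0 c1 split0) ?_
  exact hfin _ le_rfl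

/-- decomposition into antichains -/
theorem antichains_cM {M : Finset (List Bool) → ℝ → Prop} (K : Cost M) {H : ℕ} {L : ℝ} (hL : ChL H L)
    (U : Finset (List Bool)) (hU : ∀ l ∈ U, Exw l ∧ sz l ≤ H) {B : ℝ} (hB0 : 0 ≤ B)
    (hB : ∀ V ⊆ U, (∀ l ∈ V, ∀ l2 ∈ V, l <+: l2 → l = l2) → M V B) : M U ((L + 1) * B) := by
  classical
  have hL0 : 0 ≤ L := by
    have := hL ∅ (by simp) (by simp)
    simpa using this
  obtain ⟨f, hf⟩ : ∃ f : List Bool → ℕ, f = fun l => (U.filter (fun l2 => l2 <+: l ∧ l2 ≠ l)).card := ⟨_, rfl⟩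
  have hfL : ∀ l ∈ U, f l ≤ ⌊L⌋₊ := by
    intro l hl
    apply Nat.le_floor
    rw [hf]
    refine le_trans ?_ (hL (U.filter (fun l2 => l2 <+: l)) (fun x hx => hU x (Finset.mem_filter.mp hx).1) ?_)
    · have : U.filter (fun l2 => l2 <+: l ∧ l2 ≠ l) ⊆ U.filter (fun l2 => l2 <+: l) := by
        intro x hx
        rw [Finset.mem_filter] at hx ⊢
        exact ⟨hx.1, hx.2.1⟩
      exact_mod_cast Finset.card_le_card this
    · intro a ha b hb
      rw [Finset.mem_filter] at ha hb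
      rcases le_total a.length b.length with h | h
      · exact Or.inl (List.prefix_of_prefix_length_le ha.2 hb.2 h)
      · exact Or.inr (List.prefix_of_prefix_length_le hb.2 ha.2 h)
  have h1 := K.sum (Finset.range (⌊L⌋₊ + 1)) (fun t => U.filter (fun l => f l = t)) (fun _ => B) (by
    intro t _
    apply hB _ (Finset.filter_subset _ _)
    intro l hl l2 hl2 hp
    by_contra hne
    rw [Finset.mem_filter] at hl hl2
    have h1 : f l < f l2 := by
      rw [hf]
      apply Finset.card_lt_card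
      rw [Finset.ssubset_iff_of_subset]
      · refine ⟨l, ?_, ?_⟩
        · rw [Finset.mem_filter]; exact ⟨hl.1, hp, hne⟩
        · rw [Finset.mem_filter]; rintro ⟨-, -, h⟩; exact h rfl
      · intro x hx
        rw [Finset.mem_filter] at hx ⊢
        refine ⟨hx.1, hx.2.1.trans hp, ?_⟩
        rintro rfl
        exact hx.2.2 (hx.2.1.eq_of_length (le_antisymm hx.2.1.length_le hp.length_le))
    omega) U (by
    intro l hl
    refine ⟨f l, ?_, Finset.mem_filter.mpr ⟨hl, rfl⟩⟩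
    rw [Finset.mem_range]
    have := hfL l hl
    omega)
  rw [Finset.sum_const, nsmul_eq_mul, Finset.card_range] at h1
  refine K.le _ _ _ h1 ?_
  push_cast
  exact mul_le_mul_of_nonneg_right (by linarith [Nat.floor_le hL0]) hB0

end

end Pool.Agent.N576.MK
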