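import Mathlib
import Pool.Agent.N576.MK.C1

set_option autoImplicit false

/-!
# Costs of sets of exceptional words: two paths, and all exceptional words of a class
-/

namespace Pool.Agent.N576.MK

open Pool.Agent.H499R2 Pool.Agent.TH880.MK

noncomputable section

open scoped Classical in
lemma cover_windows_cM {M : Finset (List Bool) → ℝ → Prop} (K : Cost M) (U : Finset (List Bool)) (m : List Bool → ℝ)
    (S : Finset ℝ) (n : ℕ) (hS : S.card ≤ n) {ρ B : ℝ}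
    (hB0 : 0 ≤ B) (hcov : ∀ u ∈ U, ∃ μ ∈ S, μ ≤ m u ∧ m u ≤ μ + ρ)
    (hB : ∀ μ, M (U.filter (fun u => μ ≤ m u ∧ m u ≤ μ + ρ)) B) : M U (n * B) := by
  have h1 := K.sum S (fun μ => U.filter (fun u => μ ≤ m u ∧ m u ≤ μ + ρ)) (fun _ => B) (fun μ _ => hB μ) U (by
    intro u hu
    obtain ⟨μ, hμ, h⟩ := hcov u hu
    exact ⟨μ, hμ, Finset.mem_filter.mpr ⟨hu, h⟩⟩)
  rw [Finset.sum_const, nsmul_eq_mul] at h1
  exact K.le _ _ _ h1 (mul_le_mul_of_nonneg_right (by exact_mod_cast hS) hB0)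

open scoped Classical in
/-- **Two paths.** -/
theorem two_paths_cM {M : Finset (List Bool) → ℝ → Prop} (K : Cost M) {H ρ S0 : ℕ} (hH : 2 ≤ H) (hρ : 2 ≤ ρ)
    (hS0 : H ≤ S0) (hs : (10 : ℝ) ^ 20 * ((2 * H : ℕ) : ℝ) ^ 20 ≤ 4 ^ ρ)
    {Q : List Bool → Prop} {cb : List Bool → ℝ} {W : ℝ} (C : ClsM M H S0 Q cb W) {D : ℝ} (hD0 : 0 ≤ D)
    (hD : ∀ N : ℕ, N ≠ 0 → N ≤ H ^ 4 → (N.divisors.card : ℝ) ≤ D) {L : ℝ} (hL : ChL H L)
    {P P' : List Bool} (hP : sz P ≤ S0) (φ κ κp : List Bool → List Bool) (S : Finset (List Bool))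
    (hS : ∀ l ∈ S, Set2 H ρ Q P P' φ κ κp l) :
    M S ((9 * D + 1) * W * ((28 * ρ + 7) + (16 * ρ + 4) * (L + 1) * (12 * ρ + 5))) := by
  have hs1 := hs_down hs
  have hρ2 : (2 : ℝ) ≤ ρ := by exact_mod_cast hρ
  have hρ0 : (0 : ℝ) ≤ ρ := by linarith
  have hD1 : 0 ≤ 9 * D + 1 := by linarith
  have hL0 : 0 ≤ L := by
    have := hL ∅ (by simp) (by simp)
    simpa using this
  have hW : 0 ≤ W := C.W0
  obtain ⟨y, hy⟩ : ∃ y : List Bool → ℝ, y = fun l => FF (κp l).dropLast := ⟨_, rfl⟩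
  -- the three parts
  set SA := S.filter (fun l => y l ≤ FF (κ l) - ρ) with hSA
  set SR := S.filter (fun l => ¬ y l ≤ FF (κ l) - ρ) with hSR
  set SC := SR.filter (fun l => FF (κ l) + 2 * ρ ≤ y l) with hSC
  set SB := SR.filter (fun l => ¬ FF (κ l) + 2 * ρ ≤ y l) with hSB
  have mA : ∀ l ∈ SA, l ∈ S ∧ y l ≤ FF (κ l) - ρ := fun l hl => Finset.mem_filter.mp hl
  have mR : ∀ l ∈ SR, l ∈ S ∧ ¬ y l ≤ FF (κ l) - ρ := fun l hl => Finset.mem_filter.mp hl
  have mC : ∀ l ∈ SC, l ∈ S ∧ FF (κ l) + 2 * ρ ≤ y l := fun l hl =>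
    ⟨(mR l (Finset.mem_filter.mp hl).1).1, (Finset.mem_filter.mp hl).2⟩
  have mB : ∀ l ∈ SB, l ∈ S ∧ FF (κ l) - ρ < y l ∧ y l < FF (κ l) + 2 * ρ := fun l hl =>
    ⟨(mR l (Finset.mem_filter.mp hl).1).1, not_le.mp (mR l (Finset.mem_filter.mp hl).1).2,
      not_le.mp (Finset.mem_filter.mp hl).2⟩
  -- part A
  have cA : M SA (((16 * ρ + 4) * (9 * D + 1) + 1) * W) := by
    refine C.hang P hP SA κ _ (by positivity) (fun l hl => ?_) ?_
    · have h := hS l (mA l hl).1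
      exact ⟨h.hg0, h.pre, h.cl⟩
    intro k hk
    obtain ⟨l0, hl0, hk0⟩ := Finset.mem_image.mp hk
    have hkPN : k ∈ PN H ρ := by rw [← hk0]; exact (hS l0 (mA l0 hl0).1).pn0
    have hcbk := C.pos k
    set V := SA.filter (fun l => κ l = k) with hV
    have hVm : ∀ l ∈ V, Set1 H ρ Q k P' φ κp l ∧ FF (κp l).dropLast ≤ FF k - ρ := by
      intro l hl
      have h1 := Finset.mem_filter.mp hl
      have h2 := mA l h1.1
      have h3 := (hS l h2.1).to1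
      have h4 := h2.2
      rw [h1.2] at h3 h4
      rw [hy] at h4
      exact ⟨h3, h4⟩
    rcases windows (fun l => FF (κp l).dropLast) hρ0 4 V with ⟨o, ho, hch⟩ | ⟨T, hT, hcov⟩
    · exact (no_chain_cone (by omega) hs o (fun t => hVm _ (ho t)) hch).elim
    · have := cover_windows_cM K V (fun l => FF (κp l).dropLast) T 4 hT (ρ := ρ) (B := (4 * ρ + 1) * (cb k * (9 * D + 1)))
        (by positivity) hcov (fun μ => by
          refine window_cM K hH hs1 C hD0 hD hkPN φ κp _ (fun l hl => (hVm l (Finset.mem_filter.mp hl).1).1) hρ0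
            (x := μ) (fun l hl => (Finset.mem_filter.mp hl).2) (List.prefix_refl k)
            (fun l hl => (hVm l (Finset.mem_filter.mp hl).1).1.pre))
      refine K.le _ _ _ this (le_of_eq ?_)
      push_cast
      ring
  -- part B
  have cB : M SB (((12 * ρ + 1) * (9 * D + 1) + 1) * W) := by
    refine C.hang P hP SB κ _ (by positivity) (fun l hl => ?_) ?_
    · have h := hS l (mB l hl).1
      exact ⟨h.hg0, h.pre, h.cl⟩
    intro k hk
    obtain ⟨l0, hl0, hk0⟩ := Finset.mem_image.mp hk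
    have hkPN : k ∈ PN H ρ := by rw [← hk0]; exact (hS l0 (mB l0 hl0).1).pn0
    have hVm : ∀ l ∈ SB.filter (fun l => κ l = k), Set1 H ρ Q k P' φ κp l ∧ FF k - ρ ≤ FF (κp l).dropLast ∧
        FF (κp l).dropLast ≤ FF k - ρ + 3 * ρ := by
      intro l hl
      have h1 := Finset.mem_filter.mp hl
      have h2 := mB l h1.1
      have h3 := (hS l h2.1).to1
      have h4 := h2.2
      rw [h1.2] at h3 h4
      rw [hy] at h4
      exact ⟨h3, h4.1.le, by linarith [h4.2]⟩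
    have := window_cM K hH hs1 C hD0 hD hkPN φ κp _ (fun l hl => (hVm l hl).1) (r := 3 * ρ) (by positivity)
      (x := FF k - ρ) (fun l hl => (hVm l hl).2) (List.prefix_refl k) (fun l hl => (hVm l hl).1.pre)
    refine K.le _ _ _ this (le_of_eq ?_)
    ring
  -- part C
  have cC : M SC ((16 * ρ + 4) * ((L + 1) * ((9 * D + 1) * ((12 * ρ + 5) * W)))) := by
    rcases windows (fun l => FF (κ l).dropLast) hρ0 4 SC with ⟨o, ho, hch⟩ | ⟨T, hT, hcov⟩
    · refine (no_chain_path (by omega) (by omega) hs1 (P := P) (P' := P') (Q := Q) (φ := φ) (κ := κ) (κp := κp) o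
        (fun t => ?_) hch).elim
      have h1 := mC _ (ho t)
      refine ⟨hS _ h1.1, ?_⟩
      have := h1.2
      rw [hy] at this
      exact this
    · have := cover_windows_cM K SC (fun l => FF (κ l).dropLast) T 4 hT (ρ := ρ)
        (B := (4 * ρ + 1) * ((L + 1) * ((9 * D + 1) * ((12 * ρ + 5) * W))))
        (by positivity) hcov (fun μ => by
          set V := SC.filter (fun l => μ ≤ FF (κ l).dropLast ∧ FF (κ l).dropLast ≤ μ + ρ) with hV
          have hVm : ∀ l ∈ V, l ∈ SC ∧ μ ≤ FF (κ l).dropLast ∧ FF (κ l).dropLast ≤ μ + ρ :=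
            fun l hl => Finset.mem_filter.mp hl
          have hB0 : 0 ≤ (L + 1) * ((9 * D + 1) * ((12 * ρ + 5) * W)) := by positivity
          apply K.image κ hB0
          · refine le_trans ?_ (hang_window (PN H ρ) P hρ0 μ)
            have : V.image κ ⊆ ((PN H ρ).filter (Hg P)).filter fun k => μ ≤ FF k.dropLast ∧ FF k.dropLast ≤ μ + ρ := by
              intro k hk
              obtain ⟨l, hl, rfl⟩ := Finset.mem_image.mp hk
              have h := hS l (mC l (hVm l hl).1).1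
              rw [Finset.mem_filter, Finset.mem_filter]
              exact ⟨⟨h.pn0, h.hg0⟩, (hVm l hl).2⟩
            exact_mod_cast Finset.card_le_card this
          · intro k hk
            obtain ⟨l0, hl0, hk0⟩ := Finset.mem_image.mp hk
            have hl0S := (mC l0 (hVm l0 hl0).1).1
            have hkPN : k ∈ PN H ρ := by rw [← hk0]; exact (hS l0 hl0S).pn0
            have hV2 : ∀ l ∈ V.filter (fun l => κ l = k), Set1 H ρ Q k P' φ κp l ∧
                FF k + 2 * ρ ≤ FF (κp l).dropLast := by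
              intro l hl
              have h1 := Finset.mem_filter.mp hl
              have h2 := mC l (hVm l h1.1).1
              have h3 := (hS l h2.1).to1
              have h4 := h2.2
              rw [h1.2] at h3 h4
              rw [hy] at h4
              exact ⟨h3, h4⟩
            refine antichains_cM K hL _ (fun l hl => ⟨⟨φ l, (hV2 l hl).1.ne, (hV2 l hl).1.val⟩, (hV2 l hl).1.s1⟩)
              (by positivity) ?_
            intro V' hV' hanti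
            exact fixed_cM K hH hρ hS0 hs1 C hD0 hD hkPN φ κp V' (fun l hl => (hV2 l (hV' hl)).1)
              (fun l hl => (hV2 l (hV' hl)).2) hanti)
      refine K.le _ _ _ this (le_of_eq ?_)
      push_cast
      ring
  have c1 := K.cov SC SB SR _ _ cC cB (by
    intro l hl
    by_cases h : FF (κ l) + 2 * ρ ≤ y l
    · exact Or.inl (Finset.mem_filter.mpr ⟨hl, h⟩)
    · exact Or.inr (Finset.mem_filter.mpr ⟨hl, h⟩))
  have c2 := K.cov SA SR S _ _ cA c1 (by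
    intro l hl
    by_cases h : y l ≤ FF (κ l) - ρ
    · exact Or.inl (Finset.mem_filter.mpr ⟨hl, h⟩)
    · exact Or.inr (Finset.mem_filter.mpr ⟨hl, h⟩))
  refine K.le _ _ _ c2 ?_
  have e : (9 * D + 1) * W * ((28 * ρ + 7) + (16 * ρ + 4) * (L + 1) * (12 * ρ + 5)) =
      ((16 * ρ + 4) * (9 * D + 1) + (9 * D + 1)) * W + ((16 * ρ + 4) * ((L + 1) * ((9 * D + 1) * ((12 * ρ + 5) * W))) +
        ((12 * ρ + 1) * (9 * D + 1) + (9 * D + 1)) * W) := by ring
  rw [e]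
  have e1 : (((16 * ρ + 4) * (9 * D + 1) + 1) * W) ≤ ((16 * ρ + 4) * (9 * D + 1) + (9 * D + 1)) * W := by
    apply mul_le_mul_of_nonneg_right _ hW; linarith
  have e2 : (((12 * ρ + 1) * (9 * D + 1) + 1) * W) ≤ ((12 * ρ + 1) * (9 * D + 1) + (9 * D + 1)) * W := by
    apply mul_le_mul_of_nonneg_right _ hW; linarith
  linarith

lemma Cost.card {M : Finset (List Bool) → ℝ → Prop} (K : Cost M) {Z : Finset (List Bool)} {W n : ℝ} (hW : 0 ≤ W)
    (h : ∀ l ∈ Z, M {l} W) (hn : (Z.card : ℝ) ≤ n) : M Z (n * W) := by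
  classical
  have h1 := K.sum Z (fun l => {l}) (fun _ => W) h Z (fun l hl => ⟨l, hl, Finset.mem_singleton_self l⟩)
  rw [Finset.sum_const, nsmul_eq_mul] at h1
  exact K.le _ _ _ h1 (mul_le_mul_of_nonneg_right hn hW)

open scoped Classical in
/-- **The cost of the exceptional words of a class.** -/
theorem class_cM {M : Finset (List Bool) → ℝ → Prop} (K : Cost M) {H ρ S0 : ℕ} (hH : 2 ≤ H) (hρ : 2 ≤ ρ)
    (hS0 : 2 * ρ * (H + 2) ≤ S0)
    (hs : (10 : ℝ) ^ 20 * ((2 * H : ℕ) : ℝ) ^ 20 ≤ 4 ^ ρ)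
    {Q : List Bool → Prop} {cb : List Bool → ℝ} {W : ℝ} (C : ClsM M H S0 Q cb W) {D : ℝ} (hD0 : 0 ≤ D)
    (hD : ∀ N : ℕ, N ≠ 0 → N ≤ H ^ 4 → (N.divisors.card : ℝ) ≤ D) {L : ℝ} (hL : ChL H L)
    (Z : Finset (List Bool)) (hZ : ∀ l ∈ Z, Q l ∧ sz l ≤ H ∧ ∃ l', sz l' ≤ H ∧ l' ≠ l ∧ FF l' = FF l) :
    M Z ((19 * ρ ^ 2 + 6) ^ 2 * ((9 * D + 1) * W * ((28 * ρ + 7) + (16 * ρ + 4) * (L + 1) * (12 * ρ + 5))) +
      2 * ((10 * ρ ^ 2 + 4) * L * W)) := by
  have hs1 := hs_down hs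
  have hL0 : 0 ≤ L := by
    have := hL ∅ (by simp) (by simp)
    simpa using this
  have hW : 0 ≤ W := C.W0
  set Bd := BW H ρ with hBd
  set Z0 := Z.filter (fun l => l ∈ Bd) with hZ0
  set ZR := Z.filter (fun l => ¬ l ∈ Bd) with hZR
  set Z1 := ZR.filter (fun l => ∃ l', sz l' ≤ H ∧ l' ∉ Bd ∧ l' ≠ l ∧ FF l' = FF l) with hZ1
  set Z2 := ZR.filter (fun l => ¬ ∃ l', sz l' ≤ H ∧ l' ∉ Bd ∧ l' ≠ l ∧ FF l' = FF l) with hZ2
  have hBx := BWx_card hρ (by omega) hs1 hL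
  have c0 : M Z0 ((10 * ρ ^ 2 + 4) * L * W) := by
    apply K.card hW (fun l hl => C.one l (hZ l (Finset.mem_filter.mp hl).1).1)
    refine le_trans ?_ hBx
    have : Z0 ⊆ (BW H ρ).filter Exw := by
      intro l hl
      have h := Finset.mem_filter.mp hl
      obtain ⟨-, -, l', -, h2, h3⟩ := hZ l h.1
      exact Finset.mem_filter.mpr ⟨h.2, l', h2, h3⟩
    exact_mod_cast Finset.card_le_card this
  have mR : ∀ l ∈ ZR, l ∈ Z ∧ l ∉ Bd := fun l hl => Finset.mem_filter.mp hl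
  have m2 : ∀ l ∈ Z2, l ∈ ZR ∧ ¬ ∃ l', sz l' ≤ H ∧ l' ∉ Bd ∧ l' ≠ l ∧ FF l' = FF l :=
    fun l hl => Finset.mem_filter.mp hl
  have c2 : M Z2 ((10 * ρ ^ 2 + 4) * L * W) := by
    apply K.card hW (fun l hl => C.one l (hZ l (mR l (m2 l hl).1).1).1)
    refine le_trans ?_ hBx
    have hch : ∀ l ∈ Z2, ∃ l', l' ∈ Bd ∧ l' ≠ l ∧ FF l' = FF l := by
      intro l hl
      obtain ⟨h1, h2⟩ := m2 l hl
      obtain ⟨-, -, l', h3, h4, h5⟩ := hZ l (mR l h1).1
      refine ⟨l', ?_, h4, h5⟩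
      by_contra hb
      exact h2 ⟨l', h3, hb, h4, h5⟩
    choose! ψ hψ1 hψ2 hψ3 using hch
    have : Z2.card ≤ ((BW H ρ).filter Exw).card := by
      apply Finset.card_le_card_of_injOn ψ
      · intro l hl
        exact Finset.mem_filter.mpr ⟨hψ1 l hl, l, (hψ2 l hl).symm, (hψ3 l hl).symm⟩
      · intro a ha b hb hab
        by_contra hne
        have hfa := hψ3 a ha
        have hfb := hψ3 b hb
        have ha' := m2 a ha
        have hb' := m2 b hb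
        apply ha'.2
        exact ⟨b, (hZ b (mR b hb'.1).1).2.1, (mR b hb'.1).2, Ne.symm hne, by rw [← hfb, ← hab, hfa]⟩
    exact_mod_cast this
  -- the main part
  have m1 : ∀ l ∈ Z1, (Q l ∧ sz l ≤ H) ∧ l ∉ Bd ∧ ∃ l', sz l' ≤ H ∧ l' ∉ Bd ∧ l' ≠ l ∧ FF l' = FF l := by
    intro l hl
    have h := Finset.mem_filter.mp hl
    have h2 := mR l h.1
    exact ⟨⟨(hZ l h2.1).1, (hZ l h2.1).2.1⟩, h2.2, h.2⟩
  have hch : ∀ l ∈ Z1, ∃ l', sz l' ≤ H ∧ l' ∉ Bd ∧ l' ≠ l ∧ FF l' = FF l := fun l hl => (m1 l hl).2.2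
  choose! φ hφ1 hφ2 hφ3 hφ4 using hch
  have hK : ∀ l, sz l ≤ H → l ∉ Bd → ∃ k, k ∈ PN H ρ ∧ k <+: l := by
    intro l h1 h2
    by_contra hno
    exact h2 (mem_BW.mpr ⟨h1, hno⟩)
  choose! Kf hK1 hK2 using hK
  have hPth : ∀ k, k ∈ PN H ρ → ∃ P ∈ Paths H ρ, Hg P k := fun k hk => PN_cover hρ (by omega) hs1 hk
  choose! Pt hPt1 hPt2 using hPth
  have f1 : ∀ l ∈ Z1, Kf l ∈ PN H ρ ∧ Kf l <+: l := fun l hl =>
    ⟨hK1 l (m1 l hl).1.2 (m1 l hl).2.1, hK2 l (m1 l hl).1.2 (m1 l hl).2.1⟩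
  have f2 : ∀ l ∈ Z1, Kf (φ l) ∈ PN H ρ ∧ Kf (φ l) <+: φ l := fun l hl =>
    ⟨hK1 _ (hφ1 l hl) (hφ2 l hl), hK2 _ (hφ1 l hl) (hφ2 l hl)⟩
  obtain ⟨B, hB⟩ : ∃ B : ℝ, B = (9 * D + 1) * W * ((28 * ρ + 7) + (16 * ρ + 4) * (L + 1) * (12 * ρ + 5)) := ⟨_, rfl⟩
  have hB0 : 0 ≤ B := by rw [hB]; positivity
  rw [← hB]
  have c1 : M Z1 ((19 * ρ ^ 2 + 6) ^ 2 * B) := by
    have e1 := K.sum (Paths H ρ ×ˢ Paths H ρ) (fun pp => Z1.filter (fun l => (Pt (Kf l), Pt (Kf (φ l))) = pp))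
      (fun _ => B) (by
      rintro ⟨P, P'⟩ hpp
      rw [Finset.mem_product] at hpp
      rw [hB]
      refine two_paths_cM K hH hρ (by nlinarith) hs C hD0 hD hL ((Paths_sz (by omega) hH hpp.1).trans hS0) φ Kf
        (fun l => Kf (φ l)) (P := P) (P' := P') _ ?_
      intro l hl
      have h := Finset.mem_filter.mp hl
      have ep : Pt (Kf l) = P := congrArg Prod.fst h.2
      have ep' : Pt (Kf (φ l)) = P' := congrArg Prod.snd h.2
      refine ⟨(m1 l h.1).1.1, (f1 l h.1).1, (f1 l h.1).2, ?_, (m1 l h.1).1.2, hφ1 l h.1, hφ3 l h.1, hφ4 l h.1,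
        (f2 l h.1).1, (f2 l h.1).2, ?_⟩
      · rw [← ep]; exact hPt2 _ (f1 l h.1).1
      · rw [← ep']; exact hPt2 _ (f2 l h.1).1) Z1 (by
      intro l hl
      exact ⟨(Pt (Kf l), Pt (Kf (φ l))), Finset.mem_product.mpr ⟨hPt1 _ (f1 l hl).1, hPt1 _ (f2 l hl).1⟩,
        Finset.mem_filter.mpr ⟨hl, rfl⟩⟩)
    rw [Finset.sum_const, nsmul_eq_mul, Finset.card_product] at e1
    refine K.le _ _ _ e1 ?_
    push_cast
    apply mul_le_mul_of_nonneg_right _ hB0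
    have h2 : ((Paths H ρ).card : ℝ) ≤ 19 * ρ ^ 2 + 6 := by exact_mod_cast Paths_card hρ (by omega) hs1
    rw [← sq]
    exact pow_le_pow_left₀ (by positivity) h2 2
  have c3 := K.cov Z1 Z2 ZR _ _ c1 c2 (by
    intro l hl
    by_cases h : ∃ l', sz l' ≤ H ∧ l' ∉ Bd ∧ l' ≠ l ∧ FF l' = FF l
    · exact Or.inl (Finset.mem_filter.mpr ⟨hl, h⟩)
    · exact Or.inr (Finset.mem_filter.mpr ⟨hl, h⟩))
  have c4 := K.cov Z0 ZR Z _ _ c0 c3 (by
    intro l hl
    by_cases h : l ∈ Bd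
    · exact Or.inl (Finset.mem_filter.mpr ⟨hl, h⟩)
    · exact Or.inr (Finset.mem_filter.mpr ⟨hl, h⟩))
  exact K.le _ _ _ c4 (by linarith)

end

end Pool.Agent.N576.MK
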