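import Mathlib
import Pool.Agent.N576.MK.C2
import Pool.Agent.N576.MK.A9

set_option autoImplicit false

/-!
# Costs given by bounds for cones and for single words
-/

namespace Pool.Agent.N576.MK

open Pool.Agent.H499R2 Pool.Agent.TH880.MK

noncomputable section

/-- **The cost of the exceptional words of a class, numerically.** -/
theorem cost_num : ∃ C : ℝ, 0 < C ∧
    ∀ H : ℕ, 2 ≤ H → ∀ D : ℝ, 0 ≤ D → (∀ N : ℕ, N ≠ 0 → N ≤ H ^ 4 → (N.divisors.card : ℝ) ≤ D) →
    ∀ (M : Finset (List Bool) → ℝ → Prop), Cost M →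
    ∀ (Q : List Bool → Prop) (cb : List Bool → ℝ) (W : ℝ), ClsM M H (s0 H) Q cb W → ∀ Z : Finset (List Bool),
    (∀ l ∈ Z, Q l ∧ sz l ≤ H ∧ ∃ l', sz l' ≤ H ∧ l' ≠ l ∧ FF l' = FF l) →
    M Z (C * lm H ^ 11 * (9 * D + 1) * W) := by
  obtain ⟨-, -, L0, hL0, hChL, -⟩ := count_num
  refine ⟨441 * 41 ^ 4 * (322 * 41 ^ 2 * (L0 + 1)) + 22 * 41 ^ 2 * L0, by positivity, ?_⟩
  intro H hH D hD0 hD M K Q cb W hC Z hZ
  obtain ⟨f1, f2, f3, f4, f5, -, -⟩ := rh_facts hH
  have hl := lm_two (show 1 ≤ H by omega)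
  have hW := hC.W0
  have main := class_cM K hH f3 (le_refl (s0 H)) f1 hC hD0 hD (hChL H hH) Z hZ
  set ρ : ℝ := (rh H : ℝ) with hρ
  set l := lm H with hld
  have hρ2 : (2 : ℝ) ≤ ρ := by rw [hρ]; exact_mod_cast f3
  have hρ0 : (0 : ℝ) ≤ ρ := by linarith
  have hl1 : 1 ≤ l := by linarith
  have hl0 : 0 ≤ l := by linarith
  have a1 : (19 * ρ ^ 2 + 6) ^ 2 ≤ 441 * 41 ^ 4 * l ^ 4 := by
    have e1 : 19 * ρ ^ 2 + 6 ≤ 21 * ρ ^ 2 := by nlinarith
    have e2 : ρ ^ 2 ≤ (41 * l) ^ 2 := pow_le_pow_left₀ hρ0 f2 2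
    calc (19 * ρ ^ 2 + 6) ^ 2 ≤ (21 * (41 * l) ^ 2) ^ 2 := pow_le_pow_left₀ (by positivity) (by linarith) 2
      _ = _ := by ring
  have a2 : (28 * ρ + 7) + (16 * ρ + 4) * (L0 * l ^ 5 + 1) * (12 * ρ + 5) ≤ 322 * 41 ^ 2 * (L0 + 1) * l ^ 7 := by
    have e1 : 28 * ρ + 7 ≤ 32 * ρ := by linarith
    have e2 : 16 * ρ + 4 ≤ 18 * ρ := by linarith
    have e3 : 12 * ρ + 5 ≤ 15 * ρ := by linarith
    have e4 : (1 : ℝ) ≤ l ^ 5 := one_le_pow₀ hl1
    have e5 : L0 * l ^ 5 + 1 ≤ (L0 + 1) * l ^ 5 := by linarith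
    have e6 : (16 * ρ + 4) * (L0 * l ^ 5 + 1) * (12 * ρ + 5) ≤ (18 * ρ) * ((L0 + 1) * l ^ 5) * (15 * ρ) := by
      apply mul_le_mul _ e3 (by positivity) (by positivity)
      exact mul_le_mul e2 e5 (by positivity) (by positivity)
    have e7 : ρ ^ 2 ≤ (41 * l) ^ 2 := pow_le_pow_left₀ hρ0 f2 2
    have e8 : 32 * ρ ≤ 32 * (ρ ^ 2 * ((L0 + 1) * l ^ 5)) := by
      have g1 : (1 : ℝ) ≤ (L0 + 1) * l ^ 5 := by nlinarith
      have g2 : ρ ≤ ρ ^ 2 := by nlinarith
      have g3 : ρ ^ 2 ≤ ρ ^ 2 * ((L0 + 1) * l ^ 5) := le_mul_of_one_le_right (by positivity) g1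
      linarith
    have e9 : (0 : ℝ) ≤ (41 * l) ^ 2 * ((L0 + 1) * l ^ 5) := by positivity
    calc (28 * ρ + 7) + (16 * ρ + 4) * (L0 * l ^ 5 + 1) * (12 * ρ + 5)
        ≤ 32 * (ρ ^ 2 * ((L0 + 1) * l ^ 5)) + (18 * ρ) * ((L0 + 1) * l ^ 5) * (15 * ρ) := by linarith
      _ = 302 * (ρ ^ 2 * ((L0 + 1) * l ^ 5)) := by ring
      _ ≤ 302 * ((41 * l) ^ 2 * ((L0 + 1) * l ^ 5)) := by
          apply mul_le_mul_of_nonneg_left _ (by norm_num)
          exact mul_le_mul_of_nonneg_right e7 (by positivity)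
      _ ≤ 322 * ((41 * l) ^ 2 * ((L0 + 1) * l ^ 5)) := by linarith
      _ = _ := by ring
  have a3 : 2 * ((10 * ρ ^ 2 + 4) * (L0 * l ^ 5) * W) ≤ 22 * 41 ^ 2 * L0 * l ^ 7 * W := by
    have e1 : 10 * ρ ^ 2 + 4 ≤ 11 * ρ ^ 2 := by nlinarith
    have e7 : ρ ^ 2 ≤ (41 * l) ^ 2 := pow_le_pow_left₀ hρ0 f2 2
    calc 2 * ((10 * ρ ^ 2 + 4) * (L0 * l ^ 5) * W) ≤ 2 * ((11 * (41 * l) ^ 2) * (L0 * l ^ 5) * W) := by
          apply mul_le_mul_of_nonneg_left _ (by norm_num)
          apply mul_le_mul_of_nonneg_right _ hW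
          exact mul_le_mul_of_nonneg_right (by linarith) (by positivity)
      _ = _ := by ring
  refine K.le _ _ _ main ?_
  have hDW : 0 ≤ (9 * D + 1) * W := by positivity
  have b1 : (19 * ρ ^ 2 + 6) ^ 2 * ((9 * D + 1) * W * ((28 * ρ + 7) + (16 * ρ + 4) * (L0 * l ^ 5 + 1) * (12 * ρ + 5))) ≤
      (441 * 41 ^ 4 * l ^ 4) * ((9 * D + 1) * W * (322 * 41 ^ 2 * (L0 + 1) * l ^ 7)) := by
    apply mul_le_mul a1 _ (by positivity) (by positivity)
    exact mul_le_mul_of_nonneg_left a2 hDW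
  have b2 : 22 * 41 ^ 2 * L0 * l ^ 7 * W ≤ 22 * 41 ^ 2 * L0 * l ^ 11 * ((9 * D + 1) * W) := by
    have e1 : l ^ 7 ≤ l ^ 11 := pow_le_pow_right₀ hl1 (by norm_num)
    have e2 : W ≤ (9 * D + 1) * W := le_mul_of_one_le_left hW (by linarith)
    calc 22 * 41 ^ 2 * L0 * l ^ 7 * W ≤ 22 * 41 ^ 2 * L0 * l ^ 11 * W := by
          apply mul_le_mul_of_nonneg_right _ hW
          exact mul_le_mul_of_nonneg_left e1 (by positivity)
      _ ≤ _ := mul_le_mul_of_nonneg_left e2 (by positivity)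
  calc _ ≤ 441 * 41 ^ 4 * (322 * 41 ^ 2 * (L0 + 1)) * l ^ 11 * ((9 * D + 1) * W) +
        22 * 41 ^ 2 * L0 * l ^ 11 * ((9 * D + 1) * W) := by
          have e : (441 * 41 ^ 4 * l ^ 4) * ((9 * D + 1) * W * (322 * 41 ^ 2 * (L0 + 1) * l ^ 7)) =
            441 * 41 ^ 4 * (322 * 41 ^ 2 * (L0 + 1)) * l ^ 11 * ((9 * D + 1) * W) := by ring
          linarith
    _ = _ := by ring

/-- the same with a power of `H` -/
theorem cost_eps (ε : ℝ) (hε : 0 < ε) : ∃ C : ℝ, 0 < C ∧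
    ∀ H : ℕ, 2 ≤ H → ∀ (M : Finset (List Bool) → ℝ → Prop), Cost M →
    ∀ (Q : List Bool → Prop) (cb : List Bool → ℝ) (W : ℝ), ClsM M H (s0 H) Q cb W → ∀ Z : Finset (List Bool),
    (∀ l ∈ Z, Q l ∧ sz l ≤ H ∧ ∃ l', sz l' ≤ H ∧ l' ≠ l ∧ FF l' = FF l) →
    M Z (C * (H : ℝ) ^ ε * W) := by
  obtain ⟨C1, hC1, hcount⟩ := cost_num
  obtain ⟨C2, hC2, hdiv⟩ := div_H (ε / 2) (by positivity)
  obtain ⟨C3, hC3, hlm⟩ := lm_pow 11 (ε / 2) (by positivity)
  refine ⟨C1 * C3 * (9 * C2 + 1), by positivity, fun H hH M K Q cb W hCls Z hZ => ?_⟩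
  have hH1 : (1 : ℝ) ≤ H := by exact_mod_cast (by omega : 1 ≤ H)
  have hl := lm_two (show 1 ≤ H by omega)
  have hW := hCls.W0
  have hp : (1 : ℝ) ≤ (H : ℝ) ^ (ε / 2) := Real.one_le_rpow hH1 (by positivity)
  have h1 := hcount H hH (C2 * (H : ℝ) ^ (ε / 2)) (by positivity) (fun N hN hNH => hdiv H (by omega) N hN hNH)
    M K Q cb W hCls Z hZ
  refine K.le _ _ _ h1 ?_
  have h2 : 9 * (C2 * (H : ℝ) ^ (ε / 2)) + 1 ≤ (9 * C2 + 1) * (H : ℝ) ^ (ε / 2) := by nlinarith
  have h4 := hlm H (by omega)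
  have hl0 : 0 ≤ lm H := by linarith
  calc C1 * lm H ^ 11 * (9 * (C2 * (H : ℝ) ^ (ε / 2)) + 1) * W
      ≤ C1 * (C3 * (H : ℝ) ^ (ε / 2)) * ((9 * C2 + 1) * (H : ℝ) ^ (ε / 2)) * W := by
        apply mul_le_mul_of_nonneg_right _ hW
        apply mul_le_mul _ h2 (by positivity) (by positivity)
        exact mul_le_mul_of_nonneg_left h4 hC1.le
    _ = C1 * C3 * (9 * C2 + 1) * ((H : ℝ) ^ (ε / 2) * (H : ℝ) ^ (ε / 2)) * W := by ring
    _ = _ := by rw [← Real.rpow_add (by linarith)]; congr 3; ring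

/-- bounds for cones of two levels `r ≤ R` and for single words -/
structure Lvl (M : Finset (List Bool) → ℝ → Prop) (Q : List Bool → Prop) (r R : ℕ) (A a w : ℝ) : Prop where
  A0 : 0 ≤ A
  a0 : 0 ≤ a
  w0 : 0 ≤ w
  nodeR : ∀ (i : List Bool) (X : Finset (List Bool)), R < sz i → (∀ l ∈ X, Q l ∧ i <+: l) → M X a
  noder : ∀ (i : List Bool) (X : Finset (List Bool)), r < sz i → (∀ l ∈ X, Q l ∧ i <+: l) → M X A
  one : ∀ l, Q l → M {l} w
  large : ∀ l, Q l → R < sz l

/-- the branching nodes control the cost -/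
lemma Lvl.ind {M : Finset (List Bool) → ℝ → Prop} (K : Cost M) {Q : List Bool → Prop} {r R : ℕ} {A a w : ℝ}
    (T : Lvl M Q r R A a w) (X : Finset (List Bool)) (hX : ∀ l ∈ X, Q l) {m : ℕ} (k : List Bool)
    (hp : m ≤ (desc root k).p) (hq : m ≤ (desc root k).q) (n : ℕ) :
    ∀ i, k <+: i → R < sz i + m * n → ∀ Y : Finset (List Bool), (∀ l ∈ Y, l ∈ X ∧ i <+: l) →
      M Y (((cnt (Bst X) i : ℕ) + 1 : ℝ) * a + (2 * (cnt (Bst X) i : ℕ) + 1 : ℝ) * n * w) := by
  classical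
  have ha := T.a0
  have hw := T.w0
  have base : ∀ (n : ℕ) (i : List Bool), R < sz i → ∀ Y : Finset (List Bool), (∀ l ∈ Y, l ∈ X ∧ i <+: l) →
      M Y (((cnt (Bst X) i : ℕ) + 1 : ℝ) * a + (2 * (cnt (Bst X) i : ℕ) + 1 : ℝ) * n * w) := by
    intro n i hi Y hY
    refine K.le _ _ _ (T.nodeR i Y hi (fun l hl => ⟨hX l (hY l hl).1, (hY l hl).2⟩)) ?_
    have h1 : (0 : ℝ) ≤ (cnt (Bst X) i : ℕ) := Nat.cast_nonneg _
    have h2 : 0 ≤ (2 * (cnt (Bst X) i : ℕ) + 1 : ℝ) * n * w := by positivity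
    nlinarith [mul_nonneg h1 ha]
  induction n with
  | zero =>
    intro i hki hi Y hY
    exact base 0 i (by simpa using hi) Y hY
  | succ n ih =>
    intro i hki hi Y hY
    by_cases hbig : R < sz i
    · exact base (n + 1) i hbig Y hY
    have hpq := pq_prefix hki
    have h1 := sz_child_ge (hp.trans hpq.1) (hq.trans hpq.2) true
    have h2 := sz_child_ge (hp.trans hpq.1) (hq.trans hpq.2) false
    have hm : m * (n + 1) = m * n + m := by ring
    rw [hm] at hi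
    have hYc : ∀ l ∈ Y, l ∈ Y.filter (fun l => i ++ [true] <+: l) ∨ l ∈ Y.filter (fun l => i ++ [false] <+: l) := by
      intro l hl
      obtain ⟨h3, t, h4⟩ := hY l hl
      cases t with
      | nil =>
        exfalso
        rw [List.append_nil] at h4
        rw [← h4] at h3
        exact hbig (T.large _ (hX _ h3))
      | cons c t =>
        cases c
        · right
          exact Finset.mem_filter.mpr ⟨hl, t, by rw [← h4]; simp⟩
        · left
          exact Finset.mem_filter.mpr ⟨hl, t, by rw [← h4]; simp⟩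
    have i1 := ih (i ++ [true]) (hki.trans (List.prefix_append _ _)) (by omega)
      (Y.filter (fun l => i ++ [true] <+: l)) (fun l hl => ⟨(hY l (Finset.mem_filter.mp hl).1).1, (Finset.mem_filter.mp hl).2⟩)
    have i2 := ih (i ++ [false]) (hki.trans (List.prefix_append _ _)) (by omega)
      (Y.filter (fun l => i ++ [false] <+: l)) (fun l hl => ⟨(hY l (Finset.mem_filter.mp hl).1).1, (Finset.mem_filter.mp hl).2⟩)
    have hrecB := cnt_rec (Bst X) i
    -- small children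
    have small : ∀ c : Bool, ¬ 2 ≤ cnt X (i ++ [c]) → M (Y.filter (fun l => i ++ [c] <+: l)) w := by
      intro c hc
      have h3 : (Y.filter (fun l => i ++ [c] <+: l)).card ≤ 1 := by
        refine le_trans ?_ (show cnt X (i ++ [c]) ≤ 1 by omega)
        unfold cnt
        apply Finset.card_le_card
        intro l hl
        rw [Finset.mem_filter] at hl ⊢
        exact ⟨(hY l hl.1).1, hl.2⟩
      rcases (Y.filter (fun l => i ++ [c] <+: l)).eq_empty_or_nonempty with h4 | ⟨l, hl⟩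
      · rw [h4]; exact K.le _ _ _ K.empty hw
      · rw [Finset.card_le_one_iff_subset_singleton] at h3
        obtain ⟨l0, hl0⟩ := h3
        refine K.mono (T.one l (hX l (hY l (Finset.mem_filter.mp hl).1).1)) ?_
        intro l' hl'
        have e1 := Finset.mem_singleton.mp (hl0 hl)
        have e2 := Finset.mem_singleton.mp (hl0 hl')
        rw [Finset.mem_singleton, e1, e2]
    set gt := cnt (Bst X) (i ++ [true]) with hgt
    set gf := cnt (Bst X) (i ++ [false]) with hgf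
    have hgt0 : (0 : ℝ) ≤ gt := Nat.cast_nonneg _
    have hgf0 : (0 : ℝ) ≤ gf := Nat.cast_nonneg _
    have hn0 : (0 : ℝ) ≤ n := Nat.cast_nonneg _
    by_cases hbr : BrF X i
    · rw [if_pos (mem_Bst hbr)] at hrecB
      refine K.le _ _ _ (K.cov _ _ Y _ _ i1 i2 hYc) ?_
      have e : ((cnt (Bst X) i : ℕ) : ℝ) = 1 + gt + gf := by rw [hrecB]; push_cast; ring
      rw [e]
      push_cast
      nlinarith [mul_nonneg hgt0 hw, mul_nonneg hgf0 hw, mul_nonneg hn0 hw, mul_nonneg (mul_nonneg hgt0 hn0) hw]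
    · have hge : gt + gf ≤ cnt (Bst X) i := by
        have : (0 : ℕ) ≤ (if i ∈ Bst X then 1 else 0) := Nat.zero_le _
        omega
      have hge' : (gt : ℝ) + gf ≤ (cnt (Bst X) i : ℕ) := by exact_mod_cast hge
      have hfin : ∀ g : ℝ, 0 ≤ g → g ≤ (cnt (Bst X) i : ℕ) →
          ((g + 1) * a + (2 * g + 1) * n * w) + w ≤
            ((cnt (Bst X) i : ℕ) + 1 : ℝ) * a + (2 * (cnt (Bst X) i : ℕ) + 1 : ℝ) * ((n + 1 : ℕ) : ℝ) * w := by
        intro g hg0 hg
        have g1 : (g + 1) * a ≤ ((cnt (Bst X) i : ℕ) + 1 : ℝ) * a := mul_le_mul_of_nonneg_right (by linarith) ha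
        have g2 : (2 * g + 1) * n * w + w ≤ (2 * (cnt (Bst X) i : ℕ) + 1 : ℝ) * ((n + 1 : ℕ) : ℝ) * w := by
          have g3 : (2 * g + 1) * n + 1 ≤ (2 * (cnt (Bst X) i : ℕ) + 1 : ℝ) * ((n + 1 : ℕ) : ℝ) := by
            push_cast
            have g4 : (2 * g + 1) * n ≤ (2 * (cnt (Bst X) i : ℕ) + 1 : ℝ) * n :=
              mul_le_mul_of_nonneg_right (by linarith) hn0
            have g5 : (0 : ℝ) ≤ (cnt (Bst X) i : ℕ) := Nat.cast_nonneg _
            linarith
          calc (2 * g + 1) * n * w + w = ((2 * g + 1) * n + 1) * w := by ring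
            _ ≤ _ := mul_le_mul_of_nonneg_right g3 hw
        linarith
      by_cases hb : 2 ≤ cnt X (i ++ [true])
      · have hb2 : ¬ 2 ≤ cnt X (i ++ [false]) := fun h3 => hbr ⟨hb, h3⟩
        refine K.le _ _ _ (K.cov _ _ Y _ _ i1 (small false hb2) hYc) (hfin _ hgt0 (by linarith))
      · refine K.le _ _ _ (K.cov _ _ Y _ _ i2 (small true hb) (fun l hl => (hYc l hl).symm)) (hfin _ hgf0 (by linarith))

open scoped Classical in
/-- **The class of a level structure.** -/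
theorem Lvl.cls {M : Finset (List Bool) → ℝ → Prop} (K : Cost M) {Q : List Bool → Prop} {H S0 r R : ℕ} {A a w : ℝ}
    (T : Lvl M Q r R A a w) (hr : 1 ≤ r) (hS0 : 2 ≤ S0) :
    ClsM M H S0 Q (fun k => a + 2 * (R / mm k + 1) * w) (A + (a + 2 * w) * r + 8 * R * w * Real.log S0) := by
  have hA := T.A0
  have ha := T.a0
  have hw := T.w0
  have hmm : ∀ k, (0 : ℝ) < mm k := fun k => by exact_mod_cast mm_pos k
  have hmm1 : ∀ k, (1 : ℝ) ≤ mm k := fun k => by exact_mod_cast mm_pos k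
  have hlogS : (1 / 2 : ℝ) ≤ Real.log S0 := by
    have h1 : Real.log 2 ≤ Real.log S0 := Real.log_le_log (by norm_num) (by exact_mod_cast hS0)
    have := Real.log_two_gt_d9
    linarith
  have hR0 : (0 : ℝ) ≤ R := Nat.cast_nonneg _
  have hr1 : (1 : ℝ) ≤ r := by exact_mod_cast hr
  have hRw : 0 ≤ (R : ℝ) * w := mul_nonneg hR0 hw
  refine ⟨fun k => ?_, fun k => ?_, fun l hl => ?_, fun k X hX => ?_, fun P hP V κ c hc hV hcost => ?_⟩
  · have := hmm k; positivity
  · have h1 : (R : ℝ) / mm k ≤ R := div_le_self hR0 (hmm1 k)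
    have h2 : (R : ℝ) / mm k * w ≤ R * w := mul_le_mul_of_nonneg_right h1 hw
    have h3 : (a + 2 * w) * 1 ≤ (a + 2 * w) * r := mul_le_mul_of_nonneg_left hr1 (by linarith)
    have h4 : R * w * 8 * (1 / 2) ≤ R * w * 8 * Real.log S0 := mul_le_mul_of_nonneg_left hlogS (by linarith)
    nlinarith
  · refine K.le _ _ _ (T.one l hl) ?_
    have h3 : (a + 2 * w) * 1 ≤ (a + 2 * w) * r := mul_le_mul_of_nonneg_left hr1 (by linarith)
    have h4 : 0 ≤ 8 * R * w * Real.log S0 := by positivity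
    linarith
  · have hm1 := mm_pos k
    have h1 := T.ind K X (fun l hl => (hX l hl).1) (m := mm k) k (by unfold mm; omega) (by unfold mm; omega)
      (R / mm k + 1) k (List.prefix_refl k) (by
        have h7 := Nat.lt_mul_div_succ R hm1
        exact lt_of_lt_of_le h7 (Nat.le_add_left _ _)) X (fun l hl => ⟨hl, (hX l hl).2.2.2⟩)
    refine K.le _ _ _ h1 ?_
    have h2 : ((R / mm k + 1 : ℕ) : ℝ) ≤ R / mm k + 1 := by
      push_cast
      have : ((R / mm k : ℕ) : ℝ) ≤ (R : ℝ) / mm k := Nat.cast_div_le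
      linarith
    rw [cnt_eq]
    set g : ℝ := (((Bst X).filter (fun i => k <+: i)).card : ℝ) with hg
    have hg0 : 0 ≤ g := by rw [hg]; exact Nat.cast_nonneg _
    have h3 : (2 * g + 1) * ((R / mm k + 1 : ℕ) : ℝ) * w ≤ (2 * (g + 1)) * (R / mm k + 1) * w := by
      apply mul_le_mul_of_nonneg_right _ hw
      apply mul_le_mul _ h2 (Nat.cast_nonneg _) (by positivity)
      linarith
    calc (g + 1) * a + (2 * g + 1) * ((R / mm k + 1 : ℕ) : ℝ) * w
        ≤ (g + 1) * a + (2 * (g + 1)) * (R / mm k + 1) * w := by linarith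
      _ = _ := by ring
  · set Vb := V.filter (fun l => r < sz (κ l).dropLast) with hVb
    set Vs := V.filter (fun l => ¬ r < sz (κ l).dropLast) with hVs
    have hpre : ∀ l ∈ V, (κ l).dropLast <+: P ∧ (κ l).dropLast <+: l := by
      intro l hl
      obtain ⟨⟨Rr, b, e, h2⟩, h3, -⟩ := hV l hl
      refine ⟨?_, (List.dropLast_prefix _).trans h3⟩
      rw [e, List.dropLast_concat]
      exact (List.prefix_append _ _).trans h2
    have c1 : M Vb A := by
      rcases Vb.eq_empty_or_nonempty with h4 | hne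
      · rw [h4]; exact K.le _ _ _ K.empty hA
      · obtain ⟨l0, hl0, hmin⟩ := Finset.exists_min_image Vb (fun l => (κ l).dropLast.length) hne
        have hl0' := Finset.mem_filter.mp hl0
        refine T.noder (κ l0).dropLast Vb hl0'.2 ?_
        intro l hl
        have hl' := Finset.mem_filter.mp hl
        refine ⟨(hV l hl'.1).2.2, ?_⟩
        have h5 : (κ l0).dropLast <+: (κ l).dropLast :=
          List.prefix_of_prefix_length_le (hpre l0 hl0'.1).1 (hpre l hl'.1).1 (hmin l hl)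
        exact h5.trans (hpre l hl'.1).2
    have c2 : M Vs (c * ((a + 2 * w) * r + 8 * R * w * Real.log S0)) := by
      have h1 := K.sum (Vs.image κ) (fun k => Vs.filter (fun l => κ l = k))
        (fun k => c * (a + 2 * (R / mm k + 1) * w)) (by
        intro k hk
        refine K.mono (hcost k ?_) ?_
        · obtain ⟨l, hl, rfl⟩ := Finset.mem_image.mp hk
          exact Finset.mem_image_of_mem κ (Finset.mem_filter.mp hl).1
        · intro l hl
          rw [Finset.mem_filter] at hl ⊢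
          exact ⟨(Finset.mem_filter.mp hl.1).1, hl.2⟩) Vs (fun l hl =>
          ⟨κ l, Finset.mem_image_of_mem κ hl, Finset.mem_filter.mpr ⟨hl, rfl⟩⟩)
      refine K.le _ _ _ h1 ?_
      rw [← Finset.mul_sum]
      apply mul_le_mul_of_nonneg_left _ hc
      have hmemI : ∀ k ∈ Vs.image κ, Hg P k ∧ ¬ r < sz k.dropLast := by
        intro k hk
        obtain ⟨l, hl, rfl⟩ := Finset.mem_image.mp hk
        have hl' := Finset.mem_filter.mp hl
        exact ⟨(hV l hl'.1).1, hl'.2⟩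
      have e1 : ∑ k ∈ Vs.image κ, (a + 2 * (R / mm k + 1) * w) =
          (a + 2 * w) * (Vs.image κ).card + 2 * R * w * ∑ k ∈ Vs.image κ, (1 : ℝ) / mm k := by
        rw [Finset.mul_sum, mul_comm (a + 2 * w), ← nsmul_eq_mul, ← Finset.sum_const, ← Finset.sum_add_distrib]
        refine Finset.sum_congr rfl fun k _ => ?_
        ring
      rw [e1]
      have e2 : ((Vs.image κ).card : ℝ) ≤ r := by
        rcases (Vs.image κ).eq_empty_or_nonempty with h4 | ⟨k0, hk0⟩
        · rw [h4]; simp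
        have hlen : ∀ k ∈ Vs.image κ, k.length ≤ r - 1 := by
          intro k hk
          obtain ⟨⟨Rr, b, rfl, -⟩, h2⟩ := hmemI k hk
          rw [List.dropLast_concat] at h2
          have := len_sz Rr
          rw [List.length_append, List.length_singleton]
          omega
        have h1 := card_of_length (Vs.image κ) (r - 1) hlen (fun k hk k' hk' he =>
          Hg_len (hmemI k hk).1 (hmemI k' hk').1 he)
        have : (Vs.image κ).card ≤ r := by omega
        exact_mod_cast this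
      have e3 : ∑ k ∈ Vs.image κ, (1 : ℝ) / mm k ≤ 4 * Real.log S0 := by
        have h2 := hang_weight (Vs.image κ) P
        have h3 : (Vs.image κ).filter (Hg P) = Vs.image κ := Finset.filter_true_of_mem (fun k hk => (hmemI k hk).1)
        rw [h3] at h2
        have hlog : ∀ n : ℕ, 1 ≤ n → n ≤ S0 → Real.log n ≤ Real.log S0 := fun n h1 h2 =>
          Real.log_le_log (by exact_mod_cast h1) (by exact_mod_cast h2)
        have hv := valid_root.desc P
        have hsz := sz_pq P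
        have l1 := hlog _ hv.p1 (by have := hv.q1; omega)
        have l2 := hlog _ hv.q1 (by have := hv.p1; omega)
        linarith
      have e4 : (a + 2 * w) * (Vs.image κ).card ≤ (a + 2 * w) * r := mul_le_mul_of_nonneg_left e2 (by linarith)
      have e5 : 2 * R * w * ∑ k ∈ Vs.image κ, (1 : ℝ) / mm k ≤ 2 * R * w * (4 * Real.log S0) :=
        mul_le_mul_of_nonneg_left e3 (by positivity)
      linarith
    refine K.le _ _ _ (K.cov Vb Vs V _ _ c1 c2 (by
      intro l hl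
      by_cases h : r < sz (κ l).dropLast
      · exact Or.inl (Finset.mem_filter.mpr ⟨hl, h⟩)
      · exact Or.inr (Finset.mem_filter.mpr ⟨hl, h⟩))) ?_
    have h4 : 0 ≤ 8 * R * w * Real.log S0 := by positivity
    have h5 : 0 ≤ (a + 2 * w) * r := by positivity
    nlinarith [mul_nonneg hc hA]

end

end Pool.Agent.N576.MK
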