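import Mathlib
import Pool.Agent.N576.MK.C3
import Pool.Agent.N576.MK.B2

set_option autoImplicit false

/-!
# The vertices with an exceptional descendant
-/

namespace Pool.Agent.N576.MK

open Pool.Agent.H499R2 Pool.Agent.TH880.MK
open Pool.Agent.R610.MK (top top_cast Exc EN)

noncomputable section

/-- the sets covered by at most `B` cones of sizes in `(R, 2 R]` -/
def CntM (R : ℕ) (X : Finset (List Bool)) (B : ℝ) : Prop :=
  ∃ F : Finset (List Bool), (∀ f ∈ F, R < sz f ∧ sz f ≤ 2 * R) ∧ (∀ l ∈ X, ∃ f ∈ F, f <+: l) ∧ (F.card : ℝ) ≤ B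

lemma cntM_cost (R : ℕ) : Cost (CntM R) := by
  classical
  refine ⟨?_, ?_, ?_⟩
  · rintro X Y Z B B' ⟨F, hF0, hF1, hF2⟩ ⟨G, hG0, hG1, hG2⟩ hZ
    refine ⟨F ∪ G, ?_, ?_, ?_⟩
    · intro f hf
      rcases Finset.mem_union.mp hf with h | h
      · exact hF0 f h
      · exact hG0 f h
    · intro l hl
      rcases hZ l hl with h | h
      · obtain ⟨f, hf, h1⟩ := hF1 l h
        exact ⟨f, Finset.mem_union_left _ hf, h1⟩
      · obtain ⟨f, hf, h1⟩ := hG1 l h
        exact ⟨f, Finset.mem_union_right _ hf, h1⟩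
    · have h1 : ((F ∪ G).card : ℝ) ≤ F.card + G.card := by exact_mod_cast Finset.card_union_le F G
      linarith
  · rintro X B B' ⟨F, hF0, hF1, hF2⟩ h
    exact ⟨F, hF0, hF1, hF2.trans h⟩
  · exact ⟨∅, by simp, by simp, by simp⟩

/-- a large word has a prefix of size in `(R, 2 R]` -/
lemma exists_cut {R : ℕ} (hR : 1 ≤ R) (l : List Bool) (h : R < sz l) : ∃ f, f <+: l ∧ R < sz f ∧ sz f ≤ 2 * R := by
  induction l using List.reverseRecOn with
  | nil =>
    have e1 : sz ([] : List Bool) = 2 := rfl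
    exact ⟨[], List.prefix_refl _, h, by rw [e1]; omega⟩
  | append_singleton l b ih =>
    by_cases hl : R < sz l
    · obtain ⟨f, h1, h2⟩ := ih hl
      exact ⟨f, h1.trans (List.prefix_append _ _), h2⟩
    · refine ⟨l ++ [b], List.prefix_refl _, h, ?_⟩
      have := (sz_child l b).2
      omega

lemma cnt_lvl {R : ℕ} (hR : 1 ≤ R) : Lvl (CntM R) (fun l => R < sz l) R R 1 1 1 := by
  have node : ∀ (i : List Bool) (X : Finset (List Bool)), R < sz i → (∀ l ∈ X, R < sz l ∧ i <+: l) → CntM R X 1 := by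
    intro i X hi hX
    obtain ⟨f, h1, h2⟩ := exists_cut hR i hi
    refine ⟨{f}, fun g hg => ?_, fun l hl => ⟨f, Finset.mem_singleton_self f, h1.trans (hX l hl).2⟩, by simp⟩
    rw [Finset.mem_singleton.mp hg]; exact h2
  refine ⟨zero_le_one, zero_le_one, zero_le_one, node, node, fun l hl => ?_, fun l hl => hl⟩
  refine node l {l} hl (fun l' hl' => ?_)
  rw [Finset.mem_singleton.mp hl']
  exact ⟨hl, List.prefix_refl _⟩

/-- **Few cones.** -/
theorem cones_few (ε : ℝ) (hε : 0 < ε) : ∃ C : ℝ, 0 < C ∧ ∀ H R : ℕ, 2 ≤ H → 1 ≤ R → ∀ Z : Finset (List Bool),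
    (∀ l ∈ Z, R < sz l ∧ sz l ≤ H ∧ ∃ l', sz l' ≤ H ∧ l' ≠ l ∧ FF l' = FF l) → CntM R Z (C * R * (H : ℝ) ^ ε) := by
  obtain ⟨C, hC, hmain⟩ := cost_eps (ε / 2) (by positivity)
  obtain ⟨C', hC', hlm⟩ := lm_pow 1 (ε / 2) (by positivity)
  refine ⟨C * (4 + 24 * C'), by positivity, fun H R hH hR Z hZ => ?_⟩
  have hH1 : (1 : ℝ) ≤ H := by exact_mod_cast (by omega : 1 ≤ H)
  have hR1 : (1 : ℝ) ≤ R := by exact_mod_cast hR
  obtain ⟨-, -, -, f4, f5, f6, -⟩ := rh_facts hH
  have hcls := (cnt_lvl hR).cls (H := H) (S0 := s0 H) (cntM_cost R) hR f5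
  refine (cntM_cost R).le _ _ _ (hmain H hH _ (cntM_cost R) _ _ _ hcls Z hZ) ?_
  have hl1 : lm H ≤ C' * (H : ℝ) ^ (ε / 2) := by
    have := hlm H (by omega)
    rwa [pow_one] at this
  have hp : (1 : ℝ) ≤ (H : ℝ) ^ (ε / 2) := Real.one_le_rpow hH1 (by positivity)
  have h1 : (1 : ℝ) + (1 + 2 * 1) * R + 8 * R * 1 * Real.log (s0 H) ≤ (4 + 24 * C') * R * (H : ℝ) ^ (ε / 2) := by
    have e1 : Real.log (s0 H) ≤ 3 * (C' * (H : ℝ) ^ (ε / 2)) := by linarith
    have e2 : 8 * R * Real.log (s0 H) ≤ 8 * R * (3 * (C' * (H : ℝ) ^ (ε / 2))) :=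
      mul_le_mul_of_nonneg_left e1 (by positivity)
    have e3 : (4 : ℝ) * R * 1 ≤ 4 * R * (H : ℝ) ^ (ε / 2) := mul_le_mul_of_nonneg_left hp (by positivity)
    nlinarith
  calc C * (H : ℝ) ^ (ε / 2) * (1 + (1 + 2 * 1) * R + 8 * R * 1 * Real.log (s0 H)) ≤
        C * (H : ℝ) ^ (ε / 2) * ((4 + 24 * C') * R * (H : ℝ) ^ (ε / 2)) := mul_le_mul_of_nonneg_left h1 (by positivity)
    _ = C * (4 + 24 * C') * R * ((H : ℝ) ^ (ε / 2) * (H : ℝ) ^ (ε / 2)) := by ring
    _ = _ := by rw [← Real.rpow_add (by linarith)]; congr 2; ring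

/-- sizes grow along a path -/
lemma sz_len {m : ℕ} {f w : List Bool} (hp : m ≤ (desc root f).p) (hq : m ≤ (desc root f).q) :
    sz f + m * w.length ≤ sz (f ++ w) := by
  induction w using List.reverseRecOn with
  | nil => simp
  | append_singleton w b ih =>
    have hpq := pq_prefix (List.prefix_append f w)
    have h1 := sz_child_ge (hp.trans hpq.1) (hq.trans hpq.2) b
    rw [← List.append_assoc, List.length_append, List.length_singleton, mul_add, mul_one]
    omega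

/-- few balanced prefixes -/
lemma prefix_few {g : List Bool} {m : ℕ} (hm : 1 ≤ m) (hg : sz g ≤ 8 * m) (A : Finset (List Bool))
    (hA : ∀ f ∈ A, f <+: g ∧ m ≤ mm f) : A.card ≤ 8 := by
  classical
  rcases A.eq_empty_or_nonempty with h | hne
  · rw [h]; simp
  obtain ⟨f0, hf0, hmin⟩ := Finset.exists_min_image A (fun f => f.length) hne
  have h0 := hA f0 hf0
  have hp0 : m ≤ (desc root f0).p := by have := h0.2; unfold mm at this; omega
  have hq0 : m ≤ (desc root f0).q := by have := h0.2; unfold mm at this; omega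
  have hs0 := sz_pq f0
  have h1 : A.card ≤ (Finset.range 8).card := by
    apply Finset.card_le_card_of_injOn (fun f => f.length - f0.length)
    · intro f hf
      have hf' := hA f (Finset.mem_coe.mp hf)
      have h2 : f0 <+: f := List.prefix_of_prefix_length_le h0.1 hf'.1 (hmin f (Finset.mem_coe.mp hf))
      obtain ⟨w, rfl⟩ := h2
      have h3 := sz_len (w := w) hp0 hq0
      have h4 := sz_prefix hf'.1
      rw [Finset.coe_range, Set.mem_Iio]
      show (f0 ++ w).length - f0.length < 8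
      rw [List.length_append]
      have h5 : m * w.length ≤ 6 * m := by omega
      have h6 : w.length ≤ 6 := by
        by_contra hcon
        push Not at hcon
        nlinarith
      omega
    · intro f hf f' hf' he
      have h2 := hA f (Finset.mem_coe.mp hf)
      have h3 := hA f' (Finset.mem_coe.mp hf')
      have h4 := hmin f (Finset.mem_coe.mp hf)
      have h5 := hmin f' (Finset.mem_coe.mp hf')
      simp only at he h4 h5
      have h6 : f.length = f'.length := by omega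
      exact (List.prefix_of_prefix_length_le h2.1 h3.1 h6.le).eq_of_length h6
  rwa [Finset.card_range] at h1

/-- the length of a run -/
lemma run_len {g : List Bool} {n m R : ℕ} {c : Bool} (hm : m ≤ mm (g ++ List.replicate n c))
    (hR : sz (g ++ List.replicate n c) ≤ R) : n * m ≤ R := by
  rw [← sz_pq] at hR
  unfold mm at hm
  cases c
  · obtain ⟨h1, -, h3⟩ := desc_run_false g n
    rw [h3, h1] at hm hR
    have : n * m ≤ n * (desc root g).q := Nat.mul_le_mul_left _ (by omega)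
    omega
  · obtain ⟨h1, -, h3⟩ := desc_run_true g n
    rw [h3, h1] at hm hR
    have : n * m ≤ n * (desc root g).p := Nat.mul_le_mul_left _ (by omega)
    omega

/-- the vertices of size at most `R` with an exceptional descendant of size at most `H` -/
def DS (R H : ℕ) : Set (List Bool) := {f | sz f ≤ R ∧ ∃ l, l ∈ EN ∧ f <+: l ∧ sz l ≤ H}

lemma DS_finite (R H : ℕ) : (DS R H).Finite := by
  refine (SW R).finite_toSet.subset ?_
  rintro f ⟨h, -⟩
  rw [Finset.mem_coe, mem_SW]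
  exact h

/-- one scale -/
lemma DS_scale (ε : ℝ) (hε : 0 < ε) : ∃ C : ℝ, 0 < C ∧ ∀ R H m : ℕ, 2 ≤ H → 1 ≤ m → m ≤ R → ∀ A : Finset (List Bool),
    (∀ f ∈ A, f ∈ DS R H ∧ m ≤ mm f ∧ mm f ≤ 2 * m) → (A.card : ℝ) ≤ C * R * (H : ℝ) ^ ε := by
  classical
  obtain ⟨C1, hC1, h1⟩ := cones_few ε hε
  obtain ⟨C2, hC2, h2⟩ := thin_main ε hε
  refine ⟨(C1 * 40 + C2 * 32) * 4 ^ ε, by positivity, fun R H m hH hm hmR A hA => ?_⟩
  have hmr : (1 : ℝ) ≤ m := by exact_mod_cast hm
  have hmRr : (m : ℝ) ≤ R := by exact_mod_cast hmR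
  -- the exceptional words
  have hfin : {l | l ∈ EN ∧ sz l ≤ H}.Finite := by
    refine (SW H).finite_toSet.subset ?_
    rintro l ⟨-, h⟩
    rw [Finset.mem_coe, mem_SW]; exact h
  set E := hfin.toFinset with hE
  have memE : ∀ l, l ∈ E ↔ l ∈ EN ∧ sz l ≤ H := by
    intro l; rw [hE, Set.Finite.mem_toFinset]; rfl
  have part : ∀ l, l ∈ E → sz l ≤ 4 * H ∧ ∃ l', sz l' ≤ 4 * H ∧ l' ≠ l ∧ FF l' = FF l := by
    intro l hl
    rw [memE] at hl
    obtain ⟨l', hne, hc⟩ := exc_word hl.1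
    have hF := FF_of_c hc
    have hs := sz_of_FF hF
    exact ⟨by omega, l', by omega, hne, hF⟩
  obtain ⟨G, hG0, hG1, hG2⟩ := h1 (4 * H) (4 * m) (by omega) (by omega) (E.filter (fun l => 4 * m < sz l)) (by
    intro l hl
    rw [Finset.mem_filter] at hl
    exact ⟨hl.2, part l hl.1⟩)
  set L := E.filter (fun l => ¬ 4 * m < sz l) with hL
  have hLc : (L.card : ℝ) ≤ C2 * ((4 * m : ℕ) : ℝ) * ((4 * H : ℕ) : ℝ) ^ ε := by
    apply h2 (4 * H) (4 * m) (by omega) (by omega)
    intro l hl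
    rw [hL, Finset.mem_filter] at hl
    refine ⟨?_, part l hl.1⟩
    have := sz_pq l
    unfold mm
    omega
  have hpow : ((4 * H : ℕ) : ℝ) ^ ε = 4 ^ ε * (H : ℝ) ^ ε := by
    push_cast
    rw [Real.mul_rpow (by norm_num) (Nat.cast_nonneg _)]
  -- the three families
  set A1 := A.filter (fun f => ∃ g ∈ G, f <+: g) with hA1
  set A2 := A.filter (fun f => ∃ g ∈ G, ∃ n : ℕ, n ≤ R / m ∧
    f = g ++ List.replicate n (decide ((desc root g).p ≤ 2 * m))) with hA2
  set A3 := A.filter (fun f => ∃ l ∈ L, f <+: l) with hA3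
  have cover : A ⊆ A1 ∪ (A2 ∪ A3) := by
    intro f hf
    obtain ⟨⟨hfR, l, hl, hfl, hlH⟩, hm1, hm2⟩ := hA f hf
    have hlE : l ∈ E := (memE l).mpr ⟨hl, hlH⟩
    rw [Finset.mem_union, Finset.mem_union]
    by_cases hbig : 4 * m < sz l
    · obtain ⟨g, hg, hgl⟩ := hG1 l (Finset.mem_filter.mpr ⟨hlE, hbig⟩)
      rcases le_total f.length g.length with h | h
      · left
        exact Finset.mem_filter.mpr ⟨hf, g, hg, List.prefix_of_prefix_length_le hfl hgl h⟩
      · right; left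
        have hgf : g <+: f := List.prefix_of_prefix_length_le hgl hfl h
        obtain ⟨n, hn⟩ := thin_run (q0 := 2 * m) (by have := (hG0 g hg).1; omega) hgf hm2
        refine Finset.mem_filter.mpr ⟨hf, g, hg, n, ?_, hn⟩
        rw [Nat.le_div_iff_mul_le (by omega)]
        exact run_len (c := decide ((desc root g).p ≤ 2 * m)) (by rw [← hn]; exact hm1) (by rw [← hn]; exact hfR)
    · right; right
      exact Finset.mem_filter.mpr ⟨hf, l, Finset.mem_filter.mpr ⟨hlE, hbig⟩, hfl⟩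
  have c1 : A1.card ≤ G.card * 8 := by
    have e : A1 ⊆ G.biUnion (fun g => A1.filter (fun f => f <+: g)) := by
      intro f hf
      obtain ⟨h3, g, hg, h4⟩ := Finset.mem_filter.mp hf
      exact Finset.mem_biUnion.mpr ⟨g, hg, Finset.mem_filter.mpr ⟨hf, h4⟩⟩
    refine (Finset.card_le_card e).trans (Finset.card_biUnion_le_card_mul _ _ _ ?_)
    intro g hg
    refine prefix_few (g := g) hm (by have := (hG0 g hg).2; omega) _ ?_
    intro f hf
    rw [Finset.mem_filter] at hf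
    exact ⟨hf.2, (hA f (Finset.mem_filter.mp hf.1).1).2.1⟩
  have c3 : A3.card ≤ L.card * 8 := by
    have e : A3 ⊆ L.biUnion (fun g => A3.filter (fun f => f <+: g)) := by
      intro f hf
      obtain ⟨h3, g, hg, h4⟩ := Finset.mem_filter.mp hf
      exact Finset.mem_biUnion.mpr ⟨g, hg, Finset.mem_filter.mpr ⟨hf, h4⟩⟩
    refine (Finset.card_le_card e).trans (Finset.card_biUnion_le_card_mul _ _ _ ?_)
    intro g hg
    rw [hL, Finset.mem_filter] at hg
    refine prefix_few (g := g) hm (by omega) _ ?_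
    intro f hf
    rw [Finset.mem_filter] at hf
    exact ⟨hf.2, (hA f (Finset.mem_filter.mp hf.1).1).2.1⟩
  have c2 : A2.card ≤ G.card * (R / m + 1) := by
    have e : A2 ⊆ (G ×ˢ Finset.range (R / m + 1)).image
        (fun z => z.1 ++ List.replicate z.2 (decide ((desc root z.1).p ≤ 2 * m))) := by
      intro f hf
      obtain ⟨h3, g, hg, n, hn, h4⟩ := Finset.mem_filter.mp hf
      refine Finset.mem_image.mpr ⟨(g, n), Finset.mem_product.mpr ⟨hg, ?_⟩, h4.symm⟩
      rw [Finset.mem_range]; omega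
    refine (Finset.card_le_card e).trans (Finset.card_image_le.trans ?_)
    rw [Finset.card_product, Finset.card_range]
  have c4 : (A.card : ℝ) ≤ G.card * 8 + (G.card * (R / m + 1) + L.card * 8) := by
    have e1 : A.card ≤ A1.card + (A2.card + A3.card) :=
      (Finset.card_le_card cover).trans ((Finset.card_union_le _ _).trans
        (Nat.add_le_add_left (Finset.card_union_le _ _) _))
    have e2 : (A.card : ℝ) ≤ A1.card + (A2.card + A3.card) := by exact_mod_cast e1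
    have e3 : (A1.card : ℝ) ≤ G.card * 8 := by exact_mod_cast c1
    have e4 : (A3.card : ℝ) ≤ L.card * 8 := by exact_mod_cast c3
    have e5 : (A2.card : ℝ) ≤ G.card * (R / m + 1) := by
      have e6 : (A2.card : ℝ) ≤ G.card * (((R / m : ℕ) : ℝ) + 1) := by exact_mod_cast c2
      refine e6.trans (mul_le_mul_of_nonneg_left ?_ (Nat.cast_nonneg _))
      have : ((R / m : ℕ) : ℝ) ≤ (R : ℝ) / m := Nat.cast_div_le
      linarith
    linarith
  have hm0 : (0 : ℝ) < m := by linarith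
  have hGc : (G.card : ℝ) ≤ 4 * C1 * m * (4 ^ ε * (H : ℝ) ^ ε) := by
    rw [← hpow]
    refine hG2.trans (le_of_eq ?_)
    push_cast
    ring
  have hLc' : (L.card : ℝ) ≤ 4 * C2 * m * (4 ^ ε * (H : ℝ) ^ ε) := by
    rw [← hpow]
    refine hLc.trans (le_of_eq ?_)
    push_cast
    ring
  have hT : 0 ≤ 4 ^ ε * (H : ℝ) ^ ε := by positivity
  have k1 : (G.card : ℝ) * (R / m + 9) ≤ 4 * C1 * m * (4 ^ ε * (H : ℝ) ^ ε) * (R / m + 9) :=
    mul_le_mul_of_nonneg_right hGc (by positivity)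
  have k2 : 4 * C1 * m * (4 ^ ε * (H : ℝ) ^ ε) * (R / m + 9) = 4 * C1 * (4 ^ ε * (H : ℝ) ^ ε) * (R + 9 * m) := by
    field_simp
  have k3 : 4 * C1 * (4 ^ ε * (H : ℝ) ^ ε) * (R + 9 * m) ≤ 4 * C1 * (4 ^ ε * (H : ℝ) ^ ε) * (10 * R) :=
    mul_le_mul_of_nonneg_left (by linarith) (by positivity)
  have k4 : 4 * C2 * m * (4 ^ ε * (H : ℝ) ^ ε) ≤ 4 * C2 * R * (4 ^ ε * (H : ℝ) ^ ε) := by
    apply mul_le_mul_of_nonneg_right _ hT
    exact mul_le_mul_of_nonneg_left hmRr (by positivity)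
  calc (A.card : ℝ) ≤ G.card * (R / m + 9) + 8 * L.card := by linarith
    _ ≤ 4 * C1 * (4 ^ ε * (H : ℝ) ^ ε) * (10 * R) + 8 * (4 * C2 * R * (4 ^ ε * (H : ℝ) ^ ε)) := by linarith
    _ = _ := by ring

/-- **The vertices with an exceptional descendant.** -/
theorem DS_count (ε : ℝ) (hε : 0 < ε) : ∃ C : ℝ, 0 < C ∧ ∀ R H : ℕ, 1 ≤ R → 2 ≤ H →
    ((DS R H).ncard : ℝ) ≤ C * R * (H : ℝ) ^ ε := by
  classical
  obtain ⟨C, hC, h⟩ := DS_scale (ε / 2) (by positivity)
  obtain ⟨C', hC', hlm⟩ := lm_pow 1 (ε / 2) (by positivity)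
  refine ⟨C * (3 * C'), by positivity, fun R H hR hH => ?_⟩
  have hH1 : (1 : ℝ) ≤ H := by exact_mod_cast (by omega : 1 ≤ H)
  have hR1 : (1 : ℝ) ≤ R := by exact_mod_cast hR
  set A := (DS_finite R H).toFinset with hA
  have memA : ∀ f, f ∈ A ↔ f ∈ DS R H := by intro f; rw [hA, Set.Finite.mem_toFinset]
  rw [Set.ncard_eq_toFinset_card _ (DS_finite R H), ← hA]
  have hszH : ∀ f ∈ A, sz f ≤ H ∧ sz f ≤ R := by
    intro f hf
    rw [memA] at hf
    obtain ⟨h1, l, -, h2, h3⟩ := hf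
    exact ⟨(sz_prefix h2).trans h3, h1⟩
  have e1 : (A.card : ℝ) = ∑ t ∈ Finset.range (Nat.log 2 H + 1), ((A.filter (fun f => Nat.log 2 (mm f) = t)).card : ℝ) := by
    exact_mod_cast Finset.card_eq_sum_card_fiberwise (fun f hf => by
      rw [Finset.coe_range, Set.mem_Iio]
      have h1 := (hszH f hf).1
      have h2 := sz_pq f
      have h3 : mm f ≤ H := by unfold mm; omega
      have := Nat.log_mono_right (b := 2) h3
      omega)
  have e2 : ∀ t ∈ Finset.range (Nat.log 2 H + 1), ((A.filter (fun f => Nat.log 2 (mm f) = t)).card : ℝ) ≤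
      C * R * (H : ℝ) ^ (ε / 2) := by
    intro t _
    rcases (A.filter (fun f => Nat.log 2 (mm f) = t)).eq_empty_or_nonempty with h4 | ⟨f0, hf0⟩
    · rw [h4]; simp only [Finset.card_empty, Nat.cast_zero]; positivity
    have hb : ∀ f ∈ A.filter (fun f => Nat.log 2 (mm f) = t), 2 ^ t ≤ mm f ∧ mm f ≤ 2 * 2 ^ t := by
      intro f hf
      rw [Finset.mem_filter] at hf
      have hpos := mm_pos f
      constructor
      · rw [← hf.2]; exact Nat.pow_log_le_self 2 (by omega)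
      · have : mm f < 2 ^ (t + 1) := by rw [← hf.2]; exact Nat.lt_pow_succ_log_self (by norm_num) _
        have e : 2 ^ (t + 1) = 2 * 2 ^ t := by ring
        omega
    refine h R H (2 ^ t) hH (Nat.one_le_pow _ _ (by norm_num)) ?_ _ ?_
    · have h5 := (hb f0 hf0).1
      have h6 := (hszH f0 (Finset.mem_filter.mp hf0).1).2
      have h7 := sz_pq f0
      have h8 : mm f0 ≤ R := by unfold mm; omega
      omega
    · intro f hf
      exact ⟨(memA f).mp (Finset.mem_filter.mp hf).1, hb f hf⟩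
  have e3 : ((Nat.log 2 H : ℕ) : ℝ) + 1 ≤ 3 * (C' * (H : ℝ) ^ (ε / 2)) := by
    have h3 : ((Nat.log 2 H : ℕ) : ℝ) * Real.log 2 ≤ Real.log H := by
      have h4 : ((2 ^ Nat.log 2 H : ℕ) : ℝ) ≤ H := by exact_mod_cast Nat.pow_log_le_self 2 (by omega)
      have h5 := Real.log_le_log (by positivity) h4
      push_cast at h5
      rwa [Real.log_pow] at h5
    have h6 := Real.log_two_gt_d9
    have h7 : Real.log H ≤ Real.log (2 * H) := Real.log_le_log (by linarith) (by linarith)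
    have h8 : (0 : ℝ) ≤ (Nat.log 2 H : ℕ) := Nat.cast_nonneg _
    have h9 : ((Nat.log 2 H : ℕ) : ℝ) ≤ 2 * Real.log (2 * H) := by nlinarith
    have h10 := hlm H (by omega)
    rw [pow_one] at h10
    unfold lm at h10
    have h11 : 0 ≤ Real.log (2 * H) := Real.log_nonneg (by linarith)
    linarith
  have hp0 : 0 ≤ C * R * (H : ℝ) ^ (ε / 2) := by positivity
  calc (A.card : ℝ) = _ := e1
    _ ≤ ∑ t ∈ Finset.range (Nat.log 2 H + 1), C * R * (H : ℝ) ^ (ε / 2) := Finset.sum_le_sum e2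
    _ = (((Nat.log 2 H : ℕ) : ℝ) + 1) * (C * R * (H : ℝ) ^ (ε / 2)) := by
        rw [Finset.sum_const, nsmul_eq_mul, Finset.card_range]; push_cast; ring
    _ ≤ 3 * (C' * (H : ℝ) ^ (ε / 2)) * (C * R * (H : ℝ) ^ (ε / 2)) := mul_le_mul_of_nonneg_right e3 hp0
    _ = C * (3 * C') * R * ((H : ℝ) ^ (ε / 2) * (H : ℝ) ^ (ε / 2)) := by ring
    _ = _ := by rw [← Real.rpow_add (by linarith)]; congr 2; ring

end

end Pool.Agent.N576.MK
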