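import Mathlib
import Pool.Agent.N576.MK.B1

set_option autoImplicit false

/-!
# Triples with a small entry: numbers of triples and of exceptional triples
-/

namespace Pool.Agent.N576.MK

open Pool.Agent.H499R2 Pool.Agent.TH880.MK

noncomputable section

/-- ordered Markov triples -/
def MT (a b m : ℕ) : Prop := 1 ≤ a ∧ a ≤ b ∧ b ≤ m ∧ a ^ 2 + b ^ 2 + m ^ 2 = 3 * a * b * m

lemma MT_word {a b m : ℕ} (h : MT a b m) (hm : 5 ≤ m) : ∃ l, Ph (desc root l) = ((a : ℤ), (b : ℤ), (m : ℤ)) :=
  word_of m a b hm h.1 h.2.1 h.2.2.1 h.2.2.2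

/-- size bound for the small region -/
lemma mm_of_min {A : ℕ} {l : List Bool} (h : min (desc root l).a (desc root l).b ≤ (A : ℤ)) :
    (mm l : ℝ) ≤ 2 * Real.log (3 * A) := by
  have hv := valid_root.desc l
  have key : ∀ (x : ℤ) (n : ℕ), (1 : ℝ) ≤ x → x ≤ (A : ℤ) → (n : ℝ) / 2 ≤ g x → (n : ℝ) ≤ 2 * Real.log (3 * A) := by
    intro x n hx hxA hn
    have h1 : g x ≤ Real.log (3 * A) := by
      unfold g
      apply Real.log_le_log (lam_pos _ hx)
      have := lam_upper _ hx
      have : (x : ℝ) ≤ A := by exact_mod_cast hxA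
      linarith
    linarith
  have ha : (1 : ℝ) ≤ (desc root l).a := hv.mt.ha
  have hb : (1 : ℝ) ≤ (desc root l).b := hv.mt.hb
  have e1 := (al_size hv).1
  have e2 := (be_size hv).1
  rcases min_le_iff.mp h with h | h
  · have h1 := key _ _ ha h e1
    have h2 : (mm l : ℝ) ≤ (desc root l).p := by exact_mod_cast min_le_left _ _
    linarith
  · have h1 := key _ _ hb h e2
    have h2 : (mm l : ℝ) ≤ (desc root l).q := by exact_mod_cast min_le_right _ _
    linarith

lemma log_facts {N : ℕ} (hN : 3 ≤ N) : 1 ≤ Real.log N ∧ Real.log (3 * N) ≤ 2 * Real.log N ∧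
    1 ≤ ⌊2 * Real.log (3 * N)⌋₊ ∧ ((⌊2 * Real.log (3 * N)⌋₊ : ℕ) : ℝ) ≤ 4 * Real.log N := by
  have hNr : (3 : ℝ) ≤ N := by exact_mod_cast hN
  have hlog : 1 ≤ Real.log N := by
    rw [Real.le_log_iff_exp_le (by linarith)]
    have := Real.exp_one_lt_d9
    linarith
  have h3N : Real.log (3 * N) ≤ 2 * Real.log N := by
    rw [Real.log_mul (by norm_num) (by linarith)]
    have : Real.log 3 ≤ Real.log N := Real.log_le_log (by norm_num) hNr
    linarith
  have h3N' : Real.log N ≤ Real.log (3 * N) := Real.log_le_log (by linarith) (by linarith)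
  have f1 : ((⌊2 * Real.log (3 * N)⌋₊ : ℕ) : ℝ) ≤ 2 * Real.log (3 * N) := Nat.floor_le (by linarith)
  refine ⟨hlog, h3N, ?_, by linarith⟩
  apply Nat.le_floor
  push_cast
  linarith

/-- the exceptional triples with a small entry -/
def ST (A N : ℕ) : Set (ℕ × ℕ × ℕ) :=
  {t | MT t.1 t.2.1 t.2.2 ∧ t.1 ≤ A ∧ t.2.2 ≤ N ∧ ∃ a b : ℕ, (a, b) ≠ (t.1, t.2.1) ∧ MT a b t.2.2}

/-- all triples with a small entry -/
def AT (A N : ℕ) : Set (ℕ × ℕ × ℕ) := {t | MT t.1 t.2.1 t.2.2 ∧ t.1 ≤ A ∧ t.2.2 ≤ N}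

lemma AT_finite (A N : ℕ) : (AT A N).Finite := by
  refine ((Set.finite_Iic N).prod ((Set.finite_Iic N).prod (Set.finite_Iic N))).subset ?_
  rintro ⟨a, b, m⟩ ⟨⟨h1, h2, h3, -⟩, -, h5⟩
  simp only [Set.mem_prod, Set.mem_Iic] at *
  omega

theorem triples_le (ε : ℝ) (hε : 0 < ε) : ∃ C : ℝ, 0 < C ∧ ∀ A N : ℕ, 1 ≤ A → 3 ≤ N →
    ((ST A N).ncard : ℝ) ≤ C * (1 + Real.log A) * (Real.log N) ^ ε := by
  classical
  obtain ⟨C, hC, h⟩ := thin_main ε hε
  refine ⟨C * 3 * 4 ^ ε, by positivity, fun A N hA hN => ?_⟩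
  obtain ⟨l1, l2, l3, l4⟩ := log_facts hN
  have hAr : (1 : ℝ) ≤ A := by exact_mod_cast hA
  have hlogA : 0 ≤ Real.log A := Real.log_nonneg hAr
  have hfin : (ST A N).Finite := (AT_finite A N).subset fun t ht => ⟨ht.1, ht.2.1, ht.2.2.1⟩
  have hch : ∀ t ∈ ST A N, ∃ l, Ph (desc root l) = ((t.1 : ℤ), (t.2.1 : ℤ), (t.2.2 : ℤ)) ∧
      mm l ≤ ⌊2 * Real.log (3 * A)⌋₊ ∧ sz l ≤ ⌊2 * Real.log (3 * N)⌋₊ ∧
      ∃ l', sz l' ≤ ⌊2 * Real.log (3 * N)⌋₊ ∧ l' ≠ l ∧ FF l' = FF l := by
    rintro ⟨a, b, m⟩ ⟨h1, h2, h3, a', b', h4, h5⟩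
    simp only at h1 h2 h3 h4 h5 ⊢
    have hex : Ex m := by
      refine ⟨(a, b), (a', b'), h4.symm, ?_, ?_⟩
      · exact ⟨h1.1, h1.2.1, h1.2.2.1, h1.2.2.2⟩
      · exact ⟨h5.1, h5.2.1, h5.2.2.1, h5.2.2.2⟩
    have hm5 := Ex_five hex (by have := h1.1; have := h1.2.1; have := h1.2.2.1; omega)
    obtain ⟨l, hl⟩ := MT_word h1 hm5
    obtain ⟨l', hl'⟩ := MT_word h5 hm5
    have hc : (desc root l).c = m := congrArg (fun z => z.2.2) hl
    have hc' : (desc root l').c = m := congrArg (fun z => z.2.2) hl'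
    have hmin : min (desc root l).a (desc root l).b = a := congrArg (fun z => z.1) hl
    refine ⟨l, hl, ?_, sz_of_c hN (by rw [hc]; exact_mod_cast h3), l', sz_of_c hN (by rw [hc']; exact_mod_cast h3), ?_,
      FF_of_c (by rw [hc, hc'])⟩
    · apply Nat.le_floor
      exact mm_of_min (by rw [hmin]; exact_mod_cast h2)
    · rintro rfl
      rw [hl] at hl'
      simp only [Prod.mk.injEq, Nat.cast_inj] at hl'
      exact h4 (Prod.ext hl'.1.symm hl'.2.1.symm)
  choose! f hf1 hf2 hf3 hf4 using hch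
  have hinj : Set.InjOn f (hfin.toFinset : Set (ℕ × ℕ × ℕ)) := by
    intro t ht t' ht' he
    rw [Set.Finite.coe_toFinset] at ht ht'
    have e1 := hf1 t ht
    have e2 := hf1 t' ht'
    rw [he, e2] at e1
    simp only [Prod.mk.injEq, Nat.cast_inj] at e1
    exact Prod.ext e1.1.symm (Prod.ext e1.2.1.symm e1.2.2.symm)
  have hq0 : 1 ≤ ⌊2 * Real.log (3 * A)⌋₊ := by
    apply Nat.le_floor
    have h1 : Real.log 3 ≤ Real.log (3 * A) := Real.log_le_log (by norm_num) (by linarith)
    have h2 : 1 ≤ Real.log 3 := by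
      rw [Real.le_log_iff_exp_le (by norm_num)]
      have := Real.exp_one_lt_d9
      linarith
    push_cast
    linarith
  have key := h ⌊2 * Real.log (3 * N)⌋₊ ⌊2 * Real.log (3 * A)⌋₊ l3 hq0 (hfin.toFinset.image f) (by
    intro l hl
    obtain ⟨t, ht, rfl⟩ := Finset.mem_image.mp hl
    rw [Set.Finite.mem_toFinset] at ht
    exact ⟨hf2 t ht, hf3 t ht, hf4 t ht⟩)
  rw [Finset.card_image_of_injOn hinj] at key
  rw [Set.ncard_eq_toFinset_card _ hfin]
  refine key.trans ?_
  have h1 : ((⌊2 * Real.log (3 * A)⌋₊ : ℕ) : ℝ) ≤ 3 * (1 + Real.log A) := by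
    have h2 : Real.log (3 * A) = Real.log 3 + Real.log A := Real.log_mul (by norm_num) (by linarith)
    have h3 : Real.log 3 ≤ 3 / 2 := by
      rw [Real.log_le_iff_le_exp (by norm_num)]
      have := Real.exp_one_gt_d9
      have e1 : Real.exp (3 / 2) ^ 2 = Real.exp 1 ^ 3 := by
        rw [← Real.exp_nat_mul, ← Real.exp_nat_mul]; norm_num
      have e2 : (3 : ℝ) ^ 2 ≤ Real.exp (3 / 2) ^ 2 := by
        rw [e1]
        calc (3 : ℝ) ^ 2 ≤ 2.7 ^ 3 := by norm_num
          _ ≤ Real.exp 1 ^ 3 := pow_le_pow_left₀ (by norm_num) (by linarith) 3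
      exact le_of_sq_le_sq e2 (Real.exp_pos _).le
    have h4 : ((⌊2 * Real.log (3 * A)⌋₊ : ℕ) : ℝ) ≤ 2 * Real.log (3 * A) := Nat.floor_le (by
      rw [h2]
      have : 0 ≤ Real.log 3 := Real.log_nonneg (by norm_num)
      linarith)
    linarith
  have h5 : ((⌊2 * Real.log (3 * N)⌋₊ : ℕ) : ℝ) ^ ε ≤ 4 ^ ε * (Real.log N) ^ ε := by
    rw [← Real.mul_rpow (by norm_num) (by linarith)]
    exact Real.rpow_le_rpow (Nat.cast_nonneg _) l4 hε.le
  calc C * ((⌊2 * Real.log (3 * A)⌋₊ : ℕ) : ℝ) * ((⌊2 * Real.log (3 * N)⌋₊ : ℕ) : ℝ) ^ ε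
      ≤ C * (3 * (1 + Real.log A)) * (4 ^ ε * (Real.log N) ^ ε) := by
        apply mul_le_mul _ h5 (by positivity) (by positivity)
        exact mul_le_mul_of_nonneg_left h1 hC.le
    _ = _ := by ring

/-! ### The number of all triples -/

open scoped Classical in
/-- words whose point lies in a box -/
def Bx (I J : ℕ) : Finset (List Bool) := (SW (I + J)).filter (fun l => (pt l).1 ≤ I ∧ (pt l).2 ≤ J)

lemma mem_Bx {I J : ℕ} {l : List Bool} : l ∈ Bx I J ↔ (pt l).1 ≤ I ∧ (pt l).2 ≤ J := by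
  unfold Bx
  rw [Finset.mem_filter, mem_SW]
  constructor
  · exact fun h => h.2
  · intro h
    refine ⟨?_, h⟩
    unfold sz
    omega

lemma Bx_le (I J : ℕ) : (Bx I J).card ≤ I * J := by
  classical
  have h1 : (Bx I J).card ≤ (Finset.Icc 1 I ×ˢ Finset.Icc 1 J).card := by
    apply Finset.card_le_card_of_injOn (fun l => pt l)
    · intro l hl
      have h := mem_Bx.mp (Finset.mem_coe.mp hl)
      have hp := pt_pos l
      rw [Finset.coe_product, Set.mem_prod, Finset.coe_Icc, Finset.coe_Icc, Set.mem_Icc, Set.mem_Icc]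
      exact ⟨⟨hp.1, h.1⟩, ⟨hp.2, h.2⟩⟩
    · intro l _ l' _ he
      have he' : pt l = pt l' := he
      exact (em_inj l l' 1 1 one_pos one_pos (by rw [he']) (by rw [he'])).1
  rwa [Finset.card_product, Nat.card_Icc, Nat.card_Icc, Nat.add_sub_cancel, Nat.add_sub_cancel] at h1

lemma Bx_lower (I J : ℕ) (hI : 1 ≤ I) : (I : ℝ) * J / 4 ≤ (Bx I J).card := by
  classical
  set T : Finset (Σ _ : ℕ, List Bool) := (Finset.Icc 1 I).sigma (fun k => Bx (I / k) (J / k)) with hT
  have hch : ∀ s ∈ Finset.Icc 1 I ×ˢ Finset.Icc 1 J, ∃ t : (Σ _ : ℕ, List Bool), t ∈ T ∧ H499R2.em (t.2, t.1) = s := by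
    rintro ⟨i, j⟩ hs
    rw [Finset.mem_product, Finset.mem_Icc, Finset.mem_Icc] at hs
    simp only at hs
    obtain ⟨l, k, hk, he⟩ := em_surj (i + j) i j le_rfl (by omega) (by omega)
    refine ⟨⟨k, l⟩, ?_, he⟩
    unfold H499R2.em at he
    simp only [Prod.mk.injEq] at he
    have hp := pt_pos l
    rw [hT, Finset.mem_sigma, Finset.mem_Icc, mem_Bx]
    simp only
    refine ⟨⟨hk, ?_⟩, ?_, ?_⟩
    · have : k * 1 ≤ k * (pt l).1 := Nat.mul_le_mul_left _ hp.1
      omega
    · rw [Nat.le_div_iff_mul_le hk, mul_comm]; omega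
    · rw [Nat.le_div_iff_mul_le hk, mul_comm]; omega
  choose! f hf1 hf2 using hch
  have h1 : (Finset.Icc 1 I ×ˢ Finset.Icc 1 J).card ≤ T.card := by
    apply Finset.card_le_card_of_injOn f (fun s hs => hf1 s hs)
    intro s hs t ht hst
    have e1 := hf2 s hs
    have e2 := hf2 t ht
    rw [hst, e2] at e1
    exact e1.symm
  rw [Finset.card_product, Nat.card_Icc, Nat.card_Icc, Nat.add_sub_cancel, Nat.add_sub_cancel] at h1
  have h3 : (T.card : ℝ) = ∑ k ∈ Finset.Icc 1 I, ((Bx (I / k) (J / k)).card : ℝ) := by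
    rw [hT, Finset.card_sigma]; push_cast; rfl
  have h4 : ∑ k ∈ Finset.Icc 1 I, ((Bx (I / k) (J / k)).card : ℝ) =
      (Bx I J).card + ∑ k ∈ Finset.Icc 2 I, ((Bx (I / k) (J / k)).card : ℝ) := by
    have : Finset.Icc 1 I = insert 1 (Finset.Icc 2 I) := by
      ext k; simp only [Finset.mem_Icc, Finset.mem_insert]; omega
    rw [this, Finset.sum_insert (by simp), Nat.div_one, Nat.div_one]
  have h5 : ∑ k ∈ Finset.Icc 2 I, ((Bx (I / k) (J / k)).card : ℝ) ≤ (I : ℝ) * J * (3 / 4) := by
    have h6 : ∀ k ∈ Finset.Icc 2 I, ((Bx (I / k) (J / k)).card : ℝ) ≤ (I : ℝ) * J * (1 / (k : ℝ) ^ 2) := by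
      intro k hk
      rw [Finset.mem_Icc] at hk
      have h7 : ((Bx (I / k) (J / k)).card : ℝ) ≤ ((I / k : ℕ) : ℝ) * ((J / k : ℕ) : ℝ) := by
        exact_mod_cast Bx_le (I / k) (J / k)
      have h8 : ((I / k : ℕ) : ℝ) ≤ (I : ℝ) / k := Nat.cast_div_le
      have h9 : ((J / k : ℕ) : ℝ) ≤ (J : ℝ) / k := Nat.cast_div_le
      calc _ ≤ ((I / k : ℕ) : ℝ) * ((J / k : ℕ) : ℝ) := h7
        _ ≤ ((I : ℝ) / k) * ((J : ℝ) / k) := mul_le_mul h8 h9 (Nat.cast_nonneg _) (by positivity)
        _ = _ := by ring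
    refine (Finset.sum_le_sum h6).trans ?_
    rw [← Finset.mul_sum]
    apply mul_le_mul_of_nonneg_left _ (by positivity)
    by_cases h2 : 2 ≤ I
    · have := sum_inv_sq I h2
      have h0 : (0 : ℝ) ≤ 1 / I := by positivity
      linarith
    · have : Finset.Icc 2 I = ∅ := by
        rw [Finset.Icc_eq_empty]; omega
      rw [this]; norm_num
  have h11 : (I : ℝ) * J ≤ T.card := by exact_mod_cast h1
  rw [h3, h4] at h11
  linarith

lemma pt_reverse (l : List Bool) : pt l.reverse = ((desc root l).q, (desc root l).p) := by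
  induction l using List.reverseRecOn with
  | nil => rfl
  | append_singleton l b ih =>
    rw [List.reverse_append, List.reverse_singleton, List.singleton_append, desc_snoc]
    cases b
    · have e3 : (step (desc root l) false).p = (desc root l).p + (desc root l).q := rfl
      have e4 : (step (desc root l) false).q = (desc root l).q := rfl
      rw [e3, e4]
      show ((pt l.reverse).1, (pt l.reverse).1 + (pt l.reverse).2) = _
      rw [ih]
      simp only [Prod.mk.injEq, true_and]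
      omega
    · have e3 : (step (desc root l) true).p = (desc root l).p := rfl
      have e4 : (step (desc root l) true).q = (desc root l).p + (desc root l).q := rfl
      rw [e3, e4]
      show ((pt l.reverse).1 + (pt l.reverse).2, (pt l.reverse).2) = _
      rw [ih]
      simp only [Prod.mk.injEq, and_true]
      omega

/-- entries with a small region are small -/
lemma entry_le {x : ℤ} {n : ℕ} {Y : ℝ} (hx : (1 : ℝ) ≤ x) (h : g x ≤ 2 * n) (hY : 2 * (n : ℝ) ≤ Y) :
    (x : ℝ) ≤ Real.exp Y := by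
  have h1 : lam x ≤ Real.exp Y := by
    rw [← Real.log_le_iff_le_exp (lam_pos _ hx)]
    unfold g at h
    linarith
  have h2 := lam_lower _ hx
  linarith

theorem triples_ge : ∃ c : ℝ, 0 < c ∧ ∀ A N : ℕ, 1 ≤ A → A ≤ N → 3 ≤ N →
    c * (1 + Real.log A) * Real.log N ≤ (AT A N).ncard := by
  classical
  refine ⟨1 / 512, by norm_num, fun A N hA hAN hN => ?_⟩
  obtain ⟨l1, -, -, -⟩ := log_facts hN
  have hAr : (1 : ℝ) ≤ A := by exact_mod_cast hA
  have hNr : (3 : ℝ) ≤ N := by exact_mod_cast hN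
  have hlogA : 0 ≤ Real.log A := Real.log_nonneg hAr
  have hlogAN : Real.log A ≤ Real.log N := Real.log_le_log (by linarith) (by exact_mod_cast hAN)
  set x := Real.log A with hx
  set y := Real.log N with hy
  rcases lt_or_ge y 8 with h8 | h8
  · have h1 : 0 < (AT A N).ncard := by
      rw [Set.ncard_pos (AT_finite A N)]
      exact ⟨(1, 1, 1), ⟨le_rfl, le_rfl, le_rfl, by norm_num⟩, hA, by show 1 ≤ N; omega⟩
    have h2 : (1 : ℝ) ≤ (AT A N).ncard := by exact_mod_cast (show 1 ≤ (AT A N).ncard by omega)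
    nlinarith
  · set I := ⌊y / 4⌋₊ with hI
    have hI1 : y / 8 ≤ I := by
      have := Nat.lt_floor_add_one (y / 4)
      rw [← hI] at this
      linarith
    have hI2 : (I : ℝ) ≤ y / 4 := Nat.floor_le (by linarith)
    have hI3 : 1 ≤ I := by
      rw [hI]; apply Nat.le_floor; push_cast; linarith
    obtain ⟨J, hJ1, hJ2, hJ3⟩ : ∃ J : ℕ, (1 + x) / 16 ≤ J ∧ (J : ℝ) ≤ y / 4 ∧ (J = 1 ∨ 2 * (J : ℝ) ≤ x) := by
      rcases lt_or_ge x 8 with h | h
      · exact ⟨1, by push_cast; linarith, by push_cast; linarith, Or.inl rfl⟩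
      · refine ⟨⌊x / 4⌋₊, ?_, ?_, Or.inr ?_⟩
        · have := Nat.lt_floor_add_one (x / 4)
          linarith
        · have : ((⌊x / 4⌋₊ : ℕ) : ℝ) ≤ x / 4 := Nat.floor_le (by linarith)
          linarith
        · have : ((⌊x / 4⌋₊ : ℕ) : ℝ) ≤ x / 4 := Nat.floor_le (by linarith)
          linarith
    have hB := Bx_lower I J hI3
    have hcard : (Bx I J).card ≤ (AT_finite A N).toFinset.card := by
      apply Finset.card_le_card_of_injOn (fun l => ((min (desc root l.reverse).a (desc root l.reverse).b).toNat,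
        (max (desc root l.reverse).a (desc root l.reverse).b).toNat, (desc root l.reverse).c.toNat))
      · intro l hl
        have hl' := mem_Bx.mp (Finset.mem_coe.mp hl)
        obtain ⟨w, hw⟩ : ∃ w, w = l.reverse := ⟨_, rfl⟩
        have hpt := pt_reverse w
        rw [hw, List.reverse_reverse] at hpt
        rw [← hw] at hpt
        rw [hpt] at hl'
        simp only at hl'
        show _ ∈ ((AT_finite A N).toFinset : Set (ℕ × ℕ × ℕ))
        rw [Set.Finite.coe_toFinset]
        simp only [← hw]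
        have hz := zvd w
        have hv := valid_root.desc w
        obtain ⟨a, ha⟩ := Int.eq_ofNat_of_zero_le (by have := hz.a1; omega : 0 ≤ (desc root w).a)
        obtain ⟨b, hb⟩ := Int.eq_ofNat_of_zero_le (by have := hz.b1; omega : 0 ≤ (desc root w).b)
        obtain ⟨c, hc⟩ := Int.eq_ofNat_of_zero_le (by have := hz.c5; omega : 0 ≤ (desc root w).c)
        have ea := hz.a1
        have eb := hz.b1
        have eac := hz.ac
        have ebc := hz.bc
        have eeq := hz.eq
        have hcN : c ≤ N := by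
          have h1 : (1 : ℝ) ≤ (desc root w).c := hv.mt.c_one
          have h2 := (FF_size w).2
          have h3 : g (desc root w).c ≤ 2 * ((desc root w).p + (desc root w).q : ℕ) := by
            rw [sz_pq]; exact h2
          have h4 := entry_le h1 h3 (Y := y) (by
            push_cast
            have e1 : ((desc root w).q : ℝ) ≤ I := by exact_mod_cast hl'.1
            have e2 : ((desc root w).p : ℝ) ≤ J := by exact_mod_cast hl'.2
            linarith)
          rw [hy, Real.exp_log (by linarith), hc] at h4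
          exact_mod_cast h4
        have haA : (desc root w).a ≤ A := by
          rcases hJ3 with hJ | hJ
          · have hp1 : (desc root w).p = 1 := by
              have := hv.p1
              omega
            rcases (Pool.Agent.R610.MK.label w).1 with ⟨h1, -⟩ | ⟨l', -, h2⟩
            · rw [h1]; exact_mod_cast hA
            · have := Pool.Agent.R610.MK.two_le_sz l'
              omega
          · have h1 : (1 : ℝ) ≤ (desc root w).a := hv.mt.ha
            have h2 : g (desc root w).a ≤ 2 * (desc root w).p := (al_size hv).2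
            have h4 := entry_le h1 h2 (Y := x) (by
              have e2 : ((desc root w).p : ℝ) ≤ J := by exact_mod_cast hl'.2
              linarith)
            rw [hx, Real.exp_log (by linarith)] at h4
            exact_mod_cast h4
        rw [ha] at ea eac eeq haA
        rw [hb] at eb ebc eeq
        rw [hc] at eac ebc eeq
        rw [ha, hb, hc]
        have eeq' : a ^ 2 + b ^ 2 + c ^ 2 = 3 * a * b * c := by exact_mod_cast eeq
        have ea' : 1 ≤ a := by exact_mod_cast ea
        have eb' : 1 ≤ b := by exact_mod_cast eb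
        have eac' : a < c := by exact_mod_cast eac
        have ebc' : b < c := by exact_mod_cast ebc
        have haA' : a ≤ A := by exact_mod_cast haA
        have m1 : (min (a : ℤ) (b : ℤ)).toNat = min a b := by omega
        have m2 : (max (a : ℤ) (b : ℤ)).toNat = max a b := by omega
        show MT (min (a : ℤ) (b : ℤ)).toNat (max (a : ℤ) (b : ℤ)).toNat ((c : ℤ)).toNat ∧
          (min (a : ℤ) (b : ℤ)).toNat ≤ A ∧ ((c : ℤ)).toNat ≤ N
        rw [m1, m2, Int.toNat_natCast]
        refine ⟨⟨by omega, by omega, by omega, ?_⟩, by omega, hcN⟩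
        rcases le_total a b with h | h
        · rw [min_eq_left h, max_eq_right h]; exact eeq'
        · rw [min_eq_right h, max_eq_left h]; linarith
      · intro l _ l' _ he
        simp only [Prod.mk.injEq] at he
        have hz := zvd l.reverse
        have hz' := zvd l'.reverse
        have e1 := hz.a1
        have e2 := hz.b1
        have e3 := hz.c5
        have e1' := hz'.a1
        have e2' := hz'.b1
        have e3' := hz'.c5
        have hPh : Ph (desc root l.reverse) = Ph (desc root l'.reverse) := by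
          unfold Ph
          obtain ⟨h1, h2, h3⟩ := he
          refine Prod.ext ?_ (Prod.ext ?_ ?_)
          · show min _ _ = min _ _
            omega
          · show max _ _ = max _ _
            omega
          · show (desc root l.reverse).c = (desc root l'.reverse).c
            omega
        exact List.reverse_injective (Ph_inj' hPh)
    rw [Set.ncard_eq_toFinset_card _ (AT_finite A N)]
    have h1 : ((Bx I J).card : ℝ) ≤ (AT_finite A N).toFinset.card := by exact_mod_cast hcard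
    refine le_trans ?_ (hB.trans h1)
    have h2 : y / 8 * ((1 + x) / 16) ≤ (I : ℝ) * J := mul_le_mul hI1 hJ1 (by linarith) (by positivity)
    linarith

end

end Pool.Agent.N576.MK
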